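import Pool.Agent.helper62.EIG.FPoly

set_option autoImplicit false
set_option linter.unusedSectionVars false

/-!
# EIG-FMain: from a state to a cubic form

PROOFS. `A` from `exists_sqrt`, `T i j k = dot (B (A⁻¹ e_i) (A⁻¹ e_j)) (A⁻¹ e_k)` (symmetric by `Bil.comm` and `adj`), `f` from
`exists_form` (`A⁻¹ = A.symm`, `e_i = Pi.single i 1`).
* `form_grad`: the vector `g v i = eval v (pderiv i f)` satisfies `dot (g (A x)) w = dot (B x x) (A⁻¹ w)`, and the vector
  `H v y j = ∑ k, y k * eval v (pderiv k (pderiv j f))` satisfies `dot (H (A x) (A y)) w = 2 dot (B x y) (A⁻¹ w)` (expand `w`, `A x`, `A y` in the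
  basis). Also `dot (A x) w = dot (S x) (A⁻¹ w)`.
* So `g (A x) = λ • A x ↔ B x x = λ • S x` (`eq_zero_of_dot`), and for `x ≠ 0`: `IsEigenvector f (A x) ↔ ∃ λ, B x x = λ • S x` (the minors of two
  vectors `v ≠ 0`, `g` vanish iff `g = λ v`). `eig_iff`.
* `IsEigenvector f v` and `IsReducedAt f v` do not change when `v` is replaced by `c • v`, `c ≠ 0` (homogeneity: `g (c v) = c² g v`,
  `H (c v) y = c H v y`; for `IsReducedAt` only needed for eigenvectors: use `y ↦ c y` or the description by `x`).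
* Eigenpoints. Let `x ≠ 0`, `B x x = λ • S x`. If `λ = 0` then `x = Pi.single i0 c`, so `[A x] = [A e]`, `e = Pi.single i0 1`. If `λ ≠ 0` then
  `x' = λ⁻¹ • x` satisfies `B x' x' = S x'`, `x' ≠ 0`, `[A x] = [A x']`. So `eigenpoints f` is the set of the points `[A x]`, `x` in
  `E0 = {x | B x x = S x} \ {0}`, together with `[A e]`. The map `x ↦ [A x]` is injective on `E0`: if `A x' = c • A x` then `x' = c • x`,
  `c² S x = B x' x' = S x' = c S x`, `S x ≠ 0`, `c ≠ 0`, so `c = 1`. And `[A e]` is not of this form (`B e e = 0`, `B x x = S x ≠ 0`). Number: `(I - 1) + 1 = I`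
  (`0` is a solution, so `1 ≤ I`).
* Reducedness at `v = A x`, `x ∈ E0` (so `g v = v`): if all `dminor f v y i j = 0`, then `y i * v j + v i * H j - (y j * v i + v j * H i) = 0` with
  `H = H v y`, i.e. `v i * (H j - y j) = v j * (H i - y i)`, so `H - y = c • v` for some `c` (`v ≠ 0`). With `y = A y'`:
  `2 B x y' - S y' = c • S x`. Since `2 B x x - S x = S x`: `2 B x (y' - c x) = S (y' - c x)`, so `y' = c x` (`nd`), `y = c • v`. Then pass from `v = A x` to
  the representative `P.rep = c' • A x`.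
-/

namespace EIG

open Finset MvPolynomial LinearAlgebra.Projectivization

/-- two vectors, the first nonzero, with vanishing minors are proportional -/
theorem fmain_prop {N : ℕ} {v w : Fin N → ℂ} (hv : v ≠ 0) (h : ∀ i j, v i * w j - v j * w i = 0) :
    ∃ c : ℂ, w = c • v := by
  obtain ⟨i, hi⟩ := Function.ne_iff.1 hv
  rw [Pi.zero_apply] at hi
  refine ⟨w i / v i, ?_⟩
  funext j
  rw [Pi.smul_apply, smul_eq_mul, div_mul_eq_mul_div, eq_div_iff hi]
  linear_combination h i j

section
variable {ι : Type} [Fintype ι] [DecidableEq ι]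

/-- coordinates of the functional `z ↦ dot u z` in the frame `A.symm e_i` -/
noncomputable def fmainR {N : ℕ} (A : Vc ι ≃ₗ[ℂ] Vc (Fin N)) (u : Vc ι) : Vc (Fin N) :=
  fun i => dot u (A.symm (Pi.single i 1))

theorem fmainR_smul {N : ℕ} (A : Vc ι ≃ₗ[ℂ] Vc (Fin N)) (c : ℂ) (u : Vc ι) :
    fmainR A (c • u) = c • fmainR A u := by
  funext i
  simp only [fmainR, smul_dot, Pi.smul_apply, smul_eq_mul]

theorem fmainR_sub {N : ℕ} (A : Vc ι ≃ₗ[ℂ] Vc (Fin N)) (u w : Vc ι) :
    fmainR A (u - w) = fmainR A u - fmainR A w := by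
  funext i
  simp only [fmainR, sub_dot, Pi.sub_apply]

/-- expansion of a linear functional -/
theorem fmain_exp {N : ℕ} (A : Vc ι ≃ₗ[ℂ] Vc (Fin N)) (F : Vc ι → ℂ) (ha : ∀ x y, F (x + y) = F x + F y)
    (hs : ∀ (c : ℂ) x, F (c • x) = c * F x) (v : Vc (Fin N)) :
    F (A.symm v) = ∑ j, v j * F (A.symm (Pi.single j 1)) := by
  let φ : Vc (Fin N) →ₗ[ℂ] ℂ :=
    { toFun := fun w => F (A.symm w)
      map_add' := fun x y => by rw [map_add, ha]
      map_smul' := fun c x => by rw [map_smul, hs, RingHom.id_apply, smul_eq_mul] }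
  have h1 : v = ∑ j, v j • (Pi.single j 1 : Vc (Fin N)) := by
    funext k
    rw [Finset.sum_apply, sum_eq_single k]
    · simp
    · intro j _ hj
      rw [Pi.smul_apply, Pi.single_eq_of_ne (Ne.symm hj), smul_zero]
    · intro h; exact absurd (mem_univ k) h
  change φ v = ∑ j, v j * φ (Pi.single j 1)
  conv_lhs => rw [h1]
  rw [map_sum]
  exact sum_congr rfl fun j _ => by rw [map_smul, smul_eq_mul]

theorem fmainR_zero {N : ℕ} (A : Vc ι ≃ₗ[ℂ] Vc (Fin N)) {u : Vc ι} (h : fmainR A u = 0) : u = 0 := by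
  refine eq_zero_of_dot fun a => ?_
  rw [dot_comm]
  have h1 := fmain_exp A (fun z => dot u z) (fun x y => dot_add u x y) (fun c x => dot_smul c u x) (A a)
  rw [A.symm_apply_apply] at h1
  rw [h1]
  refine sum_eq_zero fun j _ => ?_
  have h2 : dot u (A.symm (Pi.single j 1)) = 0 := congrFun h j
  rw [h2, mul_zero]

theorem fmainR_inj {N : ℕ} (A : Vc ι ≃ₗ[ℂ] Vc (Fin N)) {u w : Vc ι} (h : fmainR A u = fmainR A w) : u = w := by
  rw [← sub_eq_zero]
  refine fmainR_zero A ?_
  rw [fmainR_sub, h, sub_self]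

/-- the data of the cubic form: gradient and second derivatives in terms of `B` -/
theorem fmain_form {B : Vc ι → Vc ι → Vc ι} {S : Vc ι → Vc ι} (hB : Bil B)
    (adj : ∀ x y z, dot (B x y) z = dot (B x z) y) {N : ℕ} (A : Vc ι ≃ₗ[ℂ] Vc (Fin N))
    (hA : ∀ x y, dot (A x) (A y) = dot (S x) y) :
    ∃ f : MvPolynomial (Fin N) ℂ, f.IsHomogeneous 3 ∧
      (∀ x i, eval (A x) (pderiv i f) = fmainR A (B x x) i) ∧
      (∀ x y i, ∑ k, A y k * eval (A x) (pderiv k (pderiv i f)) = fmainR A ((2 : ℂ) • B x y) i) ∧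
      (∀ x, A x = fmainR A (S x)) := by
  have s12 : ∀ x y z, dot (B x y) z = dot (B y x) z := fun x y z => by rw [hB.comm]
  obtain ⟨f, hf, h1, h2⟩ := exists_form
    (fun i j k => dot (B (A.symm (Pi.single i 1)) (A.symm (Pi.single j 1))) (A.symm (Pi.single k 1)))
    (fun i j k => s12 _ _ _) (fun i j k => adj _ _ _)
  refine ⟨f, hf, ?_, ?_, ?_⟩
  · intro x i
    rw [h1]
    have e1 : ∀ j, ∑ k, dot (B (A.symm (Pi.single i 1)) (A.symm (Pi.single j 1)))
        (A.symm (Pi.single k 1)) * A x j * A x k =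
        A x j * dot (B (A.symm (Pi.single i 1)) (A.symm (Pi.single j 1))) x := by
      intro j
      have := fmain_exp A (fun z => dot (B (A.symm (Pi.single i 1)) (A.symm (Pi.single j 1))) z)
        (fun x y => dot_add _ x y) (fun c x => dot_smul c _ x) (A x)
      simp only [A.symm_apply_apply] at this
      rw [this, mul_sum]
      exact sum_congr rfl fun k _ => by ring
    simp only [e1]
    have := fmain_exp A (fun z => dot (B (A.symm (Pi.single i 1)) z) x)
      (fun a b => by rw [hB.add', add_dot]) (fun c a => by rw [hB.smul', smul_dot]) (A x)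
    simp only [A.symm_apply_apply] at this
    rw [← this]
    unfold fmainR
    rw [s12, adj]
  · intro x y i
    have e0 : ∀ k, A y k * eval (A x) (pderiv k (pderiv i f)) =
        2 * (A y k * dot (B (A.symm (Pi.single i 1)) (A.symm (Pi.single k 1))) x) := by
      intro k
      rw [h2]
      have := fmain_exp A (fun z => dot (B (A.symm (Pi.single i 1)) (A.symm (Pi.single k 1))) z)
        (fun x y => dot_add _ x y) (fun c x => dot_smul c _ x) (A x)
      simp only [A.symm_apply_apply] at this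
      rw [this]
      have e1 : ∑ j, dot (B (A.symm (Pi.single i 1)) (A.symm (Pi.single k 1)))
          (A.symm (Pi.single j 1)) * A x j =
          ∑ j, A x j * dot (B (A.symm (Pi.single i 1)) (A.symm (Pi.single k 1)))
          (A.symm (Pi.single j 1)) := sum_congr rfl fun j _ => mul_comm _ _
      rw [e1]
      ring
    simp only [e0]
    rw [← mul_sum]
    have := fmain_exp A (fun z => dot (B (A.symm (Pi.single i 1)) z) x)
      (fun a b => by rw [hB.add', add_dot]) (fun c a => by rw [hB.smul', smul_dot]) (A y)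
    simp only [A.symm_apply_apply] at this
    rw [← this]
    unfold fmainR
    rw [smul_dot, s12, adj, s12]
  · intro x
    funext i
    unfold fmainR
    rw [← hA, A.apply_symm_apply, dot_single, mul_one]

end

theorem main_of_st {ι : Type} [Fintype ι] [DecidableEq ι] {B : Vc ι → Vc ι → Vc ι} {S : Vc ι → Vc ι}
    {i0 : ι} {I : ℕ} (h : St B S i0 I) {N : ℕ} (hN : Fintype.card ι = N) :
    ∃ f : MvPolynomial (Fin N) ℂ, f.IsHomogeneous 3 ∧ (eigenpoints f).Finite ∧
      (eigenpoints f).ncard = I ∧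
      ∃ P0 ∈ eigenpoints f, ∀ P ∈ eigenpoints f, P ≠ P0 → IsReducedAt f P.rep := by
  classical
  obtain ⟨A, hA⟩ := exists_sqrt h.lin h.symm h.inj hN
  obtain ⟨f, hf, hg, hH, hAR⟩ := fmain_form h.bil h.adj A hA
  have hRS : ∀ x, fmainR A (S x) = A x := fun x => (hAR x).symm
  -- eigenvectors
  have eig_of : ∀ (x : Vc ι) (l : ℂ), x ≠ 0 → B x x = l • S x → IsEigenvector f (A x) := by
    intro x l hx hl
    refine ⟨fun h0 => hx (by rwa [map_eq_zero_iff A A.injective] at h0), fun i j => ?_⟩
    rw [hg, hg, hl, fmainR_smul, hRS]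
    simp only [Pi.smul_apply, smul_eq_mul]
    ring
  have of_eig : ∀ x : Vc ι, IsEigenvector f (A x) → ∃ l : ℂ, B x x = l • S x := by
    intro x hx
    obtain ⟨c, hc⟩ := fmain_prop (w := fmainR A (B x x)) hx.1 (fun i j => by
      have := hx.2 i j
      rw [hg, hg] at this
      exact this)
    refine ⟨c, fmainR_inj A ?_⟩
    rw [hc, fmainR_smul, hRS]
  have hBs : ∀ (c : ℂ) x, B (c • x) (c • x) = (c * c) • B x x := by
    intro c x
    rw [h.bil.smul, h.bil.smul', smul_smul]
  have hSs : ∀ (c : ℂ) x, S (c • x) = c • S x := h.lin.smul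
  -- the vector of the degenerate point
  have he : (Pi.single i0 1 : Vc ι) ≠ 0 := by
    intro h0
    have := congrFun h0 i0
    rw [Pi.single_eq_same, Pi.zero_apply] at this
    exact one_ne_zero this
  have hsing : ∀ c : ℂ, (Pi.single i0 c : Vc ι) = c • (Pi.single i0 1 : Vc ι) := by
    intro c
    rw [← Pi.single_smul, smul_eq_mul, mul_one]
  have hne : ∀ {x : Vc ι}, x ≠ 0 → A x ≠ 0 := fun {x} hx h0 =>
    hx (by rwa [map_eq_zero_iff A A.injective] at h0)
  let m : Vc ι → ℙ ℂ (Fin N → ℂ) := fun x =>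
    if hx : x = 0 then Projectivization.mk ℂ (A (Pi.single i0 1)) (hne he) else Projectivization.mk ℂ (A x) (hne hx)
  have m0 : m 0 = Projectivization.mk ℂ (A (Pi.single i0 1)) (hne he) := dif_pos rfl
  have m1 : ∀ x (hx : x ≠ 0), m x = Projectivization.mk ℂ (A x) (hne hx) := fun x hx => dif_neg hx
  -- representatives
  have mrep : ∀ (x : Vc ι) (hx : x ≠ 0), ∃ a : ℂ, a ≠ 0 ∧ (Projectivization.mk ℂ (A x) (hne hx)).rep = A (a • x) := by
    intro x hx
    obtain ⟨a, ha⟩ := Projectivization.exists_smul_eq_mk_rep ℂ (A x) (hne hx)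
    refine ⟨a, a.ne_zero, ?_⟩
    rw [← ha, map_smul]
    rfl
  have hset : eigenpoints f = m '' {x | B x x = S x} := by
    ext P
    constructor
    · intro hP
      have hP' : IsEigenvector f P.rep := hP
      obtain ⟨x, hx⟩ : ∃ x, A x = P.rep := ⟨A.symm P.rep, A.apply_symm_apply _⟩
      rw [← hx] at hP'
      have hx0 : x ≠ 0 := by
        intro h0
        apply hP'.1
        rw [h0, map_zero]
      obtain ⟨l, hl⟩ := of_eig x hP'
      have hPm : P = Projectivization.mk ℂ (A x) (hne hx0) := by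
        conv_lhs => rw [← P.mk_rep]
        rw [Projectivization.mk_eq_mk_iff']
        exact ⟨1, by rw [one_smul, hx]⟩
      by_cases hl0 : l = 0
      · refine ⟨0, ?_, ?_⟩
        · show B 0 0 = S 0
          rw [h.bil.zero, h.lin.zero]
        · rw [m0, hPm, Projectivization.mk_eq_mk_iff']
          rw [hl0, zero_smul] at hl
          obtain ⟨c, hc⟩ := h.null x hl
          have hc0 : c ≠ 0 := by
            intro h0
            apply hx0
            rw [hc, h0, Pi.single_zero]
          refine ⟨c⁻¹, ?_⟩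
          rw [← map_smul, hc, hsing c, smul_smul, inv_mul_cancel₀ hc0, one_smul]
      · have hx' : l⁻¹ • x ≠ 0 := smul_ne_zero (inv_ne_zero hl0) hx0
        refine ⟨l⁻¹ • x, ?_, ?_⟩
        · show B (l⁻¹ • x) (l⁻¹ • x) = S (l⁻¹ • x)
          rw [hBs, hSs, hl, smul_smul]
          congr 1
          field_simp
        · rw [m1 _ hx', hPm, Projectivization.mk_eq_mk_iff']
          exact ⟨l⁻¹, by rw [map_smul]⟩
    · rintro ⟨x, hx, rfl⟩
      have hx' : B x x = S x := hx
      show IsEigenvector f (m x).rep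
      by_cases hx0 : x = 0
      · rw [hx0, m0]
        obtain ⟨a, ha, hr⟩ := mrep _ he
        rw [hr]
        refine eig_of _ 0 (smul_ne_zero ha he) ?_
        rw [hBs, h.null', smul_zero, zero_smul]
      · rw [m1 x hx0]
        obtain ⟨a, ha, hr⟩ := mrep x hx0
        rw [hr]
        refine eig_of _ a (smul_ne_zero ha hx0) ?_
        rw [hBs, hSs, hx', smul_smul]
  have hinj : Set.InjOn m {x | B x x = S x} := by
    have key : ∀ x y : Vc ι, B x x = S x → B y y = S y → x ≠ 0 → y ≠ 0 → m x = m y → x = y := by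
      intro x y hx hy hx0 hy0 hm
      rw [m1 x hx0, m1 y hy0, Projectivization.mk_eq_mk_iff'] at hm
      obtain ⟨a, ha⟩ := hm
      rw [← map_smul] at ha
      have hxy : x = a • y := (A.injective ha).symm
      have ha0 : a ≠ 0 := by
        intro h0
        apply hx0
        rw [hxy, h0, zero_smul]
      rw [hxy, hBs, hSs, hy] at hx
      have h1 : (a * a - a) • S y = 0 := by rw [sub_smul, hx, sub_self]
      have h2 : S y ≠ 0 := fun h0 => hy0 (h.inj y h0)
      rcases smul_eq_zero.1 h1 with h3 | h3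
      · have h4 : a * (a - 1) = 0 := by linear_combination h3
        rcases mul_eq_zero.1 h4 with h5 | h5
        · exact absurd h5 ha0
        · rw [hxy, sub_eq_zero.1 h5, one_smul]
      · exact absurd h3 h2
    have key0 : ∀ y : Vc ι, B y y = S y → y ≠ 0 → m 0 ≠ m y := by
      intro y hy hy0 hm
      rw [m0, m1 y hy0, Projectivization.mk_eq_mk_iff'] at hm
      obtain ⟨a, ha⟩ := hm
      rw [← map_smul] at ha
      have hey : (Pi.single i0 1 : Vc ι) = a • y := (A.injective ha).symm
      have ha0 : a ≠ 0 := by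
        intro h0
        apply he
        rw [hey, h0, zero_smul]
      have h1 := h.null'
      rw [hey, hBs, hy] at h1
      rcases smul_eq_zero.1 h1 with h3 | h3
      · exact ha0 (mul_self_eq_zero.1 h3)
      · exact hy0 (h.inj y h3)
    intro x hx y hy hm
    by_cases hx0 : x = 0
    · by_cases hy0 : y = 0
      · rw [hx0, hy0]
      · rw [hx0] at hm
        exact absurd hm (key0 y hy hy0)
    · by_cases hy0 : y = 0
      · rw [hy0] at hm
        exact absurd hm.symm (key0 x hx hx0)
      · exact key x y hx hy hx0 hy0 hm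
  refine ⟨f, hf, ?_, ?_, m 0, ?_, ?_⟩
  · rw [hset]
    exact h.fin.image m
  · rw [hset, hinj.ncard_image, h.card]
  · rw [hset]
    refine ⟨0, ?_, rfl⟩
    show B 0 0 = S 0
    rw [h.bil.zero, h.lin.zero]
  · intro P hP hP0
    rw [hset] at hP
    obtain ⟨x, hx, rfl⟩ := hP
    have hx' : B x x = S x := hx
    have hx0 : x ≠ 0 := by
      rintro rfl
      exact hP0 rfl
    rw [m1 x hx0]
    obtain ⟨a, ha, hr⟩ := mrep x hx0
    rw [hr]
    intro y hy
    obtain ⟨y', hy'⟩ : ∃ y', A y' = y := ⟨A.symm y, A.apply_symm_apply _⟩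
    have hv : A (a • x) ≠ 0 := hne (smul_ne_zero ha hx0)
    have hgv : ∀ i, eval (A (a • x)) (pderiv i f) = a * A (a • x) i := by
      intro i
      rw [hg, hBs, hx', fmainR_smul, hRS, map_smul]
      simp only [Pi.smul_apply, smul_eq_mul]
      ring
    have hHv : ∀ i, ∑ k, y k * eval (A (a • x)) (pderiv k (pderiv i f)) =
        fmainR A ((2 : ℂ) • B (a • x) y') i := by
      intro i
      rw [← hy', hH]
    obtain ⟨c, hc⟩ := fmain_prop (w := fmainR A ((2 : ℂ) • B (a • x) y') - a • y) hv (fun i j => by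
      have h1 := hy i j
      unfold dminor at h1
      rw [hgv, hgv, hHv, hHv] at h1
      simp only [Pi.sub_apply, Pi.smul_apply, smul_eq_mul]
      linear_combination h1)
    have h2 : (2 : ℂ) • B (a • x) y' - a • S y' = c • S (a • x) := by
      apply fmainR_inj A
      rw [fmainR_sub, fmainR_smul A a, fmainR_smul A c, hRS, hRS, hy']
      exact hc
    rw [h.bil.smul, hSs] at h2
    have h3 : (2 : ℂ) • B x y' - S y' = c • S x := by
      have h4 : a • ((2 : ℂ) • B x y' - S y') = a • (c • S x) := by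
        rw [smul_sub, smul_comm a (2 : ℂ), h2, smul_comm]
      exact smul_right_injective _ ha h4
    have h5 : y' - c • x = 0 := by
      refine h.nd x hx' _ ?_
      rw [h.bil.sub', h.bil.smul', hx', h.lin.sub, hSs, smul_sub, two_smul ℂ (c • S x)]
      rw [sub_eq_iff_eq_add] at h3
      rw [h3]
      abel
    refine ⟨c / a, ?_⟩
    rw [← hy', sub_eq_zero.1 h5, map_smul, map_smul, smul_smul, div_mul_cancel₀ _ ha]

theorem main_of_ach {N I : ℕ} (h : Ach N I) :
    ∃ f : MvPolynomial (Fin N) ℂ, f.IsHomogeneous 3 ∧ (eigenpoints f).Finite ∧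
      (eigenpoints f).ncard = I ∧
      ∃ P0 ∈ eigenpoints f, ∀ P ∈ eigenpoints f, P ≠ P0 → IsReducedAt f P.rep := by
  obtain ⟨ι, _, _, B, S, i0, hN, hS⟩ := h
  exact main_of_st hS hN

end EIG
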