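import Pool.Agent.helper62.EIG.Bez

set_option autoImplicit false
set_option linter.unusedSectionVars false

/-!
# EIG-EStep: the step `(k, I) → (k + 2, I)`

New form `P(x) + κ w x0² + 1/3 w³` on `ι ⊕ Bool` (`x = v ∘ inl`, `u = v (inr false)`, `w = v (inr true)`, `x0 = x i0`), independent of
`u`; quadratic form `S ⊕ (2 u w)`; new null vector `e_u = Pi.single (inr false) 1`. `κ` is transcendental over a countable
field `K` with `RatB K B` (`exists_field_rat`, `exists_indep` with `J = Unit`, `exists_der`: for the derivation `D` below `D κ = 1`).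

PROOF of `ach_E`: `St (EB B i0 κ) (ES S) (inr false) I`.
* `bil`, `lin`, `adj`, `symm`, `inj`: direct (`Fintype.sum_sum_type`, `Fintype.sum_bool`; the trilinear form is
  `dot (B x x') x'' + κ (w x'0 x''0 + w' x0 x''0 + w'' x0 x'0) + w w' w''`).
* `null`: `EB v v = 0` means `B x x + 2 κ w x0 e = 0` (`e = Pi.single i0 1`) and `κ x0² + w² = 0`. Claim `x = 0`, `w = 0`. If `w = 0` then `x0 = 0` and
  `B x x = 0`, so `x = Pi.single i0 c`, `c = x0 = 0`. Let `w ≠ 0` (so `x0 ≠ 0`). Apply `D` (`D κ = 1`, `X := D x0`, `W := D w`, `Dx` the vector):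
  (1) `2 B x (Dx) + 2 (w x0 + κ W x0 + κ w X) e = 0`, (2) `x0² + 2 κ x0 X + 2 w W = 0`. `dot (1) x`, with
  `dot (B x (Dx)) x = dot (B x x) (Dx) = - 2 κ w x0 X`, gives `- κ w x0 X + w x0² + κ x0² W = 0`; with `κ x0² = - w²` and division by `w`:
  `- κ x0 X + x0² - w W = 0`. With (2): `3/2 x0² = 0`: contradiction.
  So `v = Pi.single (inr false) (v (inr false))`. `null'`: direct.
* solutions: `EB v v = ES v` means `B x x + 2 κ w x0 e = S x`, `0 = w` (component `inr false`), `κ x0² + w² = u` (component `inr true`). So the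
  solutions are the `(x, u = κ x0², w = 0)` with `B x x = S x`: a bijection with the old ones.
* `nd`: `2 EB v v' = ES v'` at such a solution, `v' = (y, u', w')`: `2 B x y + 2 κ w' x0 e = S y`, `0 = w'`, `2 κ x0 y0 = u'`. So `w' = 0`, `y = 0`, `u' = 0`.
-/

namespace EIG

open Finset

variable {ι : Type} [Fintype ι] [DecidableEq ι]

/-- polarised gradient of the new cubic form -/
def EB (B : Vc ι → Vc ι → Vc ι) (i0 : ι) (κ : ℂ) (v v' : Vc (ι ⊕ Bool)) : Vc (ι ⊕ Bool)
  | Sum.inl i => B (fun i => v (Sum.inl i)) (fun i => v' (Sum.inl i)) i +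
      κ * (v (Sum.inr true) * v' (Sum.inl i0) + v' (Sum.inr true) * v (Sum.inl i0)) *
        (Pi.single i0 (1 : ℂ) : Vc ι) i
  | Sum.inr false => 0
  | Sum.inr true => κ * v (Sum.inl i0) * v' (Sum.inl i0) + v (Sum.inr true) * v' (Sum.inr true)

/-- new quadratic form -/
def ES (S : Vc ι → Vc ι) (v : Vc (ι ⊕ Bool)) : Vc (ι ⊕ Bool)
  | Sum.inl i => S (fun i => v (Sum.inl i)) i
  | Sum.inr false => v (Sum.inr true)
  | Sum.inr true => v (Sum.inr false)

/-- first block of coordinates -/
def EStep_r (v : Vc (ι ⊕ Bool)) : Vc ι := fun i => v (Sum.inl i)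

theorem EStep_dot (v v' : Vc (ι ⊕ Bool)) :
    dot v v' = dot (EStep_r v) (EStep_r v') + v (Sum.inr true) * v' (Sum.inr true) +
      v (Sum.inr false) * v' (Sum.inr false) := by
  simp only [dot, EStep_r, Fintype.sum_sum_type, Fintype.sum_bool]
  ring

theorem EStep_r_EB (B : Vc ι → Vc ι → Vc ι) (i0 : ι) (κ : ℂ) (v v' : Vc (ι ⊕ Bool)) :
    EStep_r (EB B i0 κ v v') = B (EStep_r v) (EStep_r v') +
      (κ * (v (Sum.inr true) * v' (Sum.inl i0) + v' (Sum.inr true) * v (Sum.inl i0))) •
        (Pi.single i0 (1 : ℂ) : Vc ι) := by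
  funext i
  rfl

theorem EStep_dot_EB (B : Vc ι → Vc ι → Vc ι) (i0 : ι) (κ : ℂ) (v v' v'' : Vc (ι ⊕ Bool)) :
    dot (EB B i0 κ v v') v'' = dot (B (EStep_r v) (EStep_r v')) (EStep_r v'') +
      κ * (v (Sum.inr true) * v' (Sum.inl i0) + v' (Sum.inr true) * v (Sum.inl i0)) * v'' (Sum.inl i0) +
      (κ * v (Sum.inl i0) * v' (Sum.inl i0) + v (Sum.inr true) * v' (Sum.inr true)) *
        v'' (Sum.inr true) := by
  rw [EStep_dot, EStep_r_EB, add_dot, smul_dot, single_dot]
  simp only [EB, EStep_r]
  ring

theorem EStep_ext {v v' : Vc (ι ⊕ Bool)} (h1 : EStep_r v = EStep_r v')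
    (h2 : v (Sum.inr false) = v' (Sum.inr false)) (h3 : v (Sum.inr true) = v' (Sum.inr true)) : v = v' := by
  funext j
  rcases j with i | b
  · exact congrFun h1 i
  · cases b
    · exact h2
    · exact h3

theorem EStep_null {B : Vc ι → Vc ι → Vc ι} {S : Vc ι → Vc ι} {i0 : ι} {I : ℕ} {K : Subfield ℂ}
    (h : St B S i0 I) (hB : RatB K B) {κ : ℂ} (D : Derivation K ℂ ℂ) (hD : D κ = 1)
    {v : Vc (ι ⊕ Bool)} (hv : EB B i0 κ v v = 0) : EStep_r v = 0 ∧ v (Sum.inr true) = 0 := by
  set x : Vc ι := EStep_r v with hx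
  set w : ℂ := v (Sum.inr true) with hw
  have hx0 : v (Sum.inl i0) = x i0 := rfl
  have hκ : κ ≠ 0 := by
    rintro rfl
    rw [map_zero] at hD
    exact zero_ne_one hD
  have h1 : B x x + (κ * (w * x i0 + w * x i0)) • (Pi.single i0 (1 : ℂ) : Vc ι) = 0 := by
    have := congrArg EStep_r hv
    rw [EStep_r_EB] at this
    rw [← hx, ← hw, hx0] at this
    rw [this]
    rfl
  have h2 : κ * x i0 * x i0 + w * w = 0 := by
    have := congrFun hv (Sum.inr true)
    exact this
  have hw0 : w = 0 := by
    by_contra hwn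
    have hx0n : x i0 ≠ 0 := by
      intro h0
      rw [h0] at h2
      apply hwn
      have : w * w = 0 := by linear_combination h2
      exact mul_self_eq_zero.mp this
    have ha : ∀ y, dot (B x x) y = -(2 * κ * w * x i0 * y i0) := by
      intro y
      have := congrArg (fun z => dot z y) h1
      simp only [add_dot, smul_dot, single_dot, zero_dot] at this
      linear_combination this
    set Dx : Vc ι := fun i => D (x i) with hDx
    have hb : D (dot (B x x) x) = 3 * dot (B x x) Dx := by
      rw [der_dot, der_bil D h.bil hB, add_dot, ← hDx, h.bil.comm Dx x, h.adj x Dx x]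
      ring
    have hc := ha x
    have hd := ha Dx
    have he : D (dot (B x x) x) = -(2 * (w * x i0 * x i0 + κ * D w * x i0 * x i0 +
        2 * κ * w * x i0 * D (x i0))) := by
      rw [hc, map_neg]
      have e2 : D (2 : ℂ) = 0 := by
        have := D.map_natCast 2
        simpa using this
      simp only [Derivation.leibniz, smul_eq_mul, hD, e2]
      ring
    have hf : D (κ * x i0 * x i0 + w * w) = 0 := by rw [h2, map_zero]
    simp only [map_add, Derivation.leibniz, smul_eq_mul, hD] at hf
    have hg : w * x i0 * x i0 + κ * D w * x i0 * x i0 = κ * w * x i0 * D (x i0) := by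
      have e3 : D (dot (B x x) x) = 3 * (-(2 * κ * w * x i0 * Dx i0)) := by rw [hb, hd]
      have e4 : Dx i0 = D (x i0) := rfl
      rw [e4] at e3
      have e5 := he.symm.trans e3
      linear_combination (-1 / 2 : ℂ) * e5
    have hh : x i0 * x i0 - w * D w = κ * x i0 * D (x i0) := by
      have : w * (x i0 * x i0 - w * D w - κ * x i0 * D (x i0)) = 0 := by
        linear_combination hg - D w * h2
      rcases mul_eq_zero.mp this with h0 | h0
      · exact absurd h0 hwn
      · linear_combination h0
    have hi : 3 * (x i0 * x i0) = 0 := by linear_combination hf + 2 * hh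
    apply hx0n
    have : x i0 * x i0 = 0 := by linear_combination (1 / 3 : ℂ) * hi
    exact mul_self_eq_zero.mp this
  refine ⟨?_, hw0⟩
  have hx00 : x i0 = 0 := by
    rw [hw0] at h2
    have : κ * (x i0 * x i0) = 0 := by linear_combination h2
    exact mul_self_eq_zero.mp ((mul_eq_zero.mp this).resolve_left hκ)
  have hbx : B x x = 0 := by
    rw [hw0] at h1
    simpa using h1
  obtain ⟨c, hc⟩ := h.null x hbx
  have : c = 0 := by
    rw [hc, Pi.single_eq_same] at hx00
    exact hx00
  rw [hc, this, Pi.single_zero]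

/-- the new solution above an old one -/
def EStep_lift (i0 : ι) (κ : ℂ) (x : Vc ι) : Vc (ι ⊕ Bool)
  | Sum.inl i => x i
  | Sum.inr false => κ * x i0 * x i0
  | Sum.inr true => 0

theorem EStep_lift_inj (i0 : ι) (κ : ℂ) : Function.Injective (EStep_lift (ι := ι) i0 κ) := by
  intro x y h
  funext i
  exact congrFun h (Sum.inl i)

theorem EStep_sol {B : Vc ι → Vc ι → Vc ι} {S : Vc ι → Vc ι} (i0 : ι) (κ : ℂ) :
    {v | EB B i0 κ v v = ES S v} = EStep_lift i0 κ '' {x | B x x = S x} := by
  ext v
  simp only [Set.mem_setOf_eq, Set.mem_image]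
  constructor
  · intro hv
    have h0 : v (Sum.inr true) = 0 := by
      have := congrFun hv (Sum.inr false)
      simpa [EB, ES] using this.symm
    have h1 : κ * v (Sum.inl i0) * v (Sum.inl i0) = v (Sum.inr false) := by
      have := congrFun hv (Sum.inr true)
      simpa [EB, ES, h0] using this
    refine ⟨EStep_r v, ?_, ?_⟩
    · funext i
      have := congrFun hv (Sum.inl i)
      simp only [EB, ES, h0, zero_mul, add_zero, mul_zero] at this
      exact this
    · funext j
      rcases j with i | b
      · rfl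
      · cases b
        · exact h1
        · exact h0.symm
  · rintro ⟨x, hx, rfl⟩
    funext j
    rcases j with i | b
    · have := congrFun hx i
      simpa [EB, ES, EStep_lift] using this
    · cases b <;> simp [EB, ES, EStep_lift]

theorem EStep_st {B : Vc ι → Vc ι → Vc ι} {S : Vc ι → Vc ι} {i0 : ι} {I : ℕ} {K : Subfield ℂ}
    (h : St B S i0 I) (hB : RatB K B) {κ : ℂ} (D : Derivation K ℂ ℂ) (hD : D κ = 1) :
    St (EB B i0 κ) (ES S) (Sum.inr false) I where
  bil := by
    refine ⟨fun x y z => ?_, fun c x y => ?_, fun x y => ?_⟩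
    · apply EStep_ext
      · rw [EStep_r_EB]
        change _ = EStep_r (EB B i0 κ x z) + EStep_r (EB B i0 κ y z)
        rw [EStep_r_EB, EStep_r_EB]
        change B (EStep_r x + EStep_r y) (EStep_r z) + _ = _
        rw [h.bil.add]
        funext i
        simp only [Pi.add_apply, Pi.smul_apply, smul_eq_mul]
        ring
      · simp [EB]
      · simp only [EB, Pi.add_apply]
        ring
    · apply EStep_ext
      · rw [EStep_r_EB]
        change _ = c • EStep_r (EB B i0 κ x y)
        rw [EStep_r_EB]
        change B (c • EStep_r x) (EStep_r y) + _ = _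
        rw [h.bil.smul]
        funext i
        simp only [Pi.add_apply, Pi.smul_apply, smul_eq_mul]
        ring
      · simp [EB]
      · simp only [EB, Pi.smul_apply, smul_eq_mul]
        ring
    · apply EStep_ext
      · rw [EStep_r_EB, EStep_r_EB, h.bil.comm]
        congr 2
        ring
      · rfl
      · simp only [EB]
        ring
  adj x y z := by
    rw [EStep_dot_EB, EStep_dot_EB, h.adj]
    ring
  lin := by
    refine ⟨fun x y => ?_, fun c x => ?_⟩
    · funext j
      rcases j with i | b
      · exact congrFun (h.lin.add (EStep_r x) (EStep_r y)) i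
      · cases b <;> rfl
    · funext j
      rcases j with i | b
      · exact congrFun (h.lin.smul c (EStep_r x)) i
      · cases b <;> rfl
  symm x y := by
    rw [EStep_dot, EStep_dot]
    have := h.symm (EStep_r x) (EStep_r y)
    change dot (S (EStep_r x)) (EStep_r y) + x (Sum.inr false) * y (Sum.inr true) +
      x (Sum.inr true) * y (Sum.inr false) = dot (S (EStep_r y)) (EStep_r x) +
      y (Sum.inr false) * x (Sum.inr true) + y (Sum.inr true) * x (Sum.inr false)
    rw [this]
    ring
  inj x hx := by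
    apply EStep_ext
    · exact h.inj _ (congrArg EStep_r hx)
    · exact congrFun hx (Sum.inr true)
    · exact congrFun hx (Sum.inr false)
  null v hv := by
    obtain ⟨h1, h2⟩ := EStep_null h hB D hD hv
    refine ⟨v (Sum.inr false), ?_⟩
    funext j
    rcases j with i | b
    · rw [Pi.single_eq_of_ne (by simp)]
      exact congrFun h1 i
    · cases b
      · rw [Pi.single_eq_same]
      · rw [Pi.single_eq_of_ne (by simp)]
        exact h2
  null' := by
    have e : EStep_r (Pi.single (Sum.inr false) (1 : ℂ) : Vc (ι ⊕ Bool)) = 0 := by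
      funext i
      simp [EStep_r]
    apply EStep_ext
    · rw [EStep_r_EB, e, h.bil.zero]
      simp
      rfl
    · rfl
    · simp [EB]
  fin := by
    rw [EStep_sol]
    exact h.fin.image _
  card := by
    rw [EStep_sol, Set.ncard_image_of_injective _ (EStep_lift_inj i0 κ), h.card]
  nd v hv v' hv' := by
    have hv1 : v ∈ {v | EB B i0 κ v v = ES S v} := hv
    rw [EStep_sol] at hv1
    obtain ⟨x, hx, rfl⟩ := hv1
    have h0 : v' (Sum.inr true) = 0 := by
      have := congrFun hv' (Sum.inr false)
      simpa [EB, ES] using this.symm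
    have h1 : EStep_r v' = 0 := by
      apply h.nd x hx
      funext i
      have := congrFun hv' (Sum.inl i)
      simp only [EB, ES, EStep_lift, h0, zero_mul, add_zero, mul_zero, Pi.smul_apply] at this
      exact this
    apply EStep_ext
    · exact h1
    · have := congrFun hv' (Sum.inr true)
      have h2 : v' (Sum.inl i0) = 0 := congrFun h1 i0
      simp only [EB, ES, EStep_lift, h0, h2, Pi.smul_apply, mul_zero, add_zero, smul_zero] at this
      exact this.symm
    · exact h0

theorem ach_E {k I : ℕ} (h : Ach k I) : Ach (k + 2) I := by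
  obtain ⟨ι, hF, hDec, B, S, i0, hk, hSt⟩ := h
  obtain ⟨K, hK, -, hB, -⟩ := exists_field_rat hSt.bil hSt.lin ∅ Set.countable_empty
  obtain ⟨p, hp⟩ := exists_indep K hK Unit
  obtain ⟨D, hD⟩ := exists_der K p hp (fun _ => 1)
  exact ⟨ι ⊕ Bool, inferInstance, inferInstance, EB B i0 (p ()), ES S, Sum.inr false,
    by rw [Fintype.card_sum, hk, Fintype.card_bool], EStep_st hSt hB D (hD ())⟩

end EIG
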