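import Pool.Agent.helper62.EIG.Gen

set_option autoImplicit false
set_option linter.unusedSectionVars false

/-!
# EIG-Bez: a quadratic map without zeros at infinity and with nondegenerate zeros has `2^k` zeros

PROOF.
* `countable_bad`: let `K1` be a countable subfield containing `K` and all `p j` (`exists_field`). If `t ≠ 0` is not
  algebraic over `K1`, then the line is good at `t` by `exists_der_option` and `good_of_der`. So the bad `t`
  are `≠ 0` by `h0` (at `t = 0` the line is `(B0, L0, c0)`: `simp [Bt, Lt, ct]`) and algebraic over `K1`: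
  `Algebraic.countable`.
* `ncard_eq_generic`: `n t := ncard (Zer ..t)`; the set `𝒢` of the good `t` is the complement of a countable set of
  `ℂ`, so it is path connected (`Set.Countable.isPathConnected_compl_of_one_lt_rank`, rank of `ℂ` over `ℝ` is `2`),
  hence preconnected; `n` is locally constant on `𝒢` (`good_eventually`), `0 ∈ 𝒢` (`h0`), `1 ∈ 𝒢` (`good_of_der` with
  `t = 1`, `D 1 = 0`), so `n 0 = n 1` (`IsPreconnected.constant` for a continuous-on map to the discrete space `ℕ`).
  At `t = 1` the line is `(Bp p, Lp p, cp p)`.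
* `bezout`: finiteness: `good_eventually` with `B1 = B0`... (or with any `B1`) at `t0 = 0`. For the number let `K` be a
  countable field such that `B, L, c` are rational over `K` (`exists_field` applied to the finite set of all
  `B e_j e_k i`, `L e_j i`, `c i`, using the expansions `Bil.expand`, `Lin.expand`: lemma `exists_field_rat`), `p` generic over
  `K`. By `ncard_eq_generic` applied to `(B, L, c)` and to `(x_i y_i, 0, -1)` both numbers of zeros are equal to the
  number for `p`. The second system is `x_i ^ 2 = 1` for all `i`: `2 ^ card ι` zeros (`Fintype.card_pi`/`Fintype.card_fun`: bijection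
  with `ι → Bool`), all nondegenerate (`2 x_i y_i = 0` and `x_i = ± 1`), no zeros at infinity.
-/

namespace EIG

open Finset Topology Filter

variable {ι : Type} [Fintype ι]

theorem exists_field_rat {B : Vc ι → Vc ι → Vc ι} {L : Vc ι → Vc ι} (hB : Bil B) (hL : Lin L)
    (s : Set ℂ) (hs : s.Countable) :
    ∃ K : Subfield ℂ, Countable K ∧ s ⊆ K ∧ RatB K B ∧ RatL K L := by
  classical
  let s1 : Set ℂ :=
    (s ∪ Set.range (fun q : ι × ι × ι => B (Pi.single q.1 1) (Pi.single q.2.1 1) q.2.2)) ∪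
      Set.range (fun q : ι × ι => L (Pi.single q.1 1) q.2)
  have hs1 : s1.Countable :=
    (hs.union (Set.finite_range _).countable).union (Set.finite_range _).countable
  obtain ⟨K, hK, hs2⟩ := exists_field s1 hs1
  refine ⟨K, hK, fun x hx => hs2 (Or.inl (Or.inl hx)), ?_, ?_⟩
  · intro x y hx hy i
    rw [hB.expand]
    exact sum_mem fun j _ => sum_mem fun k _ =>
      mul_mem (mul_mem (hx j) (hy k)) (hs2 (Or.inl (Or.inr ⟨(j, k, i), rfl⟩)))
  · intro x hx i
    rw [hL.expand]
    exact sum_mem fun j _ => mul_mem (hx j) (hs2 (Or.inr ⟨(j, i), rfl⟩))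

theorem countable_bad {K : Subfield ℂ} (hK : Countable K) {B0 : Vc ι → Vc ι → Vc ι} {L0 : Vc ι → Vc ι}
    {c0 : Vc ι} (hB0 : Bil B0) (hL0 : Lin L0) (hBK : RatB K B0) (hLK : RatL K L0) (hcK : Rat K c0)
    (h0 : Good B0 L0 c0) (p : JJ ι → ℂ) (hp : AlgebraicIndependent K p) :
    {t : ℂ | ¬ Good (Bt B0 (Bp p) t) (Lt L0 (Lp p) t) (ct c0 (cp p) t)}.Countable := by
  obtain ⟨K1, hK1, hs1⟩ := exists_field ((K : Set ℂ) ∪ Set.range p)
    ((Set.countable_coe_iff.mp hK).union (Set.finite_range p).countable)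
  have hle : K ≤ K1 := fun x hx => hs1 (Or.inl hx)
  have hp1 : ∀ j, p j ∈ K1 := fun j => hs1 (Or.inr ⟨j, rfl⟩)
  refine (Algebraic.countable K1 ℂ).mono ?_
  intro t ht
  by_contra hal
  have hal' : ¬ IsAlgebraic K1 t := hal
  have ht0 : t ≠ 0 := by
    rintro rfl
    exact hal' isAlgebraic_zero
  exact ht (good_of_der hB0 hL0 hBK hLK hcK p t ht0
    (fun a => exists_der_option K K1 hle p hp hp1 t hal' a))

theorem bez_Bt_zero (B0 B1 : Vc ι → Vc ι → Vc ι) : Bt B0 B1 0 = B0 := by
  funext x y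
  simp [Bt]

theorem bez_Lt_zero (L0 L1 : Vc ι → Vc ι) : Lt L0 L1 0 = L0 := by
  funext x
  simp [Lt]

theorem bez_ct_zero (c0 c1 : Vc ι) : ct c0 c1 0 = c0 := by
  simp [ct]

theorem bez_Bt_one (B0 B1 : Vc ι → Vc ι → Vc ι) : Bt B0 B1 1 = B1 := by
  funext x y
  simp [Bt]

theorem bez_Lt_one (L0 L1 : Vc ι → Vc ι) : Lt L0 L1 1 = L1 := by
  funext x
  simp [Lt]

theorem bez_ct_one (c0 c1 : Vc ι) : ct c0 c1 1 = c1 := by
  simp [ct]

theorem ncard_eq_generic {K : Subfield ℂ} (hK : Countable K) {B0 : Vc ι → Vc ι → Vc ι} {L0 : Vc ι → Vc ι}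
    {c0 : Vc ι} (hB0 : Bil B0) (hL0 : Lin L0) (hBK : RatB K B0) (hLK : RatL K L0) (hcK : Rat K c0)
    (h0 : Good B0 L0 c0) (p : JJ ι → ℂ) (hp : AlgebraicIndependent K p) :
    (Zer B0 L0 c0).ncard = (Zer (Bp p) (Lp p) (cp p)).ncard := by
  have hbad := countable_bad hK hB0 hL0 hBK hLK hcK h0 p hp
  have hrank : 1 < Module.rank ℝ ℂ := by
    rw [Complex.rank_real_complex]
    exact_mod_cast Nat.one_lt_two
  have hpc := (hbad.isPathConnected_compl_of_one_lt_rank hrank).isConnected.isPreconnected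
  let n : ℂ → ℕ := fun t => (Zer (Bt B0 (Bp p) t) (Lt L0 (Lp p) t) (ct c0 (cp p) t)).ncard
  have hn : ContinuousOn n
      {t : ℂ | ¬ Good (Bt B0 (Bp p) t) (Lt L0 (Lp p) t) (ct c0 (cp p) t)}ᶜ := by
    intro t0 ht0
    have hg : Good (Bt B0 (Bp p) t0) (Lt L0 (Lp p) t0) (ct c0 (cp p) t0) := by
      by_contra hc
      exact ht0 hc
    have hev := good_eventually hB0 (bil_Bp p) hL0 (lin_Lp p) t0 hg
    have hat : ContinuousAt n t0 :=
      tendsto_nhds_of_eventually_eq (hev.mono fun t ht => ht.2)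
    exact hat.continuousWithinAt
  have m0 : (0 : ℂ) ∈ {t : ℂ | ¬ Good (Bt B0 (Bp p) t) (Lt L0 (Lp p) t) (ct c0 (cp p) t)}ᶜ := by
    intro hc
    apply hc
    rw [bez_Bt_zero, bez_Lt_zero, bez_ct_zero]
    exact h0
  have m1 : (1 : ℂ) ∈ {t : ℂ | ¬ Good (Bt B0 (Bp p) t) (Lt L0 (Lp p) t) (ct c0 (cp p) t)}ᶜ := by
    intro hc
    apply hc
    refine good_of_der hB0 hL0 hBK hLK hcK p 1 one_ne_zero fun a => ?_
    obtain ⟨D, hD⟩ := exists_der K p hp a
    exact ⟨D, D.map_one_eq_zero, hD⟩
  have key := hpc.constant hn m0 m1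
  have e0 : n 0 = (Zer B0 L0 c0).ncard := by
    simp only [n]
    rw [bez_Bt_zero, bez_Lt_zero, bez_ct_zero]
  have e1 : n 1 = (Zer (Bp p) (Lp p) (cp p)).ncard := by
    simp only [n]
    rw [bez_Bt_one, bez_Lt_one, bez_ct_one]
  rw [← e0, ← e1, key]

/-- the coordinatewise product -/
def bezB (x y : Vc ι) : Vc ι := fun i => x i * y i

theorem bez_bil : Bil (bezB (ι := ι)) where
  add x y z := by
    funext i
    simp only [bezB, Pi.add_apply]
    ring
  smul c x y := by
    funext i
    simp only [bezB, Pi.smul_apply, smul_eq_mul]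
    ring
  comm x y := by
    funext i
    simp only [bezB]
    ring

theorem bez_lin : Lin (fun _ : Vc ι => (0 : Vc ι)) where
  add x y := by simp
  smul c x := by simp

theorem bez_mem (x : Vc ι) : x ∈ Zer (bezB (ι := ι)) (fun _ => 0) (fun _ => -1) ↔
    ∀ i, x i = 1 ∨ x i = -1 := by
  constructor
  · intro h i
    have h1 := congrFun (show bezB x x + 0 + (fun _ => -1) = (0 : Vc ι) from h) i
    simp only [bezB, Pi.add_apply, Pi.zero_apply, add_zero] at h1
    have h2 : (x i - 1) * (x i + 1) = 0 := by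
      rw [← h1]
      ring
    rcases mul_eq_zero.mp h2 with h3 | h3
    · exact Or.inl (sub_eq_zero.mp h3)
    · exact Or.inr (eq_neg_of_add_eq_zero_left h3)
  · intro h
    change bezB x x + 0 + (fun _ => -1) = (0 : Vc ι)
    funext i
    simp only [bezB, Pi.add_apply, Pi.zero_apply, add_zero]
    rcases h i with h1 | h1 <;> rw [h1] <;> ring

theorem bez_good : Good (bezB (ι := ι)) (fun _ => 0) (fun _ => -1) where
  inf x h := by
    funext i
    have h1 := congrFun h i
    simp only [bezB, Pi.zero_apply] at h1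
    exact mul_self_eq_zero.mp h1
  nd x h y hy := by
    funext i
    have hx := (bez_mem x).mp h i
    have h1 := congrFun hy i
    simp only [bezB, Pi.add_apply, Pi.smul_apply, smul_eq_mul, Pi.zero_apply, add_zero] at h1
    have hx0 : x i ≠ 0 := by
      rcases hx with h2 | h2 <;> rw [h2]
      · exact one_ne_zero
      · exact neg_ne_zero.mpr one_ne_zero
    rcases mul_eq_zero.mp h1 with h3 | h3
    · exact absurd h3 two_ne_zero
    · rcases mul_eq_zero.mp h3 with h4 | h4
      · exact absurd h4 hx0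
      · exact h4

theorem bez_card : (Zer (bezB (ι := ι)) (fun _ => 0) (fun _ => -1)).ncard = 2 ^ Fintype.card ι := by
  classical
  have e : Zer (bezB (ι := ι)) (fun _ => 0) (fun _ => -1) =
      ((Fintype.piFinset (fun _ : ι => ({1, -1} : Finset ℂ)) : Finset (ι → ℂ)) : Set (ι → ℂ)) := by
    ext x
    rw [bez_mem]
    simp
  rw [e, Set.ncard_coe_finset, Fintype.card_piFinset]
  have h2 : ({1, -1} : Finset ℂ).card = 2 := by
    refine Finset.card_pair ?_
    norm_num
  rw [Finset.prod_const, h2, Finset.card_univ]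

theorem bezout {B : Vc ι → Vc ι → Vc ι} {L : Vc ι → Vc ι} {c : Vc ι} (hB : Bil B) (hL : Lin L)
    (h : Good B L c) : (Zer B L c).Finite ∧ (Zer B L c).ncard = 2 ^ Fintype.card ι := by
  constructor
  · have h' : Good (Bt B B 0) (Lt L L 0) (ct c c 0) := by
      rw [bez_Bt_zero, bez_Lt_zero, bez_ct_zero]
      exact h
    have h1 := (good_eventually hB hB hL hL 0 h').self_of_nhds.1
    rwa [bez_Bt_zero, bez_Lt_zero, bez_ct_zero] at h1
  · obtain ⟨K, hK, hs, hBK, hLK⟩ := exists_field_rat hB hL (Set.range c) (Set.finite_range c).countable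
    obtain ⟨p, hp⟩ := exists_indep K hK (JJ ι)
    have hcK : Rat K c := fun i => hs ⟨i, rfl⟩
    rw [ncard_eq_generic hK hB hL hBK hLK hcK h p hp]
    rw [← ncard_eq_generic hK bez_bil bez_lin (fun x y hx hy i => mul_mem (hx i) (hy i))
      (fun x _ i => K.zero_mem) (fun i => neg_mem K.one_mem) bez_good p hp]
    exact bez_card

end EIG
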