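import Pool.Agent.helper62.EIG.HGen2
import Pool.Agent.helper62.EIG.Bez

set_option autoImplicit false
set_option linter.unusedSectionVars false

/-!
# EIG-HStep: the step `(k, I) → (k + 2, 2^k + I)` for `k ≥ 2`

New form `P(x) + w u b(x) + κ w x0² + w² u` on `ι ⊕ Bool` (`x = v ∘ inl`, `u = v (inr false)`, `w = v (inr true)`, `x0 = x i0`,
`κ = p i0`, `b = hb p i0`, `b(x) = dot b x`), quadratic form `S ⊕ (2 u w)`; new null vector `Pi.single (inr false) 1`.

PROOF of `ach_H`. `K` := countable field with `RatB K B`, `RatL K S` containing all coordinates of the solutions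
(`exists_field_rat`), `p` algebraically independent over `K` (`exists_indep`), `exists_der` gives `hder`; `2 ≤ card ι` gives an
index `i ≠ i0`. Then `St (HBB B p i0) (HSS S) (inr false) (2^k + I)`:
* `bil`, `lin`, `adj`, `symm`, `inj`: direct (`Fintype.sum_sum_type`, `Fintype.sum_bool`; the trilinear form is `dot (B x x') x''
  + 1/2 ∑ (w u' b(x'') over the 6 permutations) + κ (w x'0 x''0 + w' x0 x''0 + w'' x0 x'0) + (w w' u'' + w u' w'' + w' w'' u)`).
* `null`: `HBB v v = 0`: `B x x + w u b + 2 κ w x0 e = 0`, `w b(x) + w² = 0`, `u b(x) + κ x0² + 2 w u = 0`. If `w = 0`: `B x x = 0`, `x = Pi.single i0 c`,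
  `b(x) = 0` (`b i0 = 0`), so `κ c² = 0`, `c = 0` (`κ ≠ 0`: `D κ = 1` for some `D`), `x = 0`. If `w ≠ 0`: `w = - b(x)`, third equation: `w u + κ x0² = 0`, so the first
  one is `B x x - κ x0² b - 2 κ b(x) x0 e = 0`, i.e. `HB x x = 0`, `x = 0` (`inf_H`), `w = 0`: contradiction.
* solutions: `HBB v v = HSS v`: `B x x + w u b + 2 κ w x0 e = S x`, `w b(x) + w² = w`, `u b(x) + κ x0² + 2 w u = u`. If `w = 0`: `B x x = S x` and
  `u (1 - b(x)) = κ x0²`, `b(x) ≠ 1` (`sol_ne_one_H`), so `u = κ x0² / (1 - b(x))`. If `w ≠ 0`: `w = 1 - b(x)`, third equation: `w u = - κ x0²`, so the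
  first one is `HB x x + HL x = 0`, and conversely every such `x` has `b(x) ≠ 1` (`zer_ne_one_H`) and gives one solution
  `(x, u = - κ x0² / (1 - b(x)), w = 1 - b(x))`. So the solution set is the disjoint union (`w = 0`, `w ≠ 0`) of injective images of
  `{x | B x x = S x}` (`I` elements) and `Zer (HB B p i0) (HL S p i0) 0` (`2^k` elements by `bezout`, `good_H`).
* `nd`: `2 HBB v v' = HSS v'`, `v' = (y, u', w')`: (1) `2 B x y + (w u' + w' u) b + 2 κ (w y0 + w' x0) e = S y`,
  (2) `w b(y) + w' b(x) + 2 w w' = w'`, (3) `u b(y) + u' b(x) + 2 κ x0 y0 + 2 (w u' + w' u) = u'`. If `w = 0`: (2) `w' (b(x) - 1) = 0`, `w' = 0`; (1)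
  `2 B x y = S y`, `y = 0`; (3) `u' (b(x) - 1) = 0`, `u' = 0`. If `w = 1 - b(x) ≠ 0`: (2) is `w b(y) + w w' = 0`, `w' = - b(y)`; (3) is
  `w u' = u b(y) - 2 κ x0 y0`; so `w u' + w' u = - 2 κ x0 y0`, and (1) is `2 HB x y + HL y = 0`, so `y = 0` (`nd_H`), `w' = 0`, `w u' = 0`, `u' = 0`.
-/

namespace EIG

open Finset

variable {ι : Type} [Fintype ι] [DecidableEq ι]

/-- polarised gradient of the new cubic form -/
noncomputable def HBB (B : Vc ι → Vc ι → Vc ι) (p : Vc ι) (i0 : ι) (v v' : Vc (ι ⊕ Bool)) : Vc (ι ⊕ Bool)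
  | Sum.inl i => B (fun i => v (Sum.inl i)) (fun i => v' (Sum.inl i)) i +
      1 / 2 * (v (Sum.inr true) * v' (Sum.inr false) + v' (Sum.inr true) * v (Sum.inr false)) * hb p i0 i +
      p i0 * (v (Sum.inr true) * v' (Sum.inl i0) + v' (Sum.inr true) * v (Sum.inl i0)) *
        (Pi.single i0 (1 : ℂ) : Vc ι) i
  | Sum.inr false =>
      1 / 2 * (v (Sum.inr true) * dot (hb p i0) (fun i => v' (Sum.inl i)) +
        v' (Sum.inr true) * dot (hb p i0) (fun i => v (Sum.inl i))) + v (Sum.inr true) * v' (Sum.inr true)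
  | Sum.inr true =>
      1 / 2 * (v (Sum.inr false) * dot (hb p i0) (fun i => v' (Sum.inl i)) +
        v' (Sum.inr false) * dot (hb p i0) (fun i => v (Sum.inl i))) +
      p i0 * v (Sum.inl i0) * v' (Sum.inl i0) +
      (v (Sum.inr true) * v' (Sum.inr false) + v' (Sum.inr true) * v (Sum.inr false))

/-- new quadratic form -/
def HSS (S : Vc ι → Vc ι) (v : Vc (ι ⊕ Bool)) : Vc (ι ⊕ Bool)
  | Sum.inl i => S (fun i => v (Sum.inl i)) i
  | Sum.inr false => v (Sum.inr true)
  | Sum.inr true => v (Sum.inr false)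

/-! ### vectors on `ι ⊕ Bool` -/

/-- the vector with components `X`, `u`, `w` -/
def hstepV (X : Vc ι) (u w : ℂ) : Vc (ι ⊕ Bool)
  | Sum.inl i => X i
  | Sum.inr false => u
  | Sum.inr true => w

theorem hstep_ex (v : Vc (ι ⊕ Bool)) : ∃ (X : Vc ι) (u w : ℂ), v = hstepV X u w := by
  refine ⟨fun i => v (Sum.inl i), v (Sum.inr false), v (Sum.inr true), ?_⟩
  funext j
  rcases j with i | b
  · rfl
  · cases b <;> rfl

theorem hstep_inj {X Y : Vc ι} {u u' w w' : ℂ} :
    hstepV X u w = hstepV Y u' w' ↔ X = Y ∧ u = u' ∧ w = w' := by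
  constructor
  · intro h
    refine ⟨?_, ?_, ?_⟩
    · funext i
      exact congrFun h (Sum.inl i)
    · exact congrFun h (Sum.inr false)
    · exact congrFun h (Sum.inr true)
  · rintro ⟨rfl, rfl, rfl⟩
    rfl

theorem hstep_add (X Y : Vc ι) (u u' w w' : ℂ) :
    hstepV X u w + hstepV Y u' w' = hstepV (X + Y) (u + u') (w + w') := by
  funext j
  rcases j with i | b
  · rfl
  · cases b <;> rfl

theorem hstep_smul (c : ℂ) (X : Vc ι) (u w : ℂ) :
    c • hstepV X u w = hstepV (c • X) (c * u) (c * w) := by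
  funext j
  rcases j with i | b
  · rfl
  · cases b <;> rfl

theorem hstep_zero : (0 : Vc (ι ⊕ Bool)) = hstepV (0 : Vc ι) 0 0 := by
  funext j
  rcases j with i | b
  · rfl
  · cases b <;> rfl

theorem hstep_dot (X Y : Vc ι) (u u' w w' : ℂ) :
    dot (hstepV X u w) (hstepV Y u' w') = dot X Y + (u * u' + w * w') := by
  unfold dot
  rw [Fintype.sum_sum_type, Fintype.sum_bool]
  have h1 : ∀ x : ι, hstepV X u w (Sum.inl x) * hstepV Y u' w' (Sum.inl x) = X x * Y x :=
    fun x => rfl
  rw [sum_congr rfl fun x _ => h1 x]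
  have h2 : hstepV X u w (Sum.inr true) * hstepV Y u' w' (Sum.inr true) = w * w' := rfl
  have h3 : hstepV X u w (Sum.inr false) * hstepV Y u' w' (Sum.inr false) = u * u' := rfl
  rw [h2, h3]
  ring

theorem hstep_single (c : ℂ) : (Pi.single (Sum.inr false) c : Vc (ι ⊕ Bool)) = hstepV 0 c 0 := by
  funext j
  rcases j with i | b
  · rw [Pi.single_eq_of_ne (by simp)]
    rfl
  · cases b
    · rw [Pi.single_eq_same]
      rfl
    · rw [Pi.single_eq_of_ne (by simp)]
      rfl

variable {B : Vc ι → Vc ι → Vc ι} {S : Vc ι → Vc ι} {i0 : ι} {p : Vc ι}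

theorem hstep_HBB (X Y : Vc ι) (u u' w w' : ℂ) :
    HBB B p i0 (hstepV X u w) (hstepV Y u' w') =
      hstepV (B X Y + (1 / 2 * (w * u' + w' * u)) • hb p i0 +
          (p i0 * (w * Y i0 + w' * X i0)) • (Pi.single i0 (1 : ℂ) : Vc ι))
        (1 / 2 * (w * dot (hb p i0) Y + w' * dot (hb p i0) X) + w * w')
        (1 / 2 * (u * dot (hb p i0) Y + u' * dot (hb p i0) X) + p i0 * X i0 * Y i0 +
          (w * u' + w' * u)) := by
  funext j
  rcases j with i | b
  · rfl
  · cases b <;> rfl

theorem hstep_HSS (X : Vc ι) (u w : ℂ) : HSS S (hstepV X u w) = hstepV (S X) w u := by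
  funext j
  rcases j with i | b
  · rfl
  · cases b <;> rfl

theorem hstep_bil (hB : Bil B) : Bil (HBB B p i0) where
  add x y z := by
    obtain ⟨X, u, w, rfl⟩ := hstep_ex x
    obtain ⟨Y, u', w', rfl⟩ := hstep_ex y
    obtain ⟨Z, u'', w'', rfl⟩ := hstep_ex z
    rw [hstep_add, hstep_HBB, hstep_HBB, hstep_HBB, hstep_add, hstep_inj]
    refine ⟨?_, ?_, ?_⟩
    · funext i
      simp only [hB.add, Pi.add_apply, Pi.smul_apply, smul_eq_mul]
      ring
    · rw [dot_add]
      ring
    · rw [dot_add, Pi.add_apply]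
      ring
  smul c x y := by
    obtain ⟨X, u, w, rfl⟩ := hstep_ex x
    obtain ⟨Y, u', w', rfl⟩ := hstep_ex y
    rw [hstep_smul, hstep_HBB, hstep_HBB, hstep_smul, hstep_inj]
    refine ⟨?_, ?_, ?_⟩
    · funext i
      simp only [hB.smul, Pi.add_apply, Pi.smul_apply, smul_eq_mul]
      ring
    · rw [dot_smul]
      ring
    · rw [dot_smul, Pi.smul_apply, smul_eq_mul]
      ring
  comm x y := by
    obtain ⟨X, u, w, rfl⟩ := hstep_ex x
    obtain ⟨Y, u', w', rfl⟩ := hstep_ex y
    rw [hstep_HBB, hstep_HBB, hstep_inj]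
    refine ⟨?_, ?_, ?_⟩
    · funext i
      simp only [hB.comm X Y, Pi.add_apply, Pi.smul_apply, smul_eq_mul]
      ring
    · ring
    · ring

theorem hstep_adj (hadj : ∀ x y z, dot (B x y) z = dot (B x z) y) (x y z : Vc (ι ⊕ Bool)) :
    dot (HBB B p i0 x y) z = dot (HBB B p i0 x z) y := by
  obtain ⟨X, u, w, rfl⟩ := hstep_ex x
  obtain ⟨Y, u', w', rfl⟩ := hstep_ex y
  obtain ⟨Z, u'', w'', rfl⟩ := hstep_ex z
  rw [hstep_HBB, hstep_HBB, hstep_dot, hstep_dot]
  simp only [add_dot, smul_dot, single_dot]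
  rw [hadj X Y Z]
  ring

theorem hstep_lin (hS : Lin S) : Lin (HSS S) where
  add x y := by
    obtain ⟨X, u, w, rfl⟩ := hstep_ex x
    obtain ⟨Y, u', w', rfl⟩ := hstep_ex y
    rw [hstep_add, hstep_HSS, hstep_HSS, hstep_HSS, hstep_add, hS.add]
  smul c x := by
    obtain ⟨X, u, w, rfl⟩ := hstep_ex x
    rw [hstep_smul, hstep_HSS, hstep_HSS, hstep_smul, hS.smul]

theorem hstep_symm (hS : ∀ x y, dot (S x) y = dot (S y) x) (x y : Vc (ι ⊕ Bool)) :
    dot (HSS S x) y = dot (HSS S y) x := by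
  obtain ⟨X, u, w, rfl⟩ := hstep_ex x
  obtain ⟨Y, u', w', rfl⟩ := hstep_ex y
  rw [hstep_HSS, hstep_HSS, hstep_dot, hstep_dot, hS X Y]
  ring

theorem hstep_injS (hS : ∀ x, S x = 0 → x = 0) (x : Vc (ι ⊕ Bool)) (h : HSS S x = 0) : x = 0 := by
  obtain ⟨X, u, w, rfl⟩ := hstep_ex x
  rw [hstep_HSS, hstep_zero, hstep_inj] at h
  rw [hstep_zero, hstep_inj]
  exact ⟨hS X h.1, h.2.2, h.2.1⟩

theorem hstep_b0 : hb p i0 i0 = 0 := by
  unfold hb
  exact Function.update_self _ _ _

theorem hstep_p_ne {K : Subfield ℂ} (hder : ∀ a : Vc ι, ∃ D : Derivation K ℂ ℂ, ∀ j, D (p j) = a j)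
    (i : ι) : p i ≠ 0 := by
  intro h
  obtain ⟨D, hD⟩ := hder (fun _ => 1)
  have := hD i
  rw [h, map_zero] at this
  exact zero_ne_one this

/-- the equations of the zeros of the new gradient and of the new solutions -/
theorem hstep_eqs {X T : Vc ι} {u w a c : ℂ}
    (h : HBB B p i0 (hstepV X u w) (hstepV X u w) = hstepV T a c) :
    (∀ i, B X X i + w * u * hb p i0 i + 2 * p i0 * w * X i0 * (Pi.single i0 (1 : ℂ) : Vc ι) i = T i) ∧
    w * dot (hb p i0) X + w * w = a ∧
    u * dot (hb p i0) X + p i0 * X i0 * X i0 + 2 * (w * u) = c := by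
  rw [hstep_HBB, hstep_inj] at h
  obtain ⟨h1, h2, h3⟩ := h
  refine ⟨fun i => ?_, ?_, ?_⟩
  · have := congrFun h1 i
    simp only [Pi.add_apply, Pi.smul_apply, smul_eq_mul] at this
    linear_combination this
  · linear_combination h2
  · linear_combination h3

theorem hstep_of_eqs {X T : Vc ι} {u w a c : ℂ}
    (h1 : ∀ i, B X X i + w * u * hb p i0 i + 2 * p i0 * w * X i0 * (Pi.single i0 (1 : ℂ) : Vc ι) i =
      T i)
    (h2 : w * dot (hb p i0) X + w * w = a)
    (h3 : u * dot (hb p i0) X + p i0 * X i0 * X i0 + 2 * (w * u) = c) :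
    HBB B p i0 (hstepV X u w) (hstepV X u w) = hstepV T a c := by
  rw [hstep_HBB, hstep_inj]
  refine ⟨?_, ?_, ?_⟩
  · funext i
    simp only [Pi.add_apply, Pi.smul_apply, smul_eq_mul]
    linear_combination h1 i
  · linear_combination h2
  · linear_combination h3

theorem hstep_HB (X Y : Vc ι) (i : ι) : HB B p i0 X Y i = B X Y i - p i0 * X i0 * Y i0 * hb p i0 i -
    p i0 * (dot (hb p i0) X * Y i0 + dot (hb p i0) Y * X i0) * (Pi.single i0 (1 : ℂ) : Vc ι) i := by
  unfold HB
  simp only [Pi.sub_apply, Pi.smul_apply, smul_eq_mul]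

theorem hstep_HL (X : Vc ι) (i : ι) : HL S p i0 X i =
    -S X i + 2 * p i0 * X i0 * (Pi.single i0 (1 : ℂ) : Vc ι) i := by
  unfold HL
  simp only [Pi.add_apply, Pi.neg_apply, Pi.smul_apply, smul_eq_mul]

section
variable {I : ℕ} {K : Subfield ℂ}

theorem hstep_null (h : St B S i0 I) (hi : ∃ i, i ≠ i0) (hB : RatB K B)
    (hder : ∀ a : Vc ι, ∃ D : Derivation K ℂ ℂ, ∀ j, D (p j) = a j) (v : Vc (ι ⊕ Bool))
    (hv : HBB B p i0 v v = 0) : ∃ c : ℂ, v = Pi.single (Sum.inr false) c := by
  obtain ⟨X, u, w, rfl⟩ := hstep_ex v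
  rw [hstep_zero] at hv
  obtain ⟨h1, h2, h3⟩ := hstep_eqs hv
  have hκ := hstep_p_ne hder i0
  refine ⟨u, ?_⟩
  rw [hstep_single, hstep_inj]
  by_cases hw : w = 0
  · subst hw
    have hX : B X X = 0 := by
      funext i
      have := h1 i
      rw [Pi.zero_apply] at this ⊢
      linear_combination this
    obtain ⟨c, rfl⟩ := h.null X hX
    rw [dot_single, hstep_b0, Pi.single_eq_same] at h3
    have hc : p i0 * c * c = 0 := by linear_combination h3
    have hc0 : c = 0 := by
      rcases mul_eq_zero.1 hc with h4 | h4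
      · rcases mul_eq_zero.1 h4 with h5 | h5
        · exact absurd h5 hκ
        · exact h5
      · exact h4
    rw [hc0]
    exact ⟨Pi.single_zero i0, rfl, rfl⟩
  · exfalso
    have hw' : dot (hb p i0) X + w = 0 := by
      have : w * (dot (hb p i0) X + w) = 0 := by linear_combination h2
      exact (mul_eq_zero.1 this).resolve_left hw
    have hwu : w * u + p i0 * X i0 * X i0 = 0 := by linear_combination h3 - u * hw'
    have hX : HB B p i0 X X = 0 := by
      funext i
      rw [hstep_HB]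
      have := h1 i
      rw [Pi.zero_apply] at this ⊢
      linear_combination this - hb p i0 i * hwu -
        2 * p i0 * X i0 * (Pi.single i0 (1 : ℂ) : Vc ι) i * hw'
    have hX0 := inf_H h hi hB hder hX
    rw [hX0, dot_zero, zero_add] at hw'
    exact hw hw'

theorem hstep_null' (h : Bil B) : HBB B p i0 (Pi.single (Sum.inr false) 1)
    (Pi.single (Sum.inr false) 1) = 0 := by
  rw [hstep_single, hstep_zero]
  apply hstep_of_eqs
  · intro i
    rw [h.zero]
    simp
  · ring
  · simp [dot_zero]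

/-- first branch -/
noncomputable def hstepF (p : Vc ι) (i0 : ι) (X : Vc ι) : Vc (ι ⊕ Bool) :=
  hstepV X (p i0 * X i0 * X i0 / (1 - dot (hb p i0) X)) 0

/-- second branch -/
noncomputable def hstepG (p : Vc ι) (i0 : ι) (X : Vc ι) : Vc (ι ⊕ Bool) :=
  hstepV X (-(p i0 * X i0 * X i0) / (1 - dot (hb p i0) X)) (1 - dot (hb p i0) X)

theorem hstep_sols (hS : RatL K S) (hsol : ∀ x, B x x = S x → Rat K x) (h : St B S i0 I)
    (hB : RatB K B) (hder : ∀ a : Vc ι, ∃ D : Derivation K ℂ ℂ, ∀ j, D (p j) = a j) :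
    {v | HBB B p i0 v v = HSS S v} =
      hstepF p i0 '' {x | B x x = S x} ∪ hstepG p i0 '' Zer (HB B p i0) (HL S p i0) 0 := by
  ext v
  rw [Set.mem_union, Set.mem_image, Set.mem_image]
  constructor
  · intro hv
    rw [Set.mem_setOf_eq] at hv
    obtain ⟨X, u, w, rfl⟩ := hstep_ex v
    rw [hstep_HSS] at hv
    obtain ⟨h1, h2, h3⟩ := hstep_eqs hv
    by_cases hw : w = 0
    · left
      subst hw
      have hX : B X X = S X := by
        funext i
        linear_combination h1 i
      have hne := sol_ne_one_H (i0 := i0) hsol hder hX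
      have hne' : 1 - dot (hb p i0) X ≠ 0 := sub_ne_zero.2 (Ne.symm hne)
      refine ⟨X, hX, ?_⟩
      unfold hstepF
      rw [hstep_inj]
      refine ⟨rfl, ?_, rfl⟩
      rw [div_eq_iff hne']
      linear_combination h3
    · right
      have hw' : dot (hb p i0) X + w - 1 = 0 := by
        have : w * (dot (hb p i0) X + w - 1) = 0 := by linear_combination h2
        exact (mul_eq_zero.1 this).resolve_left hw
      have hwe : 1 - dot (hb p i0) X = w := by linear_combination -hw'
      have hwu : w * u + p i0 * X i0 * X i0 = 0 := by linear_combination h3 - u * hw'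
      refine ⟨X, ?_, ?_⟩
      · change HB B p i0 X X + HL S p i0 X + 0 = 0
        funext i
        rw [Pi.add_apply, Pi.add_apply, hstep_HB, hstep_HL]
        have := h1 i
        rw [Pi.zero_apply]
        linear_combination this - hb p i0 i * hwu -
          2 * p i0 * X i0 * (Pi.single i0 (1 : ℂ) : Vc ι) i * hw'
      · unfold hstepG
        rw [hstep_inj, hwe]
        refine ⟨rfl, ?_, rfl⟩
        rw [div_eq_iff hw]
        linear_combination -hwu
  · rintro (⟨X, hX, rfl⟩ | ⟨X, hX, rfl⟩)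
    · rw [Set.mem_setOf_eq] at hX ⊢
      have hne := sol_ne_one_H (i0 := i0) hsol hder hX
      have hne' : 1 - dot (hb p i0) X ≠ 0 := sub_ne_zero.2 (Ne.symm hne)
      unfold hstepF
      rw [hstep_HSS]
      set u := p i0 * X i0 * X i0 / (1 - dot (hb p i0) X) with hu
      have hu' : u * (1 - dot (hb p i0) X) = p i0 * X i0 * X i0 := by
        rw [hu, div_mul_cancel₀ _ hne']
      apply hstep_of_eqs
      · intro i
        rw [← hX]
        ring
      · ring
      · linear_combination -hu'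
    · have hX' : HB B p i0 X X + HL S p i0 X = 0 := by
        have h0 : HB B p i0 X X + HL S p i0 X + 0 = 0 := hX
        rwa [add_zero] at h0
      have hne := zer_ne_one_H h hB hS hsol hder hX'
      have hne' : 1 - dot (hb p i0) X ≠ 0 := sub_ne_zero.2 (Ne.symm hne)
      rw [Set.mem_setOf_eq]
      unfold hstepG
      rw [hstep_HSS]
      set w := 1 - dot (hb p i0) X with hw
      set u := -(p i0 * X i0 * X i0) / w with hu
      have hu' : u * w = -(p i0 * X i0 * X i0) := by
        rw [hu, div_mul_cancel₀ _ hne']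
      apply hstep_of_eqs
      · intro i
        have h1 := congrFun hX' i
        rw [Pi.add_apply, hstep_HB, hstep_HL, Pi.zero_apply] at h1
        linear_combination h1 + hb p i0 i * hu' +
          2 * p i0 * X i0 * (Pi.single i0 (1 : ℂ) : Vc ι) i * hw
      · linear_combination w * hw
      · linear_combination hu' + u * hw

theorem hstep_F_inj : Function.Injective (hstepF p i0) := by
  intro X Y h
  unfold hstepF at h
  rw [hstep_inj] at h
  exact h.1

theorem hstep_G_inj : Function.Injective (hstepG p i0) := by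
  intro X Y h
  unfold hstepG at h
  rw [hstep_inj] at h
  exact h.1

theorem hstep_nd (hS : RatL K S) (hsol : ∀ x, B x x = S x → Rat K x) (h : St B S i0 I)
    (hB : RatB K B) (hder : ∀ a : Vc ι, ∃ D : Derivation K ℂ ℂ, ∀ j, D (p j) = a j)
    (v : Vc (ι ⊕ Bool)) (hv : HBB B p i0 v v = HSS S v) (v' : Vc (ι ⊕ Bool))
    (hv' : (2 : ℂ) • HBB B p i0 v v' = HSS S v') : v' = 0 := by
  obtain ⟨X, u, w, rfl⟩ := hstep_ex v
  obtain ⟨Y, u', w', rfl⟩ := hstep_ex v'
  rw [hstep_HSS] at hv
  obtain ⟨h1, h2, h3⟩ := hstep_eqs hv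
  rw [hstep_HSS, hstep_HBB, hstep_smul, hstep_inj] at hv'
  obtain ⟨k1', k2, k3⟩ := hv'
  have k1 : ∀ i, 2 * B X Y i + (w * u' + w' * u) * hb p i0 i +
      2 * (p i0 * (w * Y i0 + w' * X i0)) * (Pi.single i0 (1 : ℂ) : Vc ι) i = S Y i := by
    intro i
    have := congrFun k1' i
    simp only [Pi.add_apply, Pi.smul_apply, smul_eq_mul] at this
    linear_combination this
  rw [hstep_zero, hstep_inj]
  by_cases hw : w = 0
  · subst hw
    have hX : B X X = S X := by
      funext i
      linear_combination h1 i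
    have hne := sol_ne_one_H (i0 := i0) hsol hder hX
    have hw' : w' = 0 := by
      have : w' * (dot (hb p i0) X - 1) = 0 := by linear_combination k2
      exact (mul_eq_zero.1 this).resolve_right (sub_ne_zero.2 hne)
    subst hw'
    have hY : Y = 0 := by
      apply h.nd X hX Y
      funext i
      rw [Pi.smul_apply, smul_eq_mul]
      linear_combination k1 i
    subst hY
    refine ⟨rfl, ?_, rfl⟩
    rw [dot_zero, Pi.zero_apply] at k3
    have : u' * (dot (hb p i0) X - 1) = 0 := by linear_combination k3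
    exact (mul_eq_zero.1 this).resolve_right (sub_ne_zero.2 hne)
  · have hw' : dot (hb p i0) X + w - 1 = 0 := by
      have : w * (dot (hb p i0) X + w - 1) = 0 := by linear_combination h2
      exact (mul_eq_zero.1 this).resolve_left hw
    have hwu : w * u + p i0 * X i0 * X i0 = 0 := by linear_combination h3 - u * hw'
    have hX' : HB B p i0 X X + HL S p i0 X = 0 := by
      funext i
      rw [Pi.add_apply, hstep_HB, hstep_HL]
      have := h1 i
      rw [Pi.zero_apply]
      linear_combination this - hb p i0 i * hwu -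
        2 * p i0 * X i0 * (Pi.single i0 (1 : ℂ) : Vc ι) i * hw'
    have hwb : dot (hb p i0) Y + w' = 0 := by
      have : w * (dot (hb p i0) Y + w') = 0 := by linear_combination k2 - w' * hw'
      exact (mul_eq_zero.1 this).resolve_left hw
    have hsum : w * u' + w' * u + 2 * (p i0 * X i0 * Y i0) = 0 := by
      linear_combination k3 - u * hwb - u' * hw'
    have hY : Y = 0 := by
      apply nd_H h hB hS hsol hder hX'
      funext i
      rw [Pi.add_apply, Pi.smul_apply, smul_eq_mul, hstep_HB, hstep_HL, Pi.zero_apply]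
      linear_combination k1 i - hb p i0 i * hsum -
        2 * p i0 * Y i0 * (Pi.single i0 (1 : ℂ) : Vc ι) i * hw' -
        2 * p i0 * X i0 * (Pi.single i0 (1 : ℂ) : Vc ι) i * hwb
    subst hY
    rw [dot_zero, zero_add] at hwb
    subst hwb
    rw [Pi.zero_apply] at hsum
    have : w * u' = 0 := by linear_combination hsum
    exact ⟨rfl, (mul_eq_zero.1 this).resolve_left hw, rfl⟩

end

theorem ach_H {k I : ℕ} (hk : 2 ≤ k) (h : Ach k I) : Ach (k + 2) (2 ^ k + I) := by
  obtain ⟨ι, hfin, hdec, B, S, i0, hcard, h⟩ := h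
  have hi : ∃ i, i ≠ i0 := Fintype.exists_ne_of_one_lt_card (by omega) i0
  obtain ⟨K, hK, hs, hB, hS⟩ := exists_field_rat h.bil h.lin
    (⋃ x ∈ {x : Vc ι | B x x = S x}, Set.range x)
    (h.fin.countable.biUnion fun x _ => Set.countable_range x)
  have hsol : ∀ x, B x x = S x → Rat K x := by
    intro x hx i
    apply hs
    rw [Set.mem_iUnion₂]
    exact ⟨x, hx, Set.mem_range_self i⟩
  obtain ⟨p, hp⟩ := exists_indep K hK ι
  have hder := fun a : Vc ι => exists_der K p hp a
  have hgood := good_H h hi hB hS hsol hder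
  obtain ⟨hzf, hzc⟩ := bezout (bil_HB h.bil p i0) (lin_HL h.lin p i0) hgood
  have hsols := hstep_sols hS hsol h hB hder
  have hf1 : (hstepF p i0 '' {x | B x x = S x}).Finite := h.fin.image _
  have hf2 : (hstepG p i0 '' Zer (HB B p i0) (HL S p i0) 0).Finite := hzf.image _
  refine ⟨ι ⊕ Bool, inferInstance, inferInstance, HBB B p i0, HSS S, Sum.inr false, ?_, ?_⟩
  · rw [Fintype.card_sum, Fintype.card_bool, hcard]
  · refine
      { bil := hstep_bil h.bil
        adj := hstep_adj h.adj
        lin := hstep_lin h.lin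
        symm := hstep_symm h.symm
        inj := hstep_injS h.inj
        null := hstep_null h hi hB hder
        null' := hstep_null' h.bil
        fin := by
          rw [hsols]
          exact hf1.union hf2
        card := ?_
        nd := hstep_nd hS hsol h hB hder }
    rw [hsols, Set.ncard_union_eq _ hf1 hf2, Set.ncard_image_of_injective _ hstep_F_inj,
      Set.ncard_image_of_injective _ hstep_G_inj, h.card, hzc, hcard, add_comm]
    rw [Set.disjoint_left]
    rintro v ⟨X, hX, rfl⟩ ⟨Y, hY, hYX⟩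
    have hY' : HB B p i0 Y Y + HL S p i0 Y = 0 := by
      have h0 : HB B p i0 Y Y + HL S p i0 Y + 0 = 0 := hY
      rwa [add_zero] at h0
    have hne := zer_ne_one_H h hB hS hsol hder hY'
    unfold hstepG hstepF at hYX
    rw [hstep_inj] at hYX
    exact sub_ne_zero.2 (Ne.symm hne) hYX.2.2

end EIG
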