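import Pool.Agent.helper62.EIG.LGen
import Pool.Agent.helper62.EIG.Bez

set_option autoImplicit false
set_option linter.unusedSectionVars false

/-!
# EIG-LStep: the step `(k, I) → (k + 1, 2^k + I)`

New form `P(x) + 1/2 z² p(x) + 1/3 z³` on `Option ι` (`z = v none`, `x = v ∘ some`), quadratic form `S ⊕ 1`.

PROOF of `ach_L`. `h : St B S i0 I`. `K` := countable field with `RatB K B`, `RatL K S` containing all coordinates of the
solutions of `B x x = S x` (finitely many: `h.fin`) (`exists_field_rat`), `p` algebraically independent over `K`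
(`exists_indep`), `exists_der` gives `hder`. Then `St (LB B p) (LS S) (some i0) (2^k + I)`:
* `bil`, `lin`, `adj`, `symm`, `inj`: direct (`Fintype.sum_option`; `adj`: the trilinear form is
  `dot (B x x') x'' + 1/2 (z z' p(x'') + z z'' p(x') + z' z'' p(x)) + z z' z''`).
* `null`: `LB v v = 0` means `B x x + 1/2 z² p = 0` and `z p(x) + z² = 0`. If `z = 0`: `x = Pi.single i0 c`, `v = Pi.single (some i0) c`. If
  `z ≠ 0` then `z = - p(x)`, so `BE B p x x = 0`, `x = 0` (`inf_L`), `z = 0`: contradiction. `null'`: `B e e = 0`, `z = 0`.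
* solutions: `LB v v = LS v` means `B x x + 1/2 z² p = S x` and `z p(x) + z² = z`. If `z = 0`: `B x x = S x`. If `z ≠ 0`: `z = 1 - p(x)` and
  `x ∈ Zer (BE B p) (LE' S p) (cE p)`; conversely every `x` in this set has `p(x) ≠ 1` (`zer_ne_one`). So the solution set is the
  disjoint union of the injective images of the two finite sets under `x ↦ (x, 0)` and `x ↦ (x, 1 - p(x))`; it has
  `I + 2^k` elements by `bezout` (`good_L`).
* `nd`: let `2 LB v w = LS w`, `w = (y, t)`: `2 B x y + z t p = S y` and `z p(y) + t p(x) + 2 z t = t`. If `z = 0`: `t (p(x) - 1) = 0`, so `t = 0`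
  (`sol_ne_one`), `2 B x y = S y`, `y = 0`. If `z = 1 - p(x) ≠ 0`: the second equation is `z p(y) + z t = 0`, so `t = - p(y)` and the first
  one is `2 B x y - (1 - p(x)) p(y) p = S y`, i.e. `2 BE x y + LE' y = 0`, so `y = 0` (`nd_L`), `t = 0`.
-/

namespace EIG

open Finset

variable {ι : Type} [Fintype ι]

/-- polarised gradient of the new cubic form -/
noncomputable def LB (B : Vc ι → Vc ι → Vc ι) (p : Vc ι) (v w : Vc (Option ι)) : Vc (Option ι)
  | none => 1 / 2 * (v none * dot p (fun i => w (some i)) + w none * dot p (fun i => v (some i))) +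
      v none * w none
  | some i => B (fun i => v (some i)) (fun i => w (some i)) i + 1 / 2 * (v none * w none) * p i

/-- new quadratic form -/
def LS (S : Vc ι → Vc ι) (v : Vc (Option ι)) : Vc (Option ι)
  | none => v none
  | some i => S (fun i => v (some i)) i

/-- the old coordinates -/
def lstepTl (v : Vc (Option ι)) : Vc ι := fun i => v (some i)

/-- vector with given coordinates -/
def lstepMk (z : ℂ) (x : Vc ι) : Vc (Option ι)
  | none => z
  | some i => x i

theorem lstep_ext {v w : Vc (Option ι)} (h0 : v none = w none) (h1 : lstepTl v = lstepTl w) : v = w := by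
  funext o
  cases o with
  | none => exact h0
  | some i => exact congrFun h1 i

theorem lstepTl_add (v w : Vc (Option ι)) : lstepTl (v + w) = lstepTl v + lstepTl w := rfl

theorem lstepTl_smul (c : ℂ) (v : Vc (Option ι)) : lstepTl (c • v) = c • lstepTl v := rfl

theorem lstepTl_zero : lstepTl (0 : Vc (Option ι)) = 0 := rfl

theorem lstepTl_mk (z : ℂ) (x : Vc ι) : lstepTl (lstepMk z x) = x := rfl

theorem lstepTl_LB (B : Vc ι → Vc ι → Vc ι) (p : Vc ι) (v w : Vc (Option ι)) :
    lstepTl (LB B p v w) = B (lstepTl v) (lstepTl w) + (1 / 2 * (v none * w none)) • p := rfl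

theorem LB_none (B : Vc ι → Vc ι → Vc ι) (p : Vc ι) (v w : Vc (Option ι)) :
    LB B p v w none = 1 / 2 * (v none * dot p (lstepTl w) + w none * dot p (lstepTl v)) +
      v none * w none := rfl

theorem lstepTl_LS (S : Vc ι → Vc ι) (v : Vc (Option ι)) : lstepTl (LS S v) = S (lstepTl v) := rfl

theorem LS_none (S : Vc ι → Vc ι) (v : Vc (Option ι)) : LS S v none = v none := rfl

theorem lstep_dot (v w : Vc (Option ι)) :
    dot v w = v none * w none + dot (lstepTl v) (lstepTl w) := by
  unfold dot
  rw [Fintype.sum_option]
  rfl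

theorem lstep_bil {B : Vc ι → Vc ι → Vc ι} (h : Bil B) (p : Vc ι) : Bil (LB B p) where
  add x y z := by
    refine lstep_ext ?_ ?_
    · rw [Pi.add_apply, LB_none, LB_none, LB_none, lstepTl_add, dot_add, Pi.add_apply]
      ring
    · rw [lstepTl_add, lstepTl_LB, lstepTl_LB, lstepTl_LB, lstepTl_add, h.add, Pi.add_apply]
      module
  smul c x y := by
    refine lstep_ext ?_ ?_
    · rw [Pi.smul_apply, LB_none, LB_none, lstepTl_smul, dot_smul, Pi.smul_apply, smul_eq_mul,
        smul_eq_mul]
      ring
    · rw [lstepTl_smul, lstepTl_LB, lstepTl_LB, lstepTl_smul, h.smul, Pi.smul_apply, smul_eq_mul]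
      module
  comm x y := by
    refine lstep_ext ?_ ?_
    · rw [LB_none, LB_none]
      ring
    · rw [lstepTl_LB, lstepTl_LB, h.comm, mul_comm (x none)]

theorem lstep_lin {S : Vc ι → Vc ι} (h : Lin S) : Lin (LS S) where
  add x y := by
    refine lstep_ext rfl ?_
    rw [lstepTl_add, lstepTl_LS, lstepTl_LS, lstepTl_LS, lstepTl_add, h.add]
  smul c x := by
    refine lstep_ext rfl ?_
    rw [lstepTl_smul, lstepTl_LS, lstepTl_LS, lstepTl_smul, h.smul]

/-- the equation `2 LB v w = LS w` in coordinates -/
theorem lstep_eq_none {B : Vc ι → Vc ι → Vc ι} {S : Vc ι → Vc ι} {p : Vc ι} {v : Vc (Option ι)}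
    (hv : LB B p v v = LS S v) : v none * dot p (lstepTl v) + v none * v none = v none := by
  have := congrFun hv none
  rw [LB_none, LS_none] at this
  linear_combination this

theorem lstep_eq_some {B : Vc ι → Vc ι → Vc ι} {S : Vc ι → Vc ι} {p : Vc ι} {v : Vc (Option ι)}
    (hv : LB B p v v = LS S v) :
    B (lstepTl v) (lstepTl v) + (1 / 2 * (v none * v none)) • p = S (lstepTl v) := by
  have := congrArg lstepTl hv
  rwa [lstepTl_LB, lstepTl_LS] at this

theorem lstep_iff {B : Vc ι → Vc ι → Vc ι} {S : Vc ι → Vc ι} {p : Vc ι} {v : Vc (Option ι)} :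
    LB B p v v = LS S v ↔ v none * dot p (lstepTl v) + v none * v none = v none ∧
      B (lstepTl v) (lstepTl v) + (1 / 2 * (v none * v none)) • p = S (lstepTl v) := by
  constructor
  · intro hv
    exact ⟨lstep_eq_none hv, lstep_eq_some hv⟩
  · rintro ⟨h0, h1⟩
    refine lstep_ext ?_ ?_
    · rw [LB_none, LS_none]
      linear_combination h0
    · rw [lstepTl_LB, lstepTl_LS, h1]

theorem lstep_zer_iff {B : Vc ι → Vc ι → Vc ι} {S : Vc ι → Vc ι} {p x : Vc ι} :
    x ∈ Zer (BE B p) (LE' S p) (cE p) ↔
      B x x + (1 / 2 * ((1 - dot p x) * (1 - dot p x))) • p = S x := by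
  have key : BE B p x x + LE' S p x + cE p =
      B x x + (1 / 2 * ((1 - dot p x) * (1 - dot p x))) • p - S x := by
    unfold BE LE' cE
    module
  change BE B p x x + LE' S p x + cE p = 0 ↔ _
  rw [key, sub_eq_zero]

/-- the set of solutions -/
theorem lstep_set {B : Vc ι → Vc ι → Vc ι} {S : Vc ι → Vc ι} {p : Vc ι} :
    {v : Vc (Option ι) | LB B p v v = LS S v} =
      lstepMk 0 '' {x | B x x = S x} ∪
        (fun x => lstepMk (1 - dot p x) x) '' Zer (BE B p) (LE' S p) (cE p) := by
  ext v
  constructor
  · intro hv
    obtain ⟨h0, h1⟩ := lstep_iff.1 hv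
    by_cases hz : v none = 0
    · left
      refine ⟨lstepTl v, ?_, ?_⟩
      · rw [hz, mul_zero, mul_zero, zero_smul, add_zero] at h1
        exact h1
      · exact lstep_ext hz.symm rfl
    · right
      have hz' : v none = 1 - dot p (lstepTl v) := by
        have : v none * (dot p (lstepTl v) + v none - 1) = 0 := by linear_combination h0
        rcases mul_eq_zero.1 this with h | h
        · exact absurd h hz
        · linear_combination h
      refine ⟨lstepTl v, ?_, ?_⟩
      · rw [lstep_zer_iff, ← hz']
        exact h1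
      · exact lstep_ext hz'.symm rfl
  · rintro (⟨x, hx, rfl⟩ | ⟨x, hx, rfl⟩)
    · refine lstep_iff.2 ⟨?_, ?_⟩
      · change (0 : ℂ) * _ + 0 * 0 = 0
        ring
      · change B x x + (1 / 2 * ((0 : ℂ) * 0)) • p = S x
        rw [mul_zero, mul_zero, zero_smul, add_zero]
        exact hx
    · rw [lstep_zer_iff] at hx
      refine lstep_iff.2 ⟨?_, hx⟩
      change (1 - dot p x) * dot p x + (1 - dot p x) * (1 - dot p x) = 1 - dot p x
      ring

theorem lstepMk_inj (f : Vc ι → ℂ) : Function.Injective (fun x => lstepMk (f x) x) := by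
  intro x y hxy
  exact congrArg lstepTl hxy

theorem ach_L {k I : ℕ} (h : Ach k I) : Ach (k + 1) (2 ^ k + I) := by
  classical
  obtain ⟨ι, _, _, B, S, i0, hk, h⟩ := h
  have hs : (⋃ x ∈ {x | B x x = S x}, Set.range x).Countable :=
    h.fin.countable.biUnion fun x _ => Set.countable_range x
  obtain ⟨K, hK, hsK, hB, hS⟩ := exists_field_rat h.bil h.lin _ hs
  have hsol : ∀ x, B x x = S x → Rat K x := by
    intro x hx i
    exact hsK (Set.mem_biUnion (show x ∈ {x | B x x = S x} from hx) (Set.mem_range_self i))
  obtain ⟨p, hp⟩ := exists_indep K hK ι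
  have hder : ∀ a : Vc ι, ∃ D : Derivation K ℂ ℂ, ∀ j, D (p j) = a j := fun a => exists_der K p hp a
  obtain ⟨finE, cardE⟩ := bezout (bil_BE h.bil p) (lin_LE h.lin p) (good_L h hB hS hsol hder)
  refine ⟨Option ι, inferInstance, inferInstance, LB B p, LS S, some i0, by simp [hk], ?_⟩
  constructor
  · exact lstep_bil h.bil p
  · intro x y z
    rw [lstep_dot, lstep_dot, LB_none, LB_none, lstepTl_LB, lstepTl_LB, add_dot, add_dot, smul_dot,
      smul_dot, h.adj]
    ring
  · exact lstep_lin h.lin
  · intro x y
    rw [lstep_dot, lstep_dot, LS_none, LS_none, lstepTl_LS, lstepTl_LS, h.symm, mul_comm]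
  · intro x hx
    refine lstep_ext (congrFun hx none) ?_
    exact h.inj _ (congrArg lstepTl hx)
  · intro v hv
    have h0 : v none * (dot p (lstepTl v) + v none) = 0 := by
      have := congrFun hv none
      rw [LB_none, Pi.zero_apply] at this
      linear_combination this
    have h1 : B (lstepTl v) (lstepTl v) + (1 / 2 * (v none * v none)) • p = 0 :=
      congrArg lstepTl hv
    by_cases hz : v none = 0
    · rw [hz, mul_zero, mul_zero, zero_smul, add_zero] at h1
      obtain ⟨c, hc⟩ := h.null _ h1
      refine ⟨c, lstep_ext ?_ ?_⟩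
      · rw [hz, Pi.single_eq_of_ne (Option.some_ne_none i0).symm]
      · rw [hc]
        funext i
        change (Pi.single i0 c : Vc ι) i = (Pi.single (some i0) c : Vc (Option ι)) (some i)
        by_cases hi : i = i0
        · subst hi
          rw [Pi.single_eq_same, Pi.single_eq_same]
        · rw [Pi.single_eq_of_ne hi, Pi.single_eq_of_ne (by simpa using hi)]
    · exfalso
      have hz' : v none = -dot p (lstepTl v) := by
        rcases mul_eq_zero.1 h0 with h2 | h2
        · exact absurd h2 hz
        · linear_combination h2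
      have h2 : BE B p (lstepTl v) (lstepTl v) = 0 := by
        rw [hz'] at h1
        unfold BE
        rw [neg_mul_neg] at h1
        exact h1
      have h3 := inf_L h hB hder h2
      rw [h3, dot_zero, neg_zero] at hz'
      exact hz hz'
  · have he : lstepTl (Pi.single (some i0) 1 : Vc (Option ι)) = Pi.single i0 1 := by
      funext i
      change (Pi.single (some i0) 1 : Vc (Option ι)) (some i) = _
      by_cases hi : i = i0
      · subst hi
        rw [Pi.single_eq_same, Pi.single_eq_same]
      · rw [Pi.single_eq_of_ne hi, Pi.single_eq_of_ne (by simpa using hi)]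
    have he0 : (Pi.single (some i0) 1 : Vc (Option ι)) none = 0 :=
      Pi.single_eq_of_ne (Option.some_ne_none i0).symm _
    refine lstep_ext ?_ ?_
    · rw [LB_none, he0, Pi.zero_apply]
      ring
    · rw [lstepTl_LB, he, he0, h.null', mul_zero, mul_zero, zero_smul, add_zero]
      rfl
  · rw [lstep_set]
    exact (h.fin.image _).union (finE.image _)
  · rw [lstep_set, Set.ncard_union_eq ?_ (h.fin.image _) (finE.image _),
      Set.ncard_image_of_injective _ (lstepMk_inj fun _ => 0),
      Set.ncard_image_of_injective _ (lstepMk_inj fun x => 1 - dot p x), h.card, cardE, hk, add_comm]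
    rw [Set.disjoint_left]
    rintro _ ⟨x, hx, rfl⟩ ⟨y, hy, hxy⟩
    have h0 : 1 - dot p y = 0 := congrFun hxy none
    exact zer_ne_one hsol hder hy (by linear_combination -h0)
  · intro v hv w hw
    obtain ⟨h0, h1⟩ := lstep_iff.1 hv
    have w0 : v none * dot p (lstepTl w) + w none * dot p (lstepTl v) + 2 * (v none * w none) =
        w none := by
      have := congrFun hw none
      rw [Pi.smul_apply, LB_none, LS_none, smul_eq_mul] at this
      linear_combination this
    have w1 : (2 : ℂ) • B (lstepTl v) (lstepTl w) + (v none * w none) • p = S (lstepTl w) := by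
      have := congrArg lstepTl hw
      rw [lstepTl_smul, lstepTl_LB, lstepTl_LS] at this
      rw [← this]
      module
    by_cases hz : v none = 0
    · rw [hz, mul_zero, mul_zero, zero_smul, add_zero] at h1
      rw [hz] at w0
      have hne := sol_ne_one hsol hder h1
      have hw0 : w none = 0 := by
        have : w none * (dot p (lstepTl v) - 1) = 0 := by linear_combination w0
        rcases mul_eq_zero.1 this with h2 | h2
        · exact h2
        · exact absurd (sub_eq_zero.1 h2) hne
      rw [hz, zero_mul, zero_smul, add_zero] at w1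
      exact lstep_ext hw0 (h.nd _ h1 _ w1)
    · have hz' : v none = 1 - dot p (lstepTl v) := by
        have : v none * (dot p (lstepTl v) + v none - 1) = 0 := by linear_combination h0
        rcases mul_eq_zero.1 this with h2 | h2
        · exact absurd h2 hz
        · linear_combination h2
      have hw0 : w none = -dot p (lstepTl w) := by
        have : v none * (dot p (lstepTl w) + w none) = 0 := by
          linear_combination w0 - w none * hz'
        rcases mul_eq_zero.1 this with h2 | h2
        · exact absurd h2 hz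
        · linear_combination h2
      have hx : BE B p (lstepTl v) (lstepTl v) + LE' S p (lstepTl v) + cE p = 0 := by
        have := lstep_zer_iff.2 (show B (lstepTl v) (lstepTl v) +
          (1 / 2 * ((1 - dot p (lstepTl v)) * (1 - dot p (lstepTl v)))) • p = S (lstepTl v) by
            rw [← hz']; exact h1)
        exact this
      have hy : (2 : ℂ) • BE B p (lstepTl v) (lstepTl w) + LE' S p (lstepTl w) = 0 := by
        unfold BE LE'
        rw [← w1, hw0, hz']
        module
      have hw1 := nd_L h hB hS hsol hder hx hy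
      refine lstep_ext ?_ hw1
      rw [hw0, hw1, dot_zero, neg_zero]
      rfl

end EIG
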