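import Pool.Agent.helper62.EIG.Base
import Pool.Agent.helper62.EIG.LStep
import Pool.Agent.helper62.EIG.EStep
import Pool.Agent.helper62.EIG.HStep

set_option autoImplicit false
set_option linter.unusedSectionVars false

/-!
# EIG-Rec: all pairs `(k, I)` with `1 ≤ I < 2^k` are achieved
-/

namespace EIG

theorem ach_all (k : ℕ) : ∀ I : ℕ, 1 ≤ k → 1 ≤ I → I < 2 ^ k → Ach k I := by
  induction k using Nat.strong_induction_on with
  | _ k ih =>
    intro I hk h1 h2
    rcases Nat.lt_or_ge I (2 ^ (k - 1)) with hlt | hge
    · -- `I < 2^(k-1)`
      have hk2 : 2 ≤ k := by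
        by_contra hcon
        have : k = 1 := by omega
        subst this
        simp at hlt
        omega
      obtain ⟨j, rfl⟩ : ∃ j, k = j + 2 := ⟨k - 2, by omega⟩
      have e : j + 2 - 1 = j + 1 := rfl
      rw [e, pow_succ] at hlt
      rcases Nat.lt_trichotomy I (2 ^ j) with h3 | h3 | h3
      · rcases Nat.eq_zero_or_pos j with hj | hj
        · subst hj
          simp at h3
          omega
        · exact ach_E (ih j (by omega) I hj h1 h3)
      · rw [h3]
        exact base2 j
      · rcases Nat.lt_or_ge j 2 with hj | hj
        · interval_cases j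
          · simp at hlt h3
            omega
          · simp at hlt h3
            have : I = 3 := by omega
            rw [this]
            exact base3
        · obtain ⟨m, rfl⟩ : ∃ m, I = 2 ^ j + m := ⟨I - 2 ^ j, by omega⟩
          exact ach_H hj (ih j (by omega) m (by omega) (by omega) (by omega))
    · rcases Nat.eq_or_lt_of_le hge with h3 | h3
      · obtain ⟨j, rfl⟩ : ∃ j, k = j + 1 := ⟨k - 1, by omega⟩
        rw [← h3]
        exact base1 j
      · obtain ⟨j, rfl⟩ : ∃ j, k = j + 1 := ⟨k - 1, by omega⟩
        have e : j + 1 - 1 = j := rfl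
        rw [e] at h3
        rw [pow_succ] at h2
        obtain ⟨m, rfl⟩ : ∃ m, I = 2 ^ j + m := ⟨I - 2 ^ j, by omega⟩
        have hj : 1 ≤ j := by
          by_contra hcon
          have : j = 0 := by omega
          subst this
          simp at h2 h3
          omega
        exact ach_L (ih j (by omega) m hj (by omega) (by omega))

end EIG
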