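import Mathlib

set_option autoImplicit false
set_option linter.unusedSectionVars false

/-!
# EIG: eigenschemes of cubic forms (definitions)

Project for MP_3fe32a_ag (architect helper62): for every `n ≥ 1` and `1 ≤ m ≤ 2^(n+1) - 1` there is a cubic
form in `n + 1` variables whose eigenscheme has exactly `2^(n+1) - m` points, all reduced except at most one
(so that this point has multiplicity `m`, since the degree of a finite eigenscheme is `2^(n+1) - 1`).

A cubic form `P` on `Vc ι = ι → ℂ` is given by the polarised gradient `B` (`∇P(x) = B x x`,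
`∇²P(x) y = 2 B x y`), a quadratic form by the linear map `S` (`½ x·Sx`).
-/

namespace EIG

open Finset

/-- coordinate space -/
abbrev Vc (ι : Type) : Type := ι → ℂ

section
variable {ι : Type} [Fintype ι]

/-- linear map -/
structure Lin (L : Vc ι → Vc ι) : Prop where
  add : ∀ x y, L (x + y) = L x + L y
  smul : ∀ (c : ℂ) x, L (c • x) = c • L x

/-- symmetric bilinear map -/
structure Bil (B : Vc ι → Vc ι → Vc ι) : Prop where
  add : ∀ x y z, B (x + y) z = B x z + B y z
  smul : ∀ (c : ℂ) x y, B (c • x) y = c • B x y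
  comm : ∀ x y, B x y = B y x

/-- the bilinear dot product -/
def dot (x y : Vc ι) : ℂ := ∑ i, x i * y i

/-- all coordinates in the field `K` -/
def Rat (K : Subfield ℂ) (x : Vc ι) : Prop := ∀ i, x i ∈ K

/-- linear map defined over `K` -/
def RatL (K : Subfield ℂ) (L : Vc ι → Vc ι) : Prop := ∀ x, Rat K x → Rat K (L x)

/-- bilinear map defined over `K` -/
def RatB (K : Subfield ℂ) (B : Vc ι → Vc ι → Vc ι) : Prop :=
  ∀ x y, Rat K x → Rat K y → Rat K (B x y)

/-- zeros of the quadratic map `x ↦ B x x + L x + c` -/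
def Zer (B : Vc ι → Vc ι → Vc ι) (L : Vc ι → Vc ι) (c : Vc ι) : Set (Vc ι) :=
  {x | B x x + L x + c = 0}

/-- no zeros at infinity, all zeros nondegenerate -/
structure Good (B : Vc ι → Vc ι → Vc ι) (L : Vc ι → Vc ι) (c : Vc ι) : Prop where
  inf : ∀ x, B x x = 0 → x = 0
  nd : ∀ x, B x x + L x + c = 0 → ∀ y, (2 : ℂ) • B x y + L y = 0 → y = 0

/-- A state: a cubic form (gradient `x ↦ B x x`) and a nondegenerate quadratic form `S`; the gradient
vanishes only on the line of the basis vector `i0`; the equation `B x x = S x` has exactly `I` solutions,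
all nondegenerate. -/
structure St [DecidableEq ι] (B : Vc ι → Vc ι → Vc ι) (S : Vc ι → Vc ι) (i0 : ι) (I : ℕ) : Prop where
  bil : Bil B
  adj : ∀ x y z, dot (B x y) z = dot (B x z) y
  lin : Lin S
  symm : ∀ x y, dot (S x) y = dot (S y) x
  inj : ∀ x, S x = 0 → x = 0
  null : ∀ x, B x x = 0 → ∃ c : ℂ, x = Pi.single i0 c
  null' : B (Pi.single i0 1) (Pi.single i0 1) = 0
  fin : {x | B x x = S x}.Finite
  card : {x | B x x = S x}.ncard = I
  nd : ∀ x, B x x = S x → ∀ y, (2 : ℂ) • B x y = S y → y = 0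

end

/-- the pair `(k, I)` is achieved -/
def Ach (k I : ℕ) : Prop :=
  ∃ (ι : Type) (_ : Fintype ι) (_ : DecidableEq ι) (B : Vc ι → Vc ι → Vc ι) (S : Vc ι → Vc ι) (i0 : ι),
    Fintype.card ι = k ∧ St B S i0 I

/-! ### basic lemmas -/

section
variable {ι : Type} [Fintype ι]

theorem dot_comm (x y : Vc ι) : dot x y = dot y x := by
  unfold dot
  exact sum_congr rfl fun i _ => mul_comm _ _

theorem dot_add (x y z : Vc ι) : dot x (y + z) = dot x y + dot x z := by
  unfold dot
  rw [← sum_add_distrib]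
  exact sum_congr rfl fun i _ => by rw [Pi.add_apply, mul_add]

theorem add_dot (x y z : Vc ι) : dot (x + y) z = dot x z + dot y z := by
  rw [dot_comm, dot_add, dot_comm z x, dot_comm z y]

theorem dot_smul (c : ℂ) (x y : Vc ι) : dot x (c • y) = c * dot x y := by
  unfold dot
  rw [mul_sum]
  exact sum_congr rfl fun i _ => by rw [Pi.smul_apply, smul_eq_mul]; ring

theorem smul_dot (c : ℂ) (x y : Vc ι) : dot (c • x) y = c * dot x y := by
  rw [dot_comm, dot_smul, dot_comm]

theorem dot_zero (x : Vc ι) : dot x 0 = 0 := by simp [dot]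

theorem zero_dot (x : Vc ι) : dot 0 x = 0 := by simp [dot]

theorem neg_dot (x y : Vc ι) : dot (-x) y = -dot x y := by simp [dot]

theorem dot_neg (x y : Vc ι) : dot x (-y) = -dot x y := by simp [dot]

theorem dot_sub (x y z : Vc ι) : dot x (y - z) = dot x y - dot x z := by
  rw [sub_eq_add_neg, dot_add, dot_neg, sub_eq_add_neg]

theorem sub_dot (x y z : Vc ι) : dot (x - y) z = dot x z - dot y z := by
  rw [dot_comm, dot_sub, dot_comm z x, dot_comm z y]

theorem dot_single [DecidableEq ι] (x : Vc ι) (i : ι) (c : ℂ) : dot x (Pi.single i c) = x i * c := by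
  unfold dot
  rw [sum_eq_single i]
  · rw [Pi.single_eq_same]
  · intro j _ hj
    rw [Pi.single_eq_of_ne hj, mul_zero]
  · intro h
    exact absurd (mem_univ i) h

theorem single_dot [DecidableEq ι] (x : Vc ι) (i : ι) (c : ℂ) : dot (Pi.single i c) x = c * x i := by
  rw [dot_comm, dot_single, mul_comm]

/-- a vector orthogonal to all vectors is zero -/
theorem eq_zero_of_dot {x : Vc ι} (h : ∀ a, dot a x = 0) : x = 0 := by
  classical
  funext i
  have := h (Pi.single i 1)
  rwa [single_dot, one_mul] at this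

theorem Lin.zero {L : Vc ι → Vc ι} (h : Lin L) : L 0 = 0 := by
  have := h.smul 0 0
  rwa [zero_smul, zero_smul] at this

theorem Lin.sub {L : Vc ι → Vc ι} (h : Lin L) (x y : Vc ι) : L (x - y) = L x - L y := by
  have h1 := h.add (x - y) y
  rw [sub_add_cancel] at h1
  rw [h1, add_sub_cancel_right]

theorem Bil.add' {B : Vc ι → Vc ι → Vc ι} (h : Bil B) (x y z : Vc ι) : B x (y + z) = B x y + B x z := by
  rw [h.comm, h.add, h.comm y, h.comm z]

theorem Bil.smul' {B : Vc ι → Vc ι → Vc ι} (h : Bil B) (c : ℂ) (x y : Vc ι) : B x (c • y) = c • B x y := by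
  rw [h.comm, h.smul, h.comm y]

theorem Bil.zero {B : Vc ι → Vc ι → Vc ι} (h : Bil B) (x : Vc ι) : B x 0 = 0 := by
  have := h.smul' 0 x 0
  rwa [zero_smul, zero_smul] at this

theorem Bil.zero' {B : Vc ι → Vc ι → Vc ι} (h : Bil B) (x : Vc ι) : B 0 x = 0 := by
  rw [h.comm, h.zero]

theorem Bil.sub' {B : Vc ι → Vc ι → Vc ι} (h : Bil B) (x y z : Vc ι) : B x (y - z) = B x y - B x z := by
  have h1 := h.add' x (y - z) z
  rw [sub_add_cancel] at h1
  rw [h1, add_sub_cancel_right]

/-- expansion of a linear map in the basis -/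
theorem Lin.expand [DecidableEq ι] {L : Vc ι → Vc ι} (h : Lin L) (x : Vc ι) (i : ι) :
    L x i = ∑ j, x j * L (Pi.single j 1) i := by
  let φ : Vc ι →ₗ[ℂ] Vc ι := { toFun := L, map_add' := h.add, map_smul' := fun c x => by simpa using h.smul c x }
  have h1 : x = ∑ j, x j • (Pi.single j 1 : Vc ι) := by
    funext k
    rw [Finset.sum_apply, sum_eq_single k]
    · simp
    · intro j _ hj
      rw [Pi.smul_apply, Pi.single_eq_of_ne (Ne.symm hj), smul_zero]
    · intro h; exact absurd (mem_univ k) h
  have h2 : L x = ∑ j, x j • L (Pi.single j 1) := by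
    change φ x = ∑ j, x j • φ (Pi.single j 1)
    conv_lhs => rw [h1]
    rw [map_sum]
    exact sum_congr rfl fun j _ => by rw [map_smul]
  rw [h2, Finset.sum_apply]
  exact sum_congr rfl fun j _ => by rw [Pi.smul_apply, smul_eq_mul]

/-- expansion of a bilinear map in the basis -/
theorem Bil.expand [DecidableEq ι] {B : Vc ι → Vc ι → Vc ι} (h : Bil B) (x y : Vc ι) (i : ι) :
    B x y i = ∑ j, ∑ k, x j * y k * B (Pi.single j 1) (Pi.single k 1) i := by
  have h1 : ∀ z, Lin (fun x => B x z) := fun z => ⟨fun x y => h.add x y z, fun c x => h.smul c x z⟩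
  have h2 : ∀ z, Lin (fun y => B z y) := fun z => ⟨fun x y => h.add' z x y, fun c x => h.smul' c z x⟩
  have e1 := (h1 y).expand x i
  rw [e1]
  refine sum_congr rfl fun j _ => ?_
  have e2 := (h2 (Pi.single j 1)).expand y i
  rw [e2, mul_sum]
  exact sum_congr rfl fun k _ => by ring

theorem rat_single [DecidableEq ι] (K : Subfield ℂ) (j : ι) : Rat K (Pi.single j (1 : ℂ)) := by
  intro i
  by_cases h : i = j
  · subst h
    rw [Pi.single_eq_same]
    exact K.one_mem
  · rw [Pi.single_eq_of_ne h]
    exact K.zero_mem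

end

end EIG
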