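import Pool.Agent.helper62.EIG.FDefs
import Pool.Agent.helper62.EIG.Defs

set_option autoImplicit false
set_option linter.unusedSectionVars false

/-!
# EIG-FPoly: cubic forms from symmetric tensors; square roots of quadratic forms

PROOFS.
* `exists_form`: `f = C (1/3) * ∑ i, ∑ j, ∑ k, C (T i j k) * X i * X j * X k`. `pderiv l` of the sum is (Leibniz, `pderiv_X`, three terms, the
  symmetry of `T`, relabelling) `3 ∑ j k, C (T l j k) * X j * X k`, so `pderiv l f = ∑ j, ∑ k, C (T l j k) * X j * X k` as a polynomial;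
  evaluate; the second derivatives follow in the same way (`pderiv m` of this: `2 ∑ j, C (T l m j) * X j`).
* `exists_sqrt`: the symmetric bilinear form `(x, y) ↦ dot (S x) y` on `ι → ℂ` is nondegenerate (`S` is injective), so by
  `QuadraticForm.equivalent_sum_squares` (Mathlib, LinearAlgebra/QuadraticForm/Complex) its quadratic form `Q x = dot (S x) x` is equivalent to the sum of
  squares on `Fin (finrank) → ℂ`, `finrank = card ι = N`; transport the index set and polarise:
  `2 dot (A x) (A y) = Q (x + y) - Q x - Q y = 2 dot (S x) y`.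
-/

namespace EIG

open Finset MvPolynomial

/-- derivative of a coordinate -/
theorem fpoly_pdX {N : ℕ} (l i : Fin N) :
    pderiv l (X i : MvPolynomial (Fin N) ℂ) = if i = l then 1 else 0 := by
  rw [pderiv_X]
  by_cases h : i = l
  · subst h; simp
  · simp [h]

/-- the quadratic form `∑ j k, T l j k x_j x_k` -/
noncomputable def fpolyQ {N : ℕ} (M : Fin N → Fin N → ℂ) : MvPolynomial (Fin N) ℂ :=
  ∑ j, ∑ k, C (M j k) * (X j * X k)

theorem fpoly_pdQ {N : ℕ} (M : Fin N → Fin N → ℂ) (hM : ∀ j k, M j k = M k j) (l : Fin N) :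
    pderiv l (fpolyQ M) = C 2 * ∑ j, C (M l j) * X j := by
  unfold fpolyQ
  simp only [map_sum, Derivation.leibniz, fpoly_pdX, smul_eq_mul, mul_add, pderiv_C, add_zero,
    sum_add_distrib, mul_ite, mul_one, mul_zero, sum_ite_eq', mem_univ, if_true]
  have e1 : ∑ x : Fin N, ∑ x_1 : Fin N, (if x = l then C (M x x_1) * X x_1 else 0 : MvPolynomial (Fin N) ℂ)
      = ∑ j, C (M l j) * X j := by
    rw [sum_comm]
    simp
  have e2 : ∑ x : Fin N, C (M x l) * (X x : MvPolynomial (Fin N) ℂ) = ∑ j, C (M l j) * X j :=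
    sum_congr rfl fun j _ => by rw [hM]
  rw [e1, e2, show (C 2 : MvPolynomial (Fin N) ℂ) = 2 from rfl, two_mul]

theorem exists_form {N : ℕ} (T : Fin N → Fin N → Fin N → ℂ) (h1 : ∀ i j k, T i j k = T j i k)
    (h2 : ∀ i j k, T i j k = T i k j) :
    ∃ f : MvPolynomial (Fin N) ℂ, f.IsHomogeneous 3 ∧
      (∀ v i, eval v (pderiv i f) = ∑ j, ∑ k, T i j k * v j * v k) ∧
      (∀ v i l, eval v (pderiv l (pderiv i f)) = 2 * ∑ j, T i l j * v j) := by
  have key : ∀ l : Fin N, pderiv l (C (1 / 3 : ℂ) * ∑ i, X i * fpolyQ (T i)) = fpolyQ (T l) := by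
    intro l
    have a1 : ∑ i, (X i * pderiv l (fpolyQ (T i))) = C 2 * fpolyQ (T l) := by
      unfold fpolyQ
      rw [mul_sum]
      refine sum_congr rfl fun i _ => ?_
      rw [show (∑ j, ∑ k, C (T i j k) * (X j * X k) : MvPolynomial (Fin N) ℂ) = fpolyQ (T i) from rfl,
        fpoly_pdQ _ (h2 i), mul_left_comm, mul_sum]
      congr 1
      refine sum_congr rfl fun j _ => ?_
      rw [h1 l i j]
      ring
    have a2 : ∑ i, (fpolyQ (T i) * if i = l then (1 : MvPolynomial (Fin N) ℂ) else 0) = fpolyQ (T l) := by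
      simp
    rw [pderiv_C_mul, map_sum]
    simp only [Derivation.leibniz, fpoly_pdX, smul_eq_mul, sum_add_distrib]
    rw [a1, a2]
    have : (C (1 / 3 : ℂ) : MvPolynomial (Fin N) ℂ) * (C 2 + 1) = 1 := by
      rw [← C_1, ← C_add, ← C_mul]
      norm_num
    calc C (1 / 3 : ℂ) * (C 2 * fpolyQ (T l) + fpolyQ (T l))
        = (C (1 / 3 : ℂ) * (C 2 + 1)) * fpolyQ (T l) := by ring
      _ = fpolyQ (T l) := by rw [this, one_mul]
  refine ⟨C (1 / 3 : ℂ) * ∑ i, X i * fpolyQ (T i), ?_, ?_, ?_⟩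
  · have q2 : ∀ i, (fpolyQ (T i)).IsHomogeneous 2 := by
      intro i
      unfold fpolyQ
      refine IsHomogeneous.sum _ _ _ fun j _ => IsHomogeneous.sum _ _ _ fun k _ => ?_
      have := (isHomogeneous_C (Fin N) (T i j k)).mul ((isHomogeneous_X ℂ j).mul (isHomogeneous_X ℂ k))
      simpa using this
    have q3 : (∑ i, X i * fpolyQ (T i)).IsHomogeneous 3 := by
      refine IsHomogeneous.sum _ _ _ fun i _ => ?_
      have := (isHomogeneous_X ℂ i).mul (q2 i)
      simpa using this
    have := (isHomogeneous_C (Fin N) (1 / 3 : ℂ)).mul q3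
    simpa using this
  · intro v i
    rw [key]
    unfold fpolyQ
    simp only [map_sum, map_mul, eval_C, eval_X]
    exact sum_congr rfl fun j _ => sum_congr rfl fun k _ => by ring
  · intro v i l
    rw [key, fpoly_pdQ _ (h2 i)]
    simp only [map_sum, map_mul, eval_C, eval_X]

theorem exists_sqrt {ι : Type} [Fintype ι] {S : Vc ι → Vc ι} (hS : Lin S)
    (hsymm : ∀ x y, dot (S x) y = dot (S y) x) (hinj : ∀ x, S x = 0 → x = 0) {N : ℕ}
    (hN : Fintype.card ι = N) :
    ∃ A : Vc ι ≃ₗ[ℂ] Vc (Fin N), ∀ x y, dot (A x) (A y) = dot (S x) y := by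
  classical
  let B : LinearMap.BilinForm ℂ (Vc ι) := LinearMap.mk₂ ℂ (fun x y => dot (S x) y)
    (fun x y z => by rw [hS.add, add_dot]) (fun c x y => by rw [hS.smul, smul_dot, smul_eq_mul])
    (fun x y z => by rw [dot_add]) (fun c x y => by rw [dot_smul, smul_eq_mul])
  have hB : ∀ x y, B x y = dot (S x) y := fun x y => rfl
  let Q : QuadraticForm ℂ (Vc ι) := LinearMap.BilinMap.toQuadraticMap B
  have hQ : ∀ x, Q x = dot (S x) x := fun x => rfl
  have hBs : ∀ x y, B x y = B y x := hsymm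
  have hass : QuadraticMap.associated (R := ℂ) Q = B := QuadraticMap.associated_left_inverse (S := ℂ) hBs
  have hsep : (QuadraticMap.associated (R := ℂ) Q).SeparatingLeft := by
    rw [hass]
    intro x hx
    refine hinj x (eq_zero_of_dot fun a => ?_)
    rw [dot_comm]
    exact hx a
  obtain ⟨e⟩ := QuadraticForm.equivalent_weightedSumSquares_of_isAlgClosed Q hsep
  have hfr : Module.finrank ℂ (Vc ι) = N := by
    rw [Module.finrank_fintype_fun_eq_card, hN]
  let r : Vc (Fin (Module.finrank ℂ (Vc ι))) ≃ₗ[ℂ] Vc (Fin N) :=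
    LinearEquiv.funCongrLeft ℂ ℂ (finCongr hfr.symm)
  let A : Vc ι ≃ₗ[ℂ] Vc (Fin N) := e.toLinearEquiv.trans r
  have hA : ∀ x, dot (A x) (A x) = Q x := by
    intro x
    rw [← e.map_app x, QuadraticMap.weightedSumSquares_apply]
    unfold dot
    refine Fintype.sum_equiv (finCongr hfr.symm) _ _ fun i => ?_
    simp only [Pi.one_apply, one_smul]
    rfl
  refine ⟨A, fun x y => ?_⟩
  have e1 := hA (x + y)
  rw [map_add, dot_add, add_dot, add_dot, hA x, hA y, hQ, hQ, hQ, hS.add, dot_add, add_dot, add_dot,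
    dot_comm (A y) (A x), hsymm y x] at e1
  linear_combination e1 / 2

end EIG
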