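import Pool.Agent.helper62.EIG.Defs

set_option autoImplicit false
set_option linter.unusedSectionVars false

/-!
# EIG-Base: explicit states
-/

namespace EIG

open Finset

theorem base_fin {α β : Type} [Fintype β] (f : β → α) (hf : Function.Injective f) (X : Set α)
    (hX : X = Set.range f) : X.Finite ∧ X.ncard = Fintype.card β := by
  subst hX
  refine ⟨Set.finite_range f, ?_⟩
  rw [← Set.image_univ, Set.ncard_image_of_injective _ hf, Set.ncard_univ, Nat.card_eq_fintype_card]

/-- indicator vectors -/
def base_ind {α : Type} (b : α → Bool) (i : α) : ℂ := if b i then 1 else 0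

theorem base_ind_inj {α : Type} {b b' : α → Bool} (h : ∀ i, base_ind b i = base_ind b' i) : b = b' := by
  funext i
  have := h i
  unfold base_ind at this
  cases hb : b i <;> cases hb' : b' i <;> simp_all

theorem base_ind_sq {α : Type} (b : α → Bool) (i : α) : base_ind b i * base_ind b i = base_ind b i := by
  unfold base_ind
  cases b i <;> simp

theorem base_sq {a : ℂ} (h : a * a = a) : a = 0 ∨ a = 1 := by
  have h1 : a * (a - 1) = 0 := by rw [mul_sub, mul_one, h, sub_self]
  rcases mul_eq_zero.1 h1 with h2 | h2
  · exact Or.inl h2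
  · exact Or.inr (sub_eq_zero.1 h2)

open Classical in
theorem base_ind_of {α : Type} {x : α → ℂ} (h : ∀ i, x i * x i = x i) :
    x = base_ind (fun i => decide (x i = 1)) := by
  funext i
  unfold base_ind
  rcases base_sq (h i) with h1 | h1
  · simp [h1]
  · simp [h1]

theorem base_nd {a y : ℂ} (h : a * a = a) (hy : 2 * (a * y) = y) : y = 0 := by
  rcases base_sq h with h1 | h1
  · rw [h1] at hy
    simpa using hy.symm
  · rw [h1] at hy
    linear_combination hy

/-! ### first family -/

/-- sum of the cubes of all variables but one -/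
def B1 (j : ℕ) (x y : Vc (Option (Fin j))) : Vc (Option (Fin j))
  | none => 0
  | some i => x (some i) * y (some i)

theorem st1 (j : ℕ) : St (B1 j) (fun x => x) none (2 ^ j) where
  bil :=
    { add := fun x y z => by
        funext o
        cases o with
        | none => simp [B1]
        | some i => simp only [B1, Pi.add_apply]; ring
      smul := fun c x y => by
        funext o
        cases o with
        | none => simp [B1]
        | some i => simp only [B1, Pi.smul_apply, smul_eq_mul]; ring
      comm := fun x y => by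
        funext o
        cases o with
        | none => rfl
        | some i => simp only [B1]; ring }
  adj x y z := by
    simp only [dot, Fintype.sum_option, B1]
    congr 1
    · ring
    · exact sum_congr rfl fun i _ => by ring
  lin := ⟨fun _ _ => rfl, fun _ _ => rfl⟩
  symm x y := dot_comm x y
  inj _ h := h
  null x h := by
    refine ⟨x none, ?_⟩
    funext o
    cases o with
    | none => simp
    | some i =>
      have h1 := congrFun h (some i)
      simp only [B1, Pi.zero_apply, mul_self_eq_zero] at h1
      rw [h1, Pi.single_eq_of_ne (by simp)]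
  null' := by
    funext o
    cases o with
    | none => rfl
    | some i => simp [B1]
  fin := by
    refine (base_fin (fun (b : Fin j → Bool) (o : Option (Fin j)) => match o with
      | none => (0 : ℂ) | some i => base_ind b i) ?_ _ ?_).1
    · intro b b' h
      exact base_ind_inj fun i => congrFun h (some i)
    · ext x
      simp only [Set.mem_ofPred_eq, Set.mem_range]
      constructor
      · intro h
        have h1 : ∀ i : Fin j, x (some i) * x (some i) = x (some i) := fun i => congrFun h (some i)
        obtain ⟨b, hb⟩ : ∃ b : Fin j → Bool, (fun i => x (some i)) = base_ind b := ⟨_, base_ind_of h1⟩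
        refine ⟨b, ?_⟩
        funext o
        cases o with
        | none => exact congrFun h none
        | some i => exact (congrFun hb i).symm
      · rintro ⟨b, rfl⟩
        funext o
        cases o with
        | none => rfl
        | some i => exact base_ind_sq b i
  card := by
    have h := (base_fin (fun (b : Fin j → Bool) (o : Option (Fin j)) => match o with
      | none => (0 : ℂ) | some i => base_ind b i) ?_ {x | B1 j x x = x} ?_).2
    · rw [h]; simp
    · intro b b' h
      exact base_ind_inj fun i => congrFun h (some i)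
    · ext x
      simp only [Set.mem_ofPred_eq, Set.mem_range]
      constructor
      · intro h
        have h1 : ∀ i : Fin j, x (some i) * x (some i) = x (some i) := fun i => congrFun h (some i)
        obtain ⟨b, hb⟩ : ∃ b : Fin j → Bool, (fun i => x (some i)) = base_ind b := ⟨_, base_ind_of h1⟩
        refine ⟨b, ?_⟩
        funext o
        cases o with
        | none => exact congrFun h none
        | some i => exact (congrFun hb i).symm
      · rintro ⟨b, rfl⟩
        funext o
        cases o with
        | none => rfl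
        | some i => exact base_ind_sq b i
  nd x hx y hy := by
    funext o
    cases o with
    | none =>
      have h1 := congrFun hy none
      simpa [B1] using h1.symm
    | some i =>
      exact base_nd (congrFun hx (some i)) (congrFun hy (some i))

theorem base1 (j : ℕ) : Ach (j + 1) (2 ^ j) :=
  ⟨Option (Fin j), inferInstance, inferInstance, B1 j, fun x => x, none, by simp, st1 j⟩

/-! ### second family -/

/-- sum of the cubes of all variables but one -/
def B2 (j : ℕ) (x y : Vc (Fin j ⊕ Bool)) : Vc (Fin j ⊕ Bool)
  | Sum.inl i => x (Sum.inl i) * y (Sum.inl i)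
  | Sum.inr false => 0
  | Sum.inr true => x (Sum.inr true) * y (Sum.inr true)

/-- the quadratic form with a hyperbolic summand -/
def S2 (j : ℕ) (x : Vc (Fin j ⊕ Bool)) : Vc (Fin j ⊕ Bool)
  | Sum.inl i => x (Sum.inl i)
  | Sum.inr false => x (Sum.inr true)
  | Sum.inr true => x (Sum.inr false)

theorem sol2 (j : ℕ) : ({x | B2 j x x = S2 j x} : Set (Vc (Fin j ⊕ Bool))).Finite ∧
    ({x | B2 j x x = S2 j x} : Set (Vc (Fin j ⊕ Bool))).ncard = 2 ^ j := by
  have h := base_fin (fun (b : Fin j → Bool) (o : Fin j ⊕ Bool) => match o with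
      | Sum.inl i => base_ind b i | Sum.inr _ => (0 : ℂ)) ?_ {x | B2 j x x = S2 j x} ?_
  · exact ⟨h.1, by rw [h.2]; simp⟩
  · intro b b' h
    exact base_ind_inj fun i => congrFun h (Sum.inl i)
  · ext x
    simp only [Set.mem_ofPred_eq, Set.mem_range]
    constructor
    · intro h
      have h1 : ∀ i : Fin j, x (Sum.inl i) * x (Sum.inl i) = x (Sum.inl i) :=
        fun i => congrFun h (Sum.inl i)
      have h2 : 0 = x (Sum.inr true) := congrFun h (Sum.inr false)
      have h3 : x (Sum.inr true) * x (Sum.inr true) = x (Sum.inr false) := congrFun h (Sum.inr true)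
      rw [← h2, mul_zero] at h3
      obtain ⟨b, hb⟩ : ∃ b : Fin j → Bool, (fun i => x (Sum.inl i)) = base_ind b := ⟨_, base_ind_of h1⟩
      refine ⟨b, ?_⟩
      funext o
      match o with
      | Sum.inl i => exact (congrFun hb i).symm
      | Sum.inr false => exact h3
      | Sum.inr true => exact h2
    · rintro ⟨b, rfl⟩
      funext o
      match o with
      | Sum.inl i => exact base_ind_sq b i
      | Sum.inr false => rfl
      | Sum.inr true => exact mul_zero _

theorem st2 (j : ℕ) : St (B2 j) (S2 j) (Sum.inr false) (2 ^ j) where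
  bil :=
    { add := fun x y z => by
        funext o
        match o with
        | Sum.inl i => simp only [B2, Pi.add_apply]; ring
        | Sum.inr false => simp [B2]
        | Sum.inr true => simp only [B2, Pi.add_apply]; ring
      smul := fun c x y => by
        funext o
        match o with
        | Sum.inl i => simp only [B2, Pi.smul_apply, smul_eq_mul]; ring
        | Sum.inr false => simp [B2]
        | Sum.inr true => simp only [B2, Pi.smul_apply, smul_eq_mul]; ring
      comm := fun x y => by
        funext o
        match o with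
        | Sum.inl i => simp only [B2]; ring
        | Sum.inr false => rfl
        | Sum.inr true => simp only [B2]; ring }
  adj x y z := by
    simp only [dot, Fintype.sum_sum_type, Fintype.sum_bool, B2]
    congr 1
    · exact sum_congr rfl fun i _ => by ring
    · ring
  lin :=
    { add := fun x y => by
        funext o
        match o with
        | Sum.inl i => rfl
        | Sum.inr false => rfl
        | Sum.inr true => rfl
      smul := fun c x => by
        funext o
        match o with
        | Sum.inl i => rfl
        | Sum.inr false => rfl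
        | Sum.inr true => rfl }
  symm x y := by
    simp only [dot, Fintype.sum_sum_type, Fintype.sum_bool, S2]
    congr 1
    · exact sum_congr rfl fun i _ => by ring
    · ring
  inj x h := by
    funext o
    match o with
    | Sum.inl i => exact congrFun h (Sum.inl i)
    | Sum.inr false => exact congrFun h (Sum.inr true)
    | Sum.inr true => exact congrFun h (Sum.inr false)
  null x h := by
    refine ⟨x (Sum.inr false), ?_⟩
    funext o
    match o with
    | Sum.inl i =>
      have h1 := congrFun h (Sum.inl i)
      simp only [B2, Pi.zero_apply, mul_self_eq_zero] at h1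
      rw [h1, Pi.single_eq_of_ne (by simp)]
    | Sum.inr false => simp
    | Sum.inr true =>
      have h1 := congrFun h (Sum.inr true)
      simp only [B2, Pi.zero_apply, mul_self_eq_zero] at h1
      rw [h1, Pi.single_eq_of_ne (by simp)]
  null' := by
    funext o
    match o with
    | Sum.inl i => simp [B2]
    | Sum.inr false => rfl
    | Sum.inr true => simp [B2]
  fin := (sol2 j).1
  card := (sol2 j).2
  nd x hx y hy := by
    have h0 : x (Sum.inr true) = 0 := by
      have h2 : 0 = x (Sum.inr true) := congrFun hx (Sum.inr false)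
      exact h2.symm
    have h1 : ∀ i : Fin j, y (Sum.inl i) = 0 := fun i =>
      base_nd (congrFun hx (Sum.inl i)) (congrFun hy (Sum.inl i))
    have h2 : y (Sum.inr true) = 0 := by
      have h3 : (2 : ℂ) • (0 : ℂ) = y (Sum.inr true) := congrFun hy (Sum.inr false)
      rw [← h3, smul_zero]
    have h3 : y (Sum.inr false) = 0 := by
      have h4 : (2 : ℂ) * (x (Sum.inr true) * y (Sum.inr true)) = y (Sum.inr false) :=
        congrFun hy (Sum.inr true)
      rw [← h4, h0, zero_mul, mul_zero]
    funext o
    match o with
    | Sum.inl i => exact h1 i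
    | Sum.inr false => exact h3
    | Sum.inr true => exact h2

theorem base2 (j : ℕ) : Ach (j + 2) (2 ^ j) :=
  ⟨Fin j ⊕ Bool, inferInstance, inferInstance, B2 j, S2 j, Sum.inr false, by simp, st2 j⟩

/-! ### the special case `(3, 3)` -/

/-- polarised gradient of `x³/2 + x²w/2 + xw² + uw(x + w)`, variables `x, u, w` -/
noncomputable def B3 (v v' : Vc (Fin 3)) : Vc (Fin 3) :=
  ![3 / 2 * (v 0 * v' 0) + 1 / 2 * (v 0 * v' 2 + v' 0 * v 2) + v 2 * v' 2 +
      1 / 2 * (v 1 * v' 2 + v' 1 * v 2),
    1 / 2 * (v 0 * v' 2 + v' 0 * v 2) + v 2 * v' 2,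
    1 / 2 * (v 0 * v' 0) + (v 0 * v' 2 + v' 0 * v 2) + 1 / 2 * (v 1 * v' 0 + v' 1 * v 0) +
      (v 1 * v' 2 + v' 1 * v 2)]

/-- the quadratic form `x² + 2uw` -/
def S3 (v : Vc (Fin 3)) : Vc (Fin 3) := ![v 0, v 2, v 1]

theorem ext3 {v w : Vc (Fin 3)} (h0 : v 0 = w 0) (h1 : v 1 = w 1) (h2 : v 2 = w 2) : v = w := by
  funext i
  fin_cases i
  · exact h0
  · exact h1
  · exact h2

theorem sol3 (v : Vc (Fin 3)) (h : B3 v v = S3 v) :
    v = ![0, 0, 0] ∨ v = ![2 / 3, 2 / 3, 0] ∨ v = ![1 / 3, -3 / 4, 2 / 3] := by
  have e0 : 3 / 2 * (v 0 * v 0) + 1 / 2 * (v 0 * v 2 + v 0 * v 2) + v 2 * v 2 +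
      1 / 2 * (v 1 * v 2 + v 1 * v 2) = v 0 := congrFun h 0
  have e1 : 1 / 2 * (v 0 * v 2 + v 0 * v 2) + v 2 * v 2 = v 2 := congrFun h 1
  have e2 : 1 / 2 * (v 0 * v 0) + (v 0 * v 2 + v 0 * v 2) + 1 / 2 * (v 1 * v 0 + v 1 * v 0) +
      (v 1 * v 2 + v 1 * v 2) = v 1 := congrFun h 2
  have h1 : v 2 * (v 0 + v 2 - 1) = 0 := by linear_combination e1
  rcases mul_eq_zero.1 h1 with hw | hw
  · rw [hw] at e0 e2
    have h2 : v 0 * (v 0 - 2 / 3) = 0 := by linear_combination (2 / 3) * e0
    rcases mul_eq_zero.1 h2 with hx | hx
    · left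
      rw [hx] at e2
      have hu : v 1 = 0 := by linear_combination -e2
      exact ext3 (by simpa using hx) (by simpa using hu) (by simpa using hw)
    · right; left
      have hx' : v 0 = 2 / 3 := sub_eq_zero.1 hx
      rw [hx'] at e2
      have hu : v 1 = 2 / 3 := by linear_combination -3 * e2
      exact ext3 (by simpa using hx') (by simpa using hu) (by simpa using hw)
  · have hw' : v 2 = 1 - v 0 := by linear_combination hw
    rw [hw'] at e0 e2
    have h2 : (v 0 - 1 / 3) * (v 0 - 1) = 0 := by
      linear_combination (1 / 3) * e0 - (1 / 3) * e2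
    rcases mul_eq_zero.1 h2 with hx | hx
    · right; right
      have hx' : v 0 = 1 / 3 := sub_eq_zero.1 hx
      have hw2 : v 2 = 2 / 3 := by rw [hw', hx']; norm_num
      rw [hx'] at e0
      have hu : v 1 = -3 / 4 := by linear_combination (3 / 2) * e0
      exact ext3 (by simpa using hx') (by simpa using hu) (by simpa using hw2)
    · exfalso
      have hx' : v 0 = 1 := sub_eq_zero.1 hx
      rw [hx'] at e0
      have : (1 : ℂ) = 0 := by linear_combination 2 * e0
      exact one_ne_zero this

theorem st3 : St B3 S3 1 3 where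
  bil :=
    { add := fun x y z => by
        apply ext3 <;> simp [B3] <;> ring
      smul := fun c x y => by
        apply ext3 <;> simp [B3] <;> ring
      comm := fun x y => by
        apply ext3 <;> simp [B3] <;> ring }
  adj x y z := by
    simp [dot, Fin.sum_univ_three, B3]
    ring
  lin :=
    { add := fun x y => by
        apply ext3 <;> simp [S3]
      smul := fun c x => by
        apply ext3 <;> simp [S3] }
  symm x y := by
    simp [dot, Fin.sum_univ_three, S3]
    ring
  inj x h := by
    have e0 : x 0 = 0 := congrFun h 0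
    have e1 : x 2 = 0 := congrFun h 1
    have e2 : x 1 = 0 := congrFun h 2
    exact ext3 e0 e2 e1
  null v h := by
    have e0 : 3 / 2 * (v 0 * v 0) + 1 / 2 * (v 0 * v 2 + v 0 * v 2) + v 2 * v 2 +
        1 / 2 * (v 1 * v 2 + v 1 * v 2) = 0 := congrFun h 0
    have e1 : 1 / 2 * (v 0 * v 2 + v 0 * v 2) + v 2 * v 2 = 0 := congrFun h 1
    have e2 : 1 / 2 * (v 0 * v 0) + (v 0 * v 2 + v 0 * v 2) + 1 / 2 * (v 1 * v 0 + v 1 * v 0) +
        (v 1 * v 2 + v 1 * v 2) = 0 := congrFun h 2
    have hx : v 0 = 0 ∧ v 2 = 0 := by
      have h1 : v 2 * (v 0 + v 2) = 0 := by linear_combination e1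
      rcases mul_eq_zero.1 h1 with hw | hw
      · rw [hw] at e0
        have h2 : v 0 * v 0 = 0 := by linear_combination (2 / 3) * e0
        exact ⟨mul_self_eq_zero.1 h2, hw⟩
      · have hw' : v 2 = -v 0 := by linear_combination hw
        rw [hw'] at e0 e2
        have h2 : v 0 * v 0 = 0 := by linear_combination (1 / 3) * e0 - (1 / 3) * e2
        have h3 := mul_self_eq_zero.1 h2
        exact ⟨h3, by rw [hw', h3, neg_zero]⟩
    refine ⟨v 1, ?_⟩
    apply ext3
    · rw [hx.1, Pi.single_eq_of_ne (by decide)]
    · simp
    · rw [hx.2, Pi.single_eq_of_ne (by decide)]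
  null' := by
    apply ext3 <;> simp [B3]
  fin := by
    refine Set.Finite.subset (s := {![0, 0, 0], ![2 / 3, 2 / 3, 0], ![1 / 3, -3 / 4, 2 / 3]})
      (by simp) ?_
    intro v hv
    simpa using sol3 v hv
  card := by
    have h : {x | B3 x x = S3 x} =
        ({![0, 0, 0], ![2 / 3, 2 / 3, 0], ![1 / 3, -3 / 4, 2 / 3]} : Set (Vc (Fin 3))) := by
      ext v
      constructor
      · intro hv
        simpa using sol3 v hv
      · intro hv
        simp only [Set.mem_insert_iff, Set.mem_singleton_iff] at hv
        rcases hv with rfl | rfl | rfl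
        · apply ext3 <;> simp [B3, S3]
        · apply ext3 <;> simp [B3, S3] <;> norm_num
        · apply ext3 <;> simp [B3, S3] <;> norm_num
    rw [h, Set.ncard_eq_three]
    refine ⟨_, _, _, ?_, ?_, ?_, rfl⟩
    · intro e
      have := congrFun e 0
      norm_num at this
    · intro e
      have := congrFun e 0
      norm_num at this
    · intro e
      have := congrFun e 0
      norm_num at this
  nd x hx y hy := by
    have e0 : 2 * (3 / 2 * (x 0 * y 0) + 1 / 2 * (x 0 * y 2 + y 0 * x 2) + x 2 * y 2 +
        1 / 2 * (x 1 * y 2 + y 1 * x 2)) = y 0 := congrFun hy 0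
    have e1 : 2 * (1 / 2 * (x 0 * y 2 + y 0 * x 2) + x 2 * y 2) = y 2 := congrFun hy 1
    have e2 : 2 * (1 / 2 * (x 0 * y 0) + (x 0 * y 2 + y 0 * x 2) +
        1 / 2 * (x 1 * y 0 + y 1 * x 0) + (x 1 * y 2 + y 1 * x 2)) = y 1 := congrFun hy 2
    rcases sol3 x hx with rfl | rfl | rfl
    · have a0 : (![0, 0, 0] : Vc (Fin 3)) 0 = 0 := rfl
      have a1 : (![0, 0, 0] : Vc (Fin 3)) 1 = 0 := rfl
      have a2 : (![0, 0, 0] : Vc (Fin 3)) 2 = 0 := rfl
      rw [a0, a1, a2] at e0 e2
      rw [a0, a2] at e1
      exact ext3 (by rw [Pi.zero_apply]; linear_combination -e0)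
        (by rw [Pi.zero_apply]; linear_combination -e2)
        (by rw [Pi.zero_apply]; linear_combination -e1)
    · have a0 : (![2 / 3, 2 / 3, 0] : Vc (Fin 3)) 0 = 2 / 3 := rfl
      have a1 : (![2 / 3, 2 / 3, 0] : Vc (Fin 3)) 1 = 2 / 3 := rfl
      have a2 : (![2 / 3, 2 / 3, 0] : Vc (Fin 3)) 2 = 0 := rfl
      rw [a0, a1, a2] at e0 e2
      rw [a0, a2] at e1
      have b2 : y 2 = 0 := by linear_combination -3 * e1
      have b0 : y 0 = 0 := by linear_combination e0 - (4 / 3) * b2
      have b1 : y 1 = 0 := by linear_combination -3 * e2 + 4 * b0 + 8 * b2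
      exact ext3 b0 b1 b2
    · have a0 : (![1 / 3, -3 / 4, 2 / 3] : Vc (Fin 3)) 0 = 1 / 3 := rfl
      have a1 : (![1 / 3, -3 / 4, 2 / 3] : Vc (Fin 3)) 1 = -3 / 4 := rfl
      have a2 : (![1 / 3, -3 / 4, 2 / 3] : Vc (Fin 3)) 2 = 2 / 3 := rfl
      rw [a0, a1, a2] at e0 e2
      rw [a0, a2] at e1
      have b2 : y 2 = 0 := by linear_combination (1 / 2) * e0 - (1 / 2) * e2 + (3 / 16) * e1
      have b0 : y 0 = 0 := by linear_combination (3 / 2) * e1 - b2
      have b1 : y 1 = 0 := by linear_combination (3 / 2) * e0 - b0 - (11 / 8) * b2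
      exact ext3 b0 b1 b2

theorem base3 : Ach 3 3 := ⟨Fin 3, inferInstance, inferInstance, B3, S3, 1, by simp, st3⟩

end EIG
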