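import Pool.Agent.helper62.EIG.Defs
import Pool.Agent.helper82.Sch.Ext

set_option autoImplicit false
set_option linter.unusedSectionVars false

/-!
# EIG-Der: generic families and derivations

PROOFS.
* `exists_field`: `Subfield.closure s`; it is countable (`Subfield.cardinalMk_closure_le_max` or
  `Subfield.closure` countability; alternatively the image of the countable ring of fractions of
  `MvPolynomial s ℤ`).
* `exists_indep`: a transcendence basis `b` of `ℂ` over `K` is infinite (uncountable): if it were countable,
  `ℂ` would be countable (`Algebra.IsAlgebraic.cardinalMk_le_max` / `IsAlgClosed.cardinal_le_max_transcendence_basis`);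
  choose an injection `J → b`.
* `exists_indep_out`: apply `exists_indep` to `Option J`; the value at `none` is not needed. (Or directly.)
* `exists_der`: `A := Algebra.adjoin K (range p) ≃ MvPolynomial J K` (`AlgebraicIndependent.aevalEquiv`); on
  `MvPolynomial J K` there is the derivation `MvPolynomial.mkDerivation K a` with values in `ℂ` (as a module over
  `MvPolynomial J K` through `aeval p`), transport it to `A` and extend it to `ℂ` by
  `helper82.Sch.ext_der` (`Pool/Agent/helper82/Sch/Ext.lean`; check the namespace).
* `exists_der_option`: the family `Option J → ℂ`, `none ↦ t`, `some j ↦ p j` is algebraically independent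
  (`AlgebraicIndependent.option_iff_transcendental` or similar) as `t` is not algebraic over a field which
  contains `K` and all `p j`; apply `exists_der`.
* `der_mem`: `D` vanishes on `algebraMap K ℂ`.
* `der_lin`, `der_bil`: expand by `Lin.expand`, `Bil.expand`; the coefficients are in `K` (`rat_single`), the
  derivation kills them; for `der_bil` use the symmetry `B x y = B y x`.
-/

namespace EIG

open Finset

/-- a countable field containing a countable set -/
theorem exists_field (s : Set ℂ) (hs : s.Countable) : ∃ K : Subfield ℂ, Countable K ∧ s ⊆ K := by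
  refine ⟨Subfield.closure s, ?_, Subfield.subset_closure⟩
  have h := Subfield.cardinalMk_closure_le_max s
  have hs' : Cardinal.mk s ≤ Cardinal.aleph0 := Cardinal.le_aleph0_iff_set_countable.2 hs
  exact Cardinal.mk_le_aleph0_iff.1 (h.trans (max_le hs' le_rfl))

/-- algebraically independent families over countable fields -/
theorem exists_indep (K : Subfield ℂ) (hK : Countable K) (J : Type) [Finite J] :
    ∃ p : J → ℂ, AlgebraicIndependent K p := by
  obtain ⟨ι, v, hv⟩ := exists_isTranscendenceBasis' K ℂ
  have hK' : Cardinal.mk K ≤ Cardinal.aleph0 := Cardinal.mk_le_aleph0_iff.2 hK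
  have hinf : Infinite ι := by
    rw [Cardinal.infinite_iff]
    by_contra hlt
    rw [not_le] at hlt
    have h1 := IsAlgClosed.cardinal_le_max_transcendence_basis v hv
    have h2 : Cardinal.mk ℂ ≤ Cardinal.aleph0 := by
      have h3 : Cardinal.lift (Cardinal.mk ι) ≤ Cardinal.aleph0 := by
        simp [hlt.le]
      simpa using h1.trans (max_le (max_le (by simpa using hK') h3) le_rfl)
    rw [Cardinal.mk_complex] at h2
    exact absurd h2 (not_le.2 Cardinal.aleph0_lt_continuum)
  have := Fintype.ofFinite J
  obtain ⟨f⟩ : Nonempty (J ↪ ι) := by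
    let e := Infinite.natEmbedding ι
    exact ⟨(Fintype.equivFin J).toEmbedding.trans (Fin.valEmbedding.trans e)⟩
  exact ⟨v ∘ f, hv.1.comp f f.injective⟩

/-- derivations with prescribed values at algebraically independent elements -/
theorem exists_der (K : Subfield ℂ) {J : Type} (p : J → ℂ) (hp : AlgebraicIndependent K p) (a : J → ℂ) :
    ∃ D : Derivation K ℂ ℂ, ∀ j, D (p j) = a j := by
  let _ : Algebra (MvPolynomial J K) ℂ := (MvPolynomial.aeval (R := K) p).toRingHom.toAlgebra
  have hst : IsScalarTower K (MvPolynomial J K) ℂ := by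
    apply IsScalarTower.of_algebraMap_eq
    intro x
    show algebraMap K ℂ x = MvPolynomial.aeval p (algebraMap K (MvPolynomial J K) x)
    rw [AlgHom.commutes]
  have hinj : Function.Injective (algebraMap (MvPolynomial J K) ℂ) := hp
  obtain ⟨D, hD⟩ := Pool.Agent.helper82.Sch.ext_der hinj (MvPolynomial.mkDerivation K a)
  refine ⟨D, fun j => ?_⟩
  have h1 : algebraMap (MvPolynomial J K) ℂ (MvPolynomial.X j) = p j := by
    show MvPolynomial.aeval p (MvPolynomial.X j) = p j
    simp
  rw [← h1, hD, MvPolynomial.mkDerivation_X]

/-- the same with an additional element `t`, transcendental over the family -/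
theorem exists_der_option (K K1 : Subfield ℂ) (hK : K ≤ K1) {J : Type} (p : J → ℂ)
    (hp : AlgebraicIndependent K p) (hp1 : ∀ j, p j ∈ K1) (t : ℂ) (ht : ¬ IsAlgebraic K1 t) (a : J → ℂ) :
    ∃ D : Derivation K ℂ ℂ, D t = 0 ∧ ∀ j, D (p j) = a j := by
  have hnt : Transcendental (Algebra.adjoin K (Set.range p)) t := by
    intro hal
    apply ht
    -- the adjoin is contained in `K1`
    let i1 : Algebra K K1 := (Subfield.inclusion hK).toAlgebra
    have hle : ∀ x ∈ Algebra.adjoin K (Set.range p), x ∈ K1 := by
      intro x hx
      induction hx using Algebra.adjoin_induction with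
      | mem x hx =>
        obtain ⟨j, rfl⟩ := hx
        exact hp1 j
      | algebraMap r => exact hK r.2
      | add x y _ _ hx hy => exact K1.add_mem hx hy
      | mul x y _ _ hx hy => exact K1.mul_mem hx hy
    obtain ⟨q, hq0, hq⟩ := hal
    let φ : Algebra.adjoin K (Set.range p) →+* K1 :=
      { toFun := fun x => ⟨x.1, hle x.1 x.2⟩
        map_one' := rfl
        map_mul' := fun x y => rfl
        map_zero' := rfl
        map_add' := fun x y => rfl }
    have hφ : Function.Injective φ := by
      intro x y hxy
      apply Subtype.ext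
      have := congrArg (fun z : K1 => (z : ℂ)) hxy
      exact this
    refine ⟨q.map φ, ?_, ?_⟩
    · rw [Ne, Polynomial.map_eq_zero_iff hφ]
      exact hq0
    · rw [Polynomial.aeval_def, Polynomial.eval₂_map]
      rw [Polynomial.aeval_def] at hq
      exact hq
  have hopt := (hp.option_iff_transcendental t).2 hnt
  obtain ⟨D, hD⟩ := exists_der K (fun o : Option J => o.elim t p) hopt (fun o => o.elim 0 a)
  exact ⟨D, hD none, fun j => hD (some j)⟩

theorem der_mem {K : Subfield ℂ} (D : Derivation K ℂ ℂ) {a : ℂ} (ha : a ∈ K) : D a = 0 :=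
  D.map_algebraMap (⟨a, ha⟩ : K)

theorem der_lin {K : Subfield ℂ} (D : Derivation K ℂ ℂ) {ι : Type} [Fintype ι] {L : Vc ι → Vc ι}
    (hL : Lin L) (hK : RatL K L) (x : Vc ι) :
    (fun i => D (L x i)) = L (fun i => D (x i)) := by
  classical
  funext i
  rw [hL.expand x i, hL.expand (fun i => D (x i)) i, map_sum]
  refine sum_congr rfl fun j _ => ?_
  rw [Derivation.leibniz, der_mem D (hK _ (rat_single K j) i), smul_eq_mul, smul_eq_mul]
  ring

theorem der_bil {K : Subfield ℂ} (D : Derivation K ℂ ℂ) {ι : Type} [Fintype ι] {B : Vc ι → Vc ι → Vc ι}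
    (hB : Bil B) (hK : RatB K B) (x y : Vc ι) :
    (fun i => D (B x y i)) = B (fun i => D (x i)) y + B x (fun i => D (y i)) := by
  classical
  funext i
  rw [Pi.add_apply, hB.expand x y i, hB.expand (fun i => D (x i)) y i,
    hB.expand x (fun i => D (y i)) i, map_sum, ← sum_add_distrib]
  refine sum_congr rfl fun j _ => ?_
  rw [map_sum, ← sum_add_distrib]
  refine sum_congr rfl fun k _ => ?_
  rw [Derivation.leibniz, der_mem D (hK _ _ (rat_single K j) (rat_single K k) i),
    Derivation.leibniz, smul_eq_mul, smul_eq_mul, smul_eq_mul, smul_eq_mul]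
  ring

theorem der_dot {K : Subfield ℂ} (D : Derivation K ℂ ℂ) {ι : Type} [Fintype ι] (x y : Vc ι) :
    D (dot x y) = dot (fun i => D (x i)) y + dot x (fun i => D (y i)) := by
  unfold dot
  rw [map_sum, ← sum_add_distrib]
  refine sum_congr rfl fun i _ => ?_
  rw [Derivation.leibniz, smul_eq_mul, smul_eq_mul]
  ring

end EIG
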