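import Mathlib

set_option autoImplicit false

/-!
# EIG-FDefs: definitions used in the statement of the final theorem
-/

namespace EIG

open MvPolynomial LinearAlgebra.Projectivization

/-- `v` is an eigenvector of the form `f`: it is nonzero and all the `2 × 2` minors of the matrix with rows
`x` and `∇f` vanish at `v`. -/
def IsEigenvector {N : ℕ} (f : MvPolynomial (Fin N) ℂ) (v : Fin N → ℂ) : Prop :=
  v ≠ 0 ∧ ∀ i j, v i * eval v (pderiv j f) - v j * eval v (pderiv i f) = 0

/-- the closed points of the eigenscheme `X_f` in projective space -/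
def eigenpoints {N : ℕ} (f : MvPolynomial (Fin N) ℂ) : Set (ℙ ℂ (Fin N → ℂ)) :=
  {P | IsEigenvector f P.rep}

/-- derivative at `v` in the direction `y` of the minor of the columns `i`, `j` -/
noncomputable def dminor {N : ℕ} (f : MvPolynomial (Fin N) ℂ) (v y : Fin N → ℂ) (i j : Fin N) : ℂ :=
  y i * eval v (pderiv j f) + v i * (∑ k, y k * eval v (pderiv k (pderiv j f))) -
    (y j * eval v (pderiv i f) + v j * (∑ k, y k * eval v (pderiv k (pderiv i f))))

/-- The eigenscheme is reduced at the closed point `[v]` (for an eigenvector `v`): its Zariski tangent space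
there is zero, i.e. the derivatives of all minors at `v` vanish only in the direction of `v`. -/
def IsReducedAt {N : ℕ} (f : MvPolynomial (Fin N) ℂ) (v : Fin N → ℂ) : Prop :=
  ∀ y : Fin N → ℂ, (∀ i j, dminor f v y i j = 0) → ∃ c : ℂ, y = c • v

end EIG
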