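import Pool.Agent.helper62.EIG.Loc

set_option autoImplicit false
set_option linter.unusedSectionVars false

/-!
# EIG-Fam: the number of zeros of a quadratic map is locally constant along a line

`Bt B0 B1 t = (1 - t) B0 + t B1` etc. PROOF of `good_eventually`: apply `ncard_eventually_eq` to
`F (t, x) = Bt t x x + Lt t x + ct t`. (`F` is a polynomial map: expand by `Bil.expand`, `Lin.expand` coordinatewise
(`contDiff_pi`), `fun_prop`.) The derivative in the direction `(0, y)` at `(t0, x)` is `2 Bt t0 x y + Lt t0 y`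
(e.g. the derivative of `s ↦ F (t0, x + s y) = F (t0, x) + s (2 Bt x y + Lt y) + s² Bt y y`), so (b) is `Good.nd`.
(a): on the unit sphere (compact) `‖Bt t0 x x‖` has a positive minimum `2 δ` by `Good.inf` (if the sphere is empty,
`Vc ι` is trivial, everything is clear); for `t` near `t0`, `‖Bt t x x‖ ≥ δ` for all unit vectors `x`
(`IsCompact.eventually_forall_of_forall_eventually`, or `‖Bt t x x - Bt t0 x x‖ ≤ |t - t0| C`), so
`‖Bt t x x‖ ≥ δ ‖x‖²` for all `x`, and `‖Lt t x‖ ≤ C ‖x‖`, `‖ct t‖ ≤ C` for `|t - t0| ≤ 1`. A zero `x` satisfies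
`δ ‖x‖² ≤ C ‖x‖ + C`, so `‖x‖ ≤ max 1 (2 C / δ)`.
-/

namespace EIG

open Finset Topology Filter

variable {ι : Type} [Fintype ι]

/-- the line through two bilinear maps -/
def Bt (B0 B1 : Vc ι → Vc ι → Vc ι) (t : ℂ) (x y : Vc ι) : Vc ι := (1 - t) • B0 x y + t • B1 x y

/-- the line through two linear maps -/
def Lt (L0 L1 : Vc ι → Vc ι) (t : ℂ) (x : Vc ι) : Vc ι := (1 - t) • L0 x + t • L1 x

/-- the line through two vectors -/
def ct (c0 c1 : Vc ι) (t : ℂ) : Vc ι := (1 - t) • c0 + t • c1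

theorem bil_Bt {B0 B1 : Vc ι → Vc ι → Vc ι} (h0 : Bil B0) (h1 : Bil B1) (t : ℂ) : Bil (Bt B0 B1 t) where
  add x y z := by
    simp only [Bt, h0.add, h1.add, smul_add]
    abel
  smul c x y := by
    simp only [Bt, h0.smul, h1.smul, smul_add]
    rw [smul_comm c, smul_comm c]
  comm x y := by simp only [Bt, h0.comm x, h1.comm x]

theorem lin_Lt {L0 L1 : Vc ι → Vc ι} (h0 : Lin L0) (h1 : Lin L1) (t : ℂ) : Lin (Lt L0 L1 t) where
  add x y := by
    simp only [Lt, h0.add, h1.add, smul_add]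
    abel
  smul c x := by
    simp only [Lt, h0.smul, h1.smul, smul_add]
    rw [smul_comm c, smul_comm c]

/-! ### lemmas for `good_eventually` -/

theorem fam_contDiff_bil {B : Vc ι → Vc ι → Vc ι} (hB : Bil B) : ContDiff ℂ 1 (fun x : Vc ι => B x x) := by
  classical
  rw [contDiff_pi]
  intro i
  have h : (fun x : Vc ι => B x x i) =
      fun x : Vc ι => ∑ j, ∑ k, x j * x k * B (Pi.single j 1) (Pi.single k 1) i := by
    funext x
    exact hB.expand x x i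
  rw [h]
  fun_prop

theorem fam_contDiff_lin {L : Vc ι → Vc ι} (hL : Lin L) : ContDiff ℂ 1 L := by
  classical
  rw [contDiff_pi]
  intro i
  have h : (fun x : Vc ι => L x i) = fun x : Vc ι => ∑ j, x j * L (Pi.single j 1) i := by
    funext x
    exact hL.expand x i
  rw [h]
  fun_prop

theorem fam_contDiff_Bt {B0 B1 : Vc ι → Vc ι → Vc ι} (h0 : Bil B0) (h1 : Bil B1) :
    ContDiff ℂ 1 (fun p : ℂ × Vc ι => Bt B0 B1 p.1 p.2 p.2) := by
  unfold Bt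
  have e0 := (fam_contDiff_bil h0).comp (contDiff_snd : ContDiff ℂ 1 (Prod.snd : ℂ × Vc ι → Vc ι))
  have e1 := (fam_contDiff_bil h1).comp (contDiff_snd : ContDiff ℂ 1 (Prod.snd : ℂ × Vc ι → Vc ι))
  have f0 : ContDiff ℂ 1 (fun p : ℂ × Vc ι => (1 : ℂ) - p.1) := contDiff_const.sub contDiff_fst
  exact (f0.smul e0).add (contDiff_fst.smul e1)

theorem fam_contDiff_Lt {L0 L1 : Vc ι → Vc ι} (h0 : Lin L0) (h1 : Lin L1) :
    ContDiff ℂ 1 (fun p : ℂ × Vc ι => Lt L0 L1 p.1 p.2) := by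
  unfold Lt
  have e0 := (fam_contDiff_lin h0).comp (contDiff_snd : ContDiff ℂ 1 (Prod.snd : ℂ × Vc ι → Vc ι))
  have e1 := (fam_contDiff_lin h1).comp (contDiff_snd : ContDiff ℂ 1 (Prod.snd : ℂ × Vc ι → Vc ι))
  have f0 : ContDiff ℂ 1 (fun p : ℂ × Vc ι => (1 : ℂ) - p.1) := contDiff_const.sub contDiff_fst
  exact (f0.smul e0).add (contDiff_fst.smul e1)

theorem fam_contDiff_ct (c0 c1 : Vc ι) : ContDiff ℂ 1 (fun p : ℂ × Vc ι => ct c0 c1 p.1) := by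
  unfold ct
  have f0 : ContDiff ℂ 1 (fun p : ℂ × Vc ι => (1 : ℂ) - p.1) := contDiff_const.sub contDiff_fst
  exact (f0.smul contDiff_const).add (contDiff_fst.smul contDiff_const)

theorem fam_contDiff {B0 B1 : Vc ι → Vc ι → Vc ι} {L0 L1 : Vc ι → Vc ι} (c0 c1 : Vc ι)
    (hB0 : Bil B0) (hB1 : Bil B1) (hL0 : Lin L0) (hL1 : Lin L1) :
    ContDiff ℂ 1 (fun p : ℂ × Vc ι => Bt B0 B1 p.1 p.2 p.2 + Lt L0 L1 p.1 p.2 + ct c0 c1 p.1) :=
  ((fam_contDiff_Bt hB0 hB1).add (fam_contDiff_Lt hL0 hL1)).add (fam_contDiff_ct c0 c1)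

/-- the derivative in the direction `(0, y)` -/
theorem fam_fderiv {B0 B1 : Vc ι → Vc ι → Vc ι} {L0 L1 : Vc ι → Vc ι} (c0 c1 : Vc ι)
    (hB0 : Bil B0) (hB1 : Bil B1) (hL0 : Lin L0) (hL1 : Lin L1) (t0 : ℂ) (x y : Vc ι) :
    fderiv ℂ (fun p : ℂ × Vc ι => Bt B0 B1 p.1 p.2 p.2 + Lt L0 L1 p.1 p.2 + ct c0 c1 p.1) (t0, x) (0, y) =
      (2 : ℂ) • Bt B0 B1 t0 x y + Lt L0 L1 t0 y := by
  set F : ℂ × Vc ι → Vc ι := fun p => Bt B0 B1 p.1 p.2 p.2 + Lt L0 L1 p.1 p.2 + ct c0 c1 p.1 with hF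
  have hd : DifferentiableAt ℂ F (t0, x) :=
    ((fam_contDiff c0 c1 hB0 hB1 hL0 hL1).differentiable one_ne_zero) _
  have hl : HasDerivAt (fun s : ℂ => ((t0, x + s • y) : ℂ × Vc ι)) (0, y) 0 := by
    have h1 : HasDerivAt (fun _ : ℂ => t0) 0 0 := hasDerivAt_const _ _
    have h2 : HasDerivAt (fun s : ℂ => x + s • y) y 0 := by
      have := ((hasDerivAt_id (0 : ℂ)).smul_const y).const_add x
      simpa using this
    exact h1.prodMk h2
  have hx : ((t0, x) : ℂ × Vc ι) = (t0, x + (0 : ℂ) • y) := by rw [zero_smul, add_zero]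
  have hc : HasDerivAt (fun s : ℂ => F (t0, x + s • y)) (fderiv ℂ F (t0, x) (0, y)) 0 := by
    have hd' : HasFDerivAt F (fderiv ℂ F (t0, x)) (t0, x + (0 : ℂ) • y) := by
      rw [← hx]
      exact hd.hasFDerivAt
    exact hd'.comp_hasDerivAt (0 : ℂ) hl
  have hB := bil_Bt hB0 hB1 t0
  have hL := lin_Lt hL0 hL1 t0
  have he : (fun s : ℂ => F (t0, x + s • y)) = fun s : ℂ => F (t0, x) +
      s • ((2 : ℂ) • Bt B0 B1 t0 x y + Lt L0 L1 t0 y) + s ^ 2 • Bt B0 B1 t0 y y := by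
    funext s
    simp only [hF, hB.add, hB.add', hB.smul, hB.smul', hL.add, hL.smul, hB.comm y x]
    module
  rw [he] at hc
  have h3 : HasDerivAt (fun s : ℂ => F (t0, x) +
      s • ((2 : ℂ) • Bt B0 B1 t0 x y + Lt L0 L1 t0 y) + s ^ 2 • Bt B0 B1 t0 y y)
      ((2 : ℂ) • Bt B0 B1 t0 x y + Lt L0 L1 t0 y) 0 := by
    have a1 := ((hasDerivAt_id (0 : ℂ)).smul_const ((2 : ℂ) • Bt B0 B1 t0 x y + Lt L0 L1 t0 y)).const_add (F (t0, x))
    have a2 := ((hasDerivAt_pow 2 (0 : ℂ)).smul_const (Bt B0 B1 t0 y y))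
    refine HasDerivAt.congr_deriv (a1.add a2) ?_
    simp
  exact hc.unique h3

/-- zeros stay bounded -/
theorem fam_bound {B0 B1 : Vc ι → Vc ι → Vc ι} {L0 L1 : Vc ι → Vc ι} (c0 c1 : Vc ι)
    (hB0 : Bil B0) (hB1 : Bil B1) (hL0 : Lin L0) (hL1 : Lin L1) (t0 : ℂ)
    (h : ∀ x, Bt B0 B1 t0 x x = 0 → x = 0) :
    ∃ R : ℝ, ∀ᶠ t in 𝓝 t0, ∀ x, Bt B0 B1 t x x + Lt L0 L1 t x + ct c0 c1 t = 0 → ‖x‖ ≤ R := by
  have hBc : Continuous (fun p : ℂ × Vc ι => ‖Bt B0 B1 p.1 p.2 p.2‖) :=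
    (fam_contDiff_Bt hB0 hB1).continuous.norm
  have hLc : Continuous (fun p : ℂ × Vc ι => ‖Lt L0 L1 p.1 p.2‖) :=
    (fam_contDiff_Lt hL0 hL1).continuous.norm
  have hcc : Continuous (fun p : ℂ × Vc ι => ‖ct c0 c1 p.1‖) :=
    (fam_contDiff_ct c0 c1).continuous.norm
  have hS : IsCompact (Metric.sphere (0 : Vc ι) 1) := isCompact_sphere 0 1
  obtain ⟨a, ha0, ha⟩ := hS.exists_forall_le' (f := fun u => ‖Bt B0 B1 t0 u u‖) (a := (0 : ℝ))
    ((hBc.comp (Continuous.prodMk continuous_const continuous_id)).continuousOn) (by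
      intro u hu
      have : u ≠ 0 := by
        rintro rfl
        simp at hu
      exact norm_pos_iff.2 fun h0 => this (h u h0))
  have hev : ∀ᶠ t in 𝓝 t0, ∀ u ∈ Metric.sphere (0 : Vc ι) 1, a / 2 < ‖Bt B0 B1 t u u‖ := by
    refine hS.eventually_forall_of_forall_eventually (P := fun t u => a / 2 < ‖Bt B0 B1 t u u‖) ?_
    intro u hu
    have h1 : a / 2 < (fun p : ℂ × Vc ι => ‖Bt B0 B1 p.1 p.2 p.2‖) (t0, u) := by
      have := ha u hu
      simp only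
      linarith
    exact hBc.continuousAt.eventually_const_lt h1
  have hK : IsCompact (Metric.closedBall t0 1 ×ˢ Metric.sphere (0 : Vc ι) 1) :=
    (isCompact_closedBall t0 1).prod hS
  obtain ⟨C, hC⟩ := hK.exists_bound_of_continuousOn (f := fun p : ℂ × Vc ι => ‖Lt L0 L1 p.1 p.2‖ + ‖ct c0 c1 p.1‖)
    (hLc.add hcc).continuousOn
  refine ⟨max 1 (4 * C / a), ?_⟩
  filter_upwards [hev, Metric.closedBall_mem_nhds t0 one_pos] with t ht1 ht2 x hx
  by_cases hx1 : ‖x‖ ≤ 1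
  · exact le_max_of_le_left hx1
  · push Not at hx1
    refine le_max_of_le_right ?_
    have hr : 0 < ‖x‖ := by linarith
    set r : ℝ := ‖x‖ with hrdef
    set u : Vc ι := ((r : ℂ)⁻¹) • x with hu
    have hrC : (r : ℂ) ≠ 0 := by exact_mod_cast hr.ne'
    have hxu : x = (r : ℂ) • u := by
      rw [hu, smul_smul, mul_inv_cancel₀ hrC, one_smul]
    have hun : u ∈ Metric.sphere (0 : Vc ι) 1 := by
      rw [mem_sphere_zero_iff_norm, hu, norm_smul, norm_inv, Complex.norm_real, Real.norm_of_nonneg hr.le,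
        ← hrdef, inv_mul_cancel₀ hr.ne']
    have hB := bil_Bt hB0 hB1 t
    have hL := lin_Lt hL0 hL1 t
    have e1 : Bt B0 B1 t x x = ((r : ℂ) ^ 2) • Bt B0 B1 t u u := by
      rw [hxu, hB.smul, hB.smul', smul_smul, pow_two]
    have e2 : Lt L0 L1 t x = (r : ℂ) • Lt L0 L1 t u := by
      rw [hxu, hL.smul]
    have e3 : ((r : ℂ) ^ 2) • Bt B0 B1 t u u = -((r : ℂ) • Lt L0 L1 t u + ct c0 c1 t) := by
      rw [← e1, ← e2, eq_neg_iff_add_eq_zero, ← add_assoc]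
      exact hx
    have e4 : r ^ 2 * ‖Bt B0 B1 t u u‖ ≤ r * ‖Lt L0 L1 t u‖ + ‖ct c0 c1 t‖ := by
      have h5 : ‖((r : ℂ) ^ 2) • Bt B0 B1 t u u‖ = r ^ 2 * ‖Bt B0 B1 t u u‖ := by
        rw [norm_smul, norm_pow, Complex.norm_real, Real.norm_of_nonneg hr.le]
      have h6 : ‖(r : ℂ) • Lt L0 L1 t u‖ = r * ‖Lt L0 L1 t u‖ := by
        rw [norm_smul, Complex.norm_real, Real.norm_of_nonneg hr.le]
      rw [← h5, e3, norm_neg, ← h6]
      exact norm_add_le _ _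
    have e5 : ‖Lt L0 L1 t u‖ + ‖ct c0 c1 t‖ ≤ C := by
      have := hC (t, u) ⟨ht2, hun⟩
      simp only at this
      exact (Real.le_norm_self _).trans this
    have e6 := ht1 u hun
    have e7 : r * ‖Lt L0 L1 t u‖ + ‖ct c0 c1 t‖ ≤ r * C := by
      have : ‖ct c0 c1 t‖ ≤ r * ‖ct c0 c1 t‖ := le_mul_of_one_le_left (norm_nonneg _) hx1.le
      nlinarith
    have e8 : r ^ 2 * (a / 2) ≤ r * C := by
      have : r ^ 2 * (a / 2) ≤ r ^ 2 * ‖Bt B0 B1 t u u‖ := mul_le_mul_of_nonneg_left e6.le (by positivity)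
      linarith
    have e9 : r * (a / 2) ≤ C := by
      have : r * (r * (a / 2)) ≤ r * C := by linarith [e8, pow_two r]
      exact le_of_mul_le_mul_left this hr
    have hC0 : 0 ≤ C := le_trans (by positivity) e5
    rw [le_div_iff₀ ha0]
    linarith

theorem good_eventually {B0 B1 : Vc ι → Vc ι → Vc ι} {L0 L1 : Vc ι → Vc ι} {c0 c1 : Vc ι}
    (hB0 : Bil B0) (hB1 : Bil B1) (hL0 : Lin L0) (hL1 : Lin L1) (t0 : ℂ)
    (h : Good (Bt B0 B1 t0) (Lt L0 L1 t0) (ct c0 c1 t0)) :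
    ∀ᶠ t in 𝓝 t0, (Zer (Bt B0 B1 t) (Lt L0 L1 t) (ct c0 c1 t)).Finite ∧
      (Zer (Bt B0 B1 t) (Lt L0 L1 t) (ct c0 c1 t)).ncard =
        (Zer (Bt B0 B1 t0) (Lt L0 L1 t0) (ct c0 c1 t0)).ncard := by
  refine ncard_eventually_eq
    (fun p : ℂ × Vc ι => Bt B0 B1 p.1 p.2 p.2 + Lt L0 L1 p.1 p.2 + ct c0 c1 p.1)
    (fam_contDiff c0 c1 hB0 hB1 hL0 hL1) t0 (fam_bound c0 c1 hB0 hB1 hL0 hL1 t0 h.inf) ?_
  intro x hx y hy
  rw [fam_fderiv c0 c1 hB0 hB1 hL0 hL1 t0 x y] at hy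
  exact h.nd x hx y hy

end EIG
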