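import Pool.Agent.helper62.EIG.Der
import Pool.Agent.helper62.EIG.Fam

set_option autoImplicit false
set_option linter.unusedSectionVars false

/-!
# EIG-Gen: generic quadratic maps are good

`J = (ι × ι × ι) ⊕ (ι × ι) ⊕ ι` indexes the coefficients of a quadratic map, `Bp p`, `Lp p`, `cp p` its parts.

PROOF of `good_of_der`. Write `F x = Bt x x + Lt x + ct` at `t`, `M y = 2 Bt x y + Lt y` (linear in `y`).
* `nd`: suppose `F x = 0`, `M y = 0`, `y ≠ 0`. The endomorphism `M` of `Vc ι` is not injective, so its matrix has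
  a nonzero left null vector `z`: `z ≠ 0` and `dot z (M v) = 0` for all `v` (`Matrix.exists_vecMul_eq_zero_iff`,
  `Matrix.exists_mulVec_eq_zero_iff`; separate lemma `exists_left_null`). For `a : Vc ι` take `D` with `D t = 0`, `D (p (inr (inr i))) = a i`
  and `D = 0` on the other coefficients. Apply `D` to the coordinates of `F x = 0`: `M (D x) + t • a = 0` (`der_bil`,
  `der_lin` for the `K`-rational `B0, L0`; directly from the definition for `Bp p`, `Lp p` whose
  coefficients are killed by `D`). Take `dot z`: `t * dot z a = 0` for all `a`, so `z = 0`: contradiction.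
* `inf`: suppose `Bt x x = 0`, `x ≠ 0`, say `x j0 ≠ 0`. `N v = 2 Bt x v` is linear with `N x = 0`, so there is `z ≠ 0`
  with `dot z (N v) = 0` for all `v`. For `a` take `D` with `D t = 0`, `D (p (inl (i, j0, j0))) = a i` and `D = 0` on the other
  coefficients. Then `0 = D (Bt x x i) = N (D x) i + t * a i * x j0 ^ 2`, so `t * x j0 ^ 2 * dot z a = 0` for all `a`:
  contradiction.
-/

namespace EIG

open Finset

variable {ι : Type} [Fintype ι]

/-- index set of the coefficients -/
abbrev JJ (ι : Type) : Type := (ι × ι × ι) ⊕ (ι × ι) ⊕ ι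

/-- quadratic part -/
noncomputable def Bp (p : JJ ι → ℂ) (x y : Vc ι) : Vc ι :=
  fun i => ∑ j, ∑ k, p (Sum.inl (i, j, k)) * ((x j * y k + y j * x k) / 2)

/-- linear part -/
def Lp (p : JJ ι → ℂ) (x : Vc ι) : Vc ι := fun i => ∑ j, p (Sum.inr (Sum.inl (i, j))) * x j

/-- constant part -/
def cp (p : JJ ι → ℂ) : Vc ι := fun i => p (Sum.inr (Sum.inr i))

theorem bil_Bp (p : JJ ι → ℂ) : Bil (Bp p) where
  add x y z := by
    funext i
    simp only [Bp, Pi.add_apply]
    rw [← sum_add_distrib]
    refine sum_congr rfl fun j _ => ?_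
    rw [← sum_add_distrib]
    refine sum_congr rfl fun k _ => ?_
    ring
  smul c x y := by
    funext i
    simp only [Bp, Pi.smul_apply, smul_eq_mul, mul_sum]
    refine sum_congr rfl fun j _ => sum_congr rfl fun k _ => ?_
    ring
  comm x y := by
    funext i
    simp only [Bp]
    refine sum_congr rfl fun j _ => sum_congr rfl fun k _ => ?_
    ring

theorem lin_Lp (p : JJ ι → ℂ) : Lin (Lp p) where
  add x y := by
    funext i
    simp only [Lp, Pi.add_apply]
    rw [← sum_add_distrib]
    refine sum_congr rfl fun j _ => ?_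
    ring
  smul c x := by
    funext i
    simp only [Lp, Pi.smul_apply, smul_eq_mul, mul_sum]
    refine sum_congr rfl fun j _ => ?_
    ring

/-- a non-injective linear map has a nonzero left null vector -/
theorem exists_left_null {M : Vc ι → Vc ι} (hM : Lin M) {y : Vc ι} (hy : y ≠ 0) (h : M y = 0) :
    ∃ z : Vc ι, z ≠ 0 ∧ ∀ v, dot z (M v) = 0 := by
  classical
  let φ : Vc ι →ₗ[ℂ] Vc ι := { toFun := M, map_add' := hM.add, map_smul' := fun c x => by simpa using hM.smul c x }
  have hφ : ∀ v, (LinearMap.toMatrix' φ).mulVec v = M v := fun v => by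
    rw [LinearMap.toMatrix'_mulVec]
    rfl
  have hdet : (LinearMap.toMatrix' φ).det = 0 :=
    Matrix.exists_mulVec_eq_zero_iff.1 ⟨y, hy, by rw [hφ, h]⟩
  obtain ⟨z, hz, hz0⟩ := Matrix.exists_vecMul_eq_zero_iff.2 hdet
  refine ⟨z, hz, fun v => ?_⟩
  have h1 : dot z (M v) = z ⬝ᵥ ((LinearMap.toMatrix' φ).mulVec v) := by
    rw [hφ]
    rfl
  rw [h1, Matrix.dotProduct_mulVec, hz0, zero_dotProduct]

theorem gen_der_const {K : Subfield ℂ} (D : Derivation K ℂ ℂ) (u v : ℂ) (hu : D u = 0) : D (u * v) = u * D v := by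
  rw [Derivation.leibniz, hu, smul_zero, add_zero, smul_eq_mul]

theorem gen_der_half {K : Subfield ℂ} (D : Derivation K ℂ ℂ) (u : ℂ) : D (u / 2) = D u / 2 := by
  have h2 : (2 : ℂ)⁻¹ ∈ K := K.inv_mem (by exact_mod_cast natCast_mem K 2)
  rw [div_eq_inv_mul, gen_der_const D _ _ (der_mem D h2), div_eq_inv_mul]

theorem gen_der_Bp {K : Subfield ℂ} (D : Derivation K ℂ ℂ) (p : JJ ι → ℂ) (x y : Vc ι) (i : ι) :
    D (Bp p x y i) = Bp (fun j => D (p j)) x y i + Bp p (fun i => D (x i)) y i +
      Bp p x (fun i => D (y i)) i := by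
  simp only [Bp]
  rw [map_sum, ← sum_add_distrib, ← sum_add_distrib]
  refine sum_congr rfl fun j _ => ?_
  rw [map_sum, ← sum_add_distrib, ← sum_add_distrib]
  refine sum_congr rfl fun k _ => ?_
  rw [Derivation.leibniz, gen_der_half, map_add, Derivation.leibniz, Derivation.leibniz]
  simp only [smul_eq_mul]
  ring

theorem gen_der_Lp {K : Subfield ℂ} (D : Derivation K ℂ ℂ) (p : JJ ι → ℂ) (x : Vc ι) (i : ι) :
    D (Lp p x i) = Lp (fun j => D (p j)) x i + Lp p (fun i => D (x i)) i := by
  simp only [Lp]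
  rw [map_sum, ← sum_add_distrib]
  refine sum_congr rfl fun j _ => ?_
  rw [Derivation.leibniz]
  simp only [smul_eq_mul]
  ring

/-- derivative of the quadratic part -/
theorem gen_der_Bt {K : Subfield ℂ} {B0 : Vc ι → Vc ι → Vc ι} (hB0 : Bil B0) (hBK : RatB K B0)
    (p : JJ ι → ℂ) (t : ℂ) (D : Derivation K ℂ ℂ) (hD : D t = 0) (x : Vc ι) (i : ι) :
    D (Bt B0 (Bp p) t x x i) = 2 * Bt B0 (Bp p) t x (fun i => D (x i)) i +
      t * Bp (fun j => D (p j)) x x i := by
  have h1 : D (1 - t) = 0 := by rw [map_sub, hD, sub_zero, Derivation.map_one_eq_zero]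
  have h2 : D (B0 x x i) = 2 * B0 x (fun i => D (x i)) i := by
    have := congrFun (der_bil D hB0 hBK x x) i
    rw [this, hB0.comm (fun i => D (x i)) x, Pi.add_apply]
    ring
  have h3 : D (Bp p x x i) = Bp (fun j => D (p j)) x x i + 2 * Bp p x (fun i => D (x i)) i := by
    rw [gen_der_Bp, (bil_Bp p).comm (fun i => D (x i)) x]
    ring
  simp only [Bt, Pi.add_apply, Pi.smul_apply, smul_eq_mul]
  rw [map_add, gen_der_const D _ _ h1, gen_der_const D _ _ hD, h2, h3]
  ring

theorem good_of_der {K : Subfield ℂ} {B0 : Vc ι → Vc ι → Vc ι} {L0 : Vc ι → Vc ι} {c0 : Vc ι}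
    (hB0 : Bil B0) (hL0 : Lin L0) (hBK : RatB K B0) (hLK : RatL K L0) (hcK : Rat K c0)
    (p : JJ ι → ℂ) (t : ℂ) (ht : t ≠ 0)
    (hder : ∀ a : JJ ι → ℂ, ∃ D : Derivation K ℂ ℂ, D t = 0 ∧ ∀ j, D (p j) = a j) :
    Good (Bt B0 (Bp p) t) (Lt L0 (Lp p) t) (ct c0 (cp p) t) := by
  classical
  have hBt : Bil (Bt B0 (Bp p) t) := bil_Bt hB0 (bil_Bp p) t
  have hLt : Lin (Lt L0 (Lp p) t) := lin_Lt hL0 (lin_Lp p) t
  refine ⟨fun x hx => ?_, fun x hx y hy => ?_⟩
  · by_contra hx0
    obtain ⟨j0, hj0⟩ : ∃ j0, x j0 ≠ 0 := by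
      by_contra hcon
      push Not at hcon
      exact hx0 (funext hcon)
    have hN : Lin (fun v => (2 : ℂ) • Bt B0 (Bp p) t x v) :=
      ⟨fun v w => by simp only [hBt.add', smul_add], fun c v => by
        simp only [hBt.smul']
        rw [smul_comm]⟩
    obtain ⟨z, hz, hz0⟩ := exists_left_null hN hx0 (by simp only [hx, smul_zero])
    apply hz
    apply eq_zero_of_dot
    intro a
    obtain ⟨D, hDt, hD⟩ := hder (Sum.elim (fun q => if q.2.1 = j0 ∧ q.2.2 = j0 then a q.1 else 0) (fun _ => 0))
    have hB1 : ∀ i, Bp (fun j => D (p j)) x x i = a i * (x j0 * x j0) := by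
      intro i
      simp only [Bp, hD, Sum.elim_inl]
      rw [sum_eq_single j0, sum_eq_single j0]
      · rw [if_pos ⟨rfl, rfl⟩]
        ring
      · intro k _ hk
        rw [if_neg (fun h => hk h.2), zero_mul]
      · intro h
        exact absurd (mem_univ _) h
      · intro j _ hj
        refine sum_eq_zero fun k _ => ?_
        rw [if_neg (fun h => hj h.1), zero_mul]
      · intro h
        exact absurd (mem_univ _) h
    have key : ∀ i, 2 * Bt B0 (Bp p) t x (fun i => D (x i)) i + t * (a i * (x j0 * x j0)) = 0 := by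
      intro i
      have h1 := gen_der_Bt hB0 hBK p t D hDt x i
      rw [hx, Pi.zero_apply, map_zero, hB1] at h1
      exact h1.symm
    have h2 := hz0 (fun i => D (x i))
    have h3 : (2 : ℂ) • Bt B0 (Bp p) t x (fun i => D (x i)) = (-(t * (x j0 * x j0))) • a := by
      funext i
      simp only [Pi.smul_apply, smul_eq_mul]
      linear_combination key i
    simp only [h3] at h2
    rw [dot_smul, mul_eq_zero] at h2
    rcases h2 with h2 | h2
    · exfalso
      rw [neg_eq_zero, mul_eq_zero, mul_eq_zero] at h2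
      rcases h2 with h2 | h2 | h2
      · exact ht h2
      · exact hj0 h2
      · exact hj0 h2
    · rw [dot_comm]
      exact h2
  · by_contra hy0
    have hM : Lin (fun v => (2 : ℂ) • Bt B0 (Bp p) t x v + Lt L0 (Lp p) t v) :=
      ⟨fun v w => by
        simp only [hBt.add', hLt.add, smul_add]
        abel, fun c v => by
        simp only [hBt.smul', hLt.smul, smul_add]
        rw [smul_comm]⟩
    obtain ⟨z, hz, hz0⟩ := exists_left_null hM hy0 hy
    apply hz
    apply eq_zero_of_dot
    intro a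
    obtain ⟨D, hDt, hD⟩ := hder (Sum.elim (fun _ => 0) (Sum.elim (fun _ => 0) a))
    have hB1 : ∀ i, Bp (fun j => D (p j)) x x i = 0 := by
      intro i
      simp only [Bp, hD, Sum.elim_inl, zero_mul, sum_const_zero]
    have hL1 : ∀ i, Lp (fun j => D (p j)) x i = 0 := by
      intro i
      simp only [Lp, hD, Sum.elim_inr, Sum.elim_inl, zero_mul, sum_const_zero]
    have h1t : D (1 - t) = 0 := by rw [map_sub, hDt, sub_zero, Derivation.map_one_eq_zero]
    have key : ∀ i, 2 * Bt B0 (Bp p) t x (fun i => D (x i)) i + Lt L0 (Lp p) t (fun i => D (x i)) i + t * a i = 0 := by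
      intro i
      have e1 := gen_der_Bt hB0 hBK p t D hDt x i
      rw [hB1, mul_zero, add_zero] at e1
      have e2 : D (Lt L0 (Lp p) t x i) = Lt L0 (Lp p) t (fun i => D (x i)) i := by
        have := congrFun (der_lin D hL0 hLK x) i
        simp only [Lt, Pi.add_apply, Pi.smul_apply, smul_eq_mul]
        rw [map_add, gen_der_const D _ _ h1t, gen_der_const D _ _ hDt, gen_der_Lp, hL1, zero_add, this]
      have e3 : D (ct c0 (cp p) t i) = t * a i := by
        simp only [ct, Pi.add_apply, Pi.smul_apply, smul_eq_mul, cp]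
        rw [map_add, gen_der_const D _ _ h1t, gen_der_const D _ _ hDt, der_mem D (hcK i), mul_zero, zero_add, hD]
        rfl
      have e4 : Bt B0 (Bp p) t x x i + Lt L0 (Lp p) t x i + ct c0 (cp p) t i = 0 := by
        have := congrFun hx i
        simpa only [Pi.add_apply, Pi.zero_apply] using this
      have e5 := congrArg D e4
      rw [map_add, map_add, map_zero, e1, e2, e3] at e5
      exact e5
    have h2 := hz0 (fun i => D (x i))
    have h3 : (2 : ℂ) • Bt B0 (Bp p) t x (fun i => D (x i)) + Lt L0 (Lp p) t (fun i => D (x i)) = (-t) • a := by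
      funext i
      simp only [Pi.add_apply, Pi.smul_apply, smul_eq_mul]
      linear_combination key i
    simp only [h3] at h2
    rw [dot_smul, mul_eq_zero] at h2
    rcases h2 with h2 | h2
    · exfalso
      rw [neg_eq_zero] at h2
      exact ht h2
    · rw [dot_comm]
      exact h2

end EIG
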