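import Pool.Agent.helper62.EIG.Der

set_option autoImplicit false
set_option linter.unusedSectionVars false

/-!
# EIG-HGen: generic coefficients, step H

`p` is a generic vector: for every `a` there is a derivation `D` over `K` with `D p = a`; `B`, `S` and all solutions of
`B x x = S x` are rational over `K`. Put `κ = p i0`, `b = hb p i0` (`= p` with the coordinate `i0` replaced by `0`), `e = Pi.single i0 1`,
`x0 = x i0`, `b(x) = dot b x`. For `D p = a` write `κ' = D κ = a i0`, `a' = D b` (so `a' i = a i` for `i ≠ i0`, `a' i0 = 0`); so `κ'` and the coordinates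
of `a'` off `i0` are arbitrary. `D (b(x)) = dot a' x + b(Dx)`. All `p i ≠ 0`.
`HB x y = B x y - κ x0 y0 b - κ (b(x) y0 + b(y) x0) e`, `HL x = - S x + 2 κ x0 e`. So
`G(x) := HB x x + HL x = B x x - S x - κ x0² b + 2 κ (1 - b(x)) x0 e`, and
`M y := 2 HB x y + HL y = 2 B x y - S y - 2 κ x0 y0 b - 2 κ b(y) x0 e + 2 κ (1 - b(x)) y0 e`, symmetric: `dot (M y) z = dot (M z) y`.

PROOFS.
* `sol_ne_one_H`: `x` rational over `K`; if `b(x) = 1`, then `0 = D 1 = dot a' x` for all `a'` with `a' i0 = 0`, so `x i = 0` for `i ≠ i0`, so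
  `b(x) = 0`: contradiction.
* `inf_H`: let `B x x - κ x0² b - 2 κ b(x) x0 e = 0`. Take `κ' = 0`, `a'` arbitrary. `D`:
  `2 B x (Dx) - 2 κ x0 X b - κ x0² a' - 2 κ (dot a' x + b(Dx)) x0 e - 2 κ b(x) X e = 0` with `X = (Dx) i0`. `dot · x` and
  `2 dot (B x (Dx)) x = 2 dot (B x x) (Dx) = 2 κ x0² b(Dx) + 4 κ b(x) x0 X` give `- 3 κ x0² dot a' x = 0`. So `x0 = 0` or (`x i = 0` for all
  `i ≠ i0`). If `x0 = 0`: `B x x = 0`, `x = Pi.single i0 c`, `c = x0 = 0`. In the other case `x = Pi.single i0 x0 = x0 • e`, `B x x = x0² B e e = 0` (`null'`),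
  `b(x) = 0`, so `κ x0² b = 0`; `b i = p i ≠ 0` for the given `i ≠ i0`, so `x0 = 0`, `x = 0`.
(`nd_H`, `zer_ne_one_H` are in the module HGen2.)
-/

namespace EIG

open Finset

variable {ι : Type} [Fintype ι] [DecidableEq ι]

/-- `p` with the coordinate `i0` replaced by `0` -/
def hb (p : Vc ι) (i0 : ι) : Vc ι := Function.update p i0 0

/-- quadratic part of the equation of the second branch -/
def HB (B : Vc ι → Vc ι → Vc ι) (p : Vc ι) (i0 : ι) (x y : Vc ι) : Vc ι :=
  B x y - (p i0 * x i0 * y i0) • hb p i0 -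
    (p i0 * (dot (hb p i0) x * y i0 + dot (hb p i0) y * x i0)) • (Pi.single i0 (1 : ℂ) : Vc ι)

/-- linear part -/
def HL (S : Vc ι → Vc ι) (p : Vc ι) (i0 : ι) (x : Vc ι) : Vc ι :=
  -S x + (2 * p i0 * x i0) • (Pi.single i0 (1 : ℂ) : Vc ι)

theorem bil_HB {B : Vc ι → Vc ι → Vc ι} (h : Bil B) (p : Vc ι) (i0 : ι) : Bil (HB B p i0) := by
  refine ⟨fun x y z => ?_, fun c x y => ?_, fun x y => ?_⟩
  · funext i
    simp only [HB, h.add, dot_add, Pi.add_apply, Pi.sub_apply, Pi.smul_apply, smul_eq_mul]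
    ring
  · funext i
    simp only [HB, h.smul, dot_smul, Pi.sub_apply, Pi.smul_apply, smul_eq_mul]
    ring
  · funext i
    simp only [HB, h.comm x y, Pi.sub_apply, Pi.smul_apply, smul_eq_mul]
    ring

theorem lin_HL {S : Vc ι → Vc ι} (h : Lin S) (p : Vc ι) (i0 : ι) : Lin (HL S p i0) := by
  refine ⟨fun x y => ?_, fun c x => ?_⟩
  · funext i
    simp only [HL, h.add, Pi.add_apply, Pi.neg_apply, Pi.smul_apply, smul_eq_mul]
    ring
  · funext i
    simp only [HL, h.smul, Pi.add_apply, Pi.neg_apply, Pi.smul_apply, smul_eq_mul]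
    ring

/-- an injective linear map is surjective -/
theorem exists_of_inj {M : Vc ι → Vc ι} (hM : Lin M) (h : ∀ y, M y = 0 → y = 0) (z : Vc ι) :
    ∃ y, M y = z := by
  let φ : Vc ι →ₗ[ℂ] Vc ι :=
    { toFun := M, map_add' := hM.add, map_smul' := fun c x => by simpa using hM.smul c x }
  have hinj : Function.Injective φ := (injective_iff_map_eq_zero φ).mpr h
  exact (LinearMap.injective_iff_surjective.mp hinj) z

variable {B : Vc ι → Vc ι → Vc ι} {S : Vc ι → Vc ι} {i0 : ι} {I : ℕ} {K : Subfield ℂ} {p : Vc ι}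

/-- derivation of the vector `hb p i0` -/
theorem der_hb (D : Derivation K ℂ ℂ) {a : Vc ι} (hD : ∀ j, D (p j) = a j) (ha : a i0 = 0) :
    (fun i => D (hb p i0 i)) = a := by
  funext i
  by_cases hi : i = i0
  · subst hi
    rw [hb, Function.update_self, map_zero, ha]
  · rw [hb, Function.update_of_ne hi, hD]

theorem dot_hb_eq_zero {x : Vc ι} (h : ∀ i, i ≠ i0 → x i = 0) : dot (hb p i0) x = 0 := by
  unfold dot
  refine sum_eq_zero fun i _ => ?_
  by_cases hi : i = i0
  · subst hi
    rw [hb, Function.update_self, zero_mul]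
  · rw [h i hi, mul_zero]

theorem gen_ne_zero (hder : ∀ a : Vc ι, ∃ D : Derivation K ℂ ℂ, ∀ j, D (p j) = a j) (i : ι) :
    p i ≠ 0 := by
  intro h0
  obtain ⟨D, hD⟩ := hder (fun _ => 1)
  have := hD i
  rw [h0, map_zero] at this
  exact zero_ne_one this

theorem sol_ne_one_H (hsol : ∀ x, B x x = S x → Rat K x)
    (hder : ∀ a : Vc ι, ∃ D : Derivation K ℂ ℂ, ∀ j, D (p j) = a j) {x : Vc ι} (hx : B x x = S x) :
    dot (hb p i0) x ≠ 1 := by
  intro h1
  have hrat := hsol x hx
  have hz : ∀ i, i ≠ i0 → x i = 0 := by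
    intro i hi
    obtain ⟨D, hD⟩ := hder (Pi.single i 1)
    have ha : (Pi.single i (1 : ℂ) : Vc ι) i0 = 0 := Pi.single_eq_of_ne (Ne.symm hi) 1
    have e1 := der_dot D (hb p i0) x
    rw [h1, Derivation.map_one_eq_zero, der_hb D hD ha] at e1
    have e2 : (fun i => D (x i)) = (0 : Vc ι) := by
      funext j
      exact der_mem D (hrat j)
    rw [e2, dot_zero, add_zero, single_dot, one_mul] at e1
    exact e1.symm
  rw [dot_hb_eq_zero hz] at h1
  exact zero_ne_one h1

theorem inf_H (h : St B S i0 I) (hi : ∃ i, i ≠ i0) (hB : RatB K B)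
    (hder : ∀ a : Vc ι, ∃ D : Derivation K ℂ ℂ, ∀ j, D (p j) = a j) {x : Vc ι} (hx : HB B p i0 x x = 0) :
    x = 0 := by
  have hp0 : p i0 ≠ 0 := gen_ne_zero hder i0
  have hBx : B x x = (p i0 * x i0 * x i0) • hb p i0 +
      (p i0 * (dot (hb p i0) x * x i0 + dot (hb p i0) x * x i0)) • (Pi.single i0 (1 : ℂ) : Vc ι) := by
    have := hx
    rw [HB, sub_sub, sub_eq_zero] at this
    exact this
  have key : ∀ a : Vc ι, a i0 = 0 → x i0 = 0 ∨ dot a x = 0 := by
    intro a ha
    obtain ⟨D, hD⟩ := hder a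
    set y : Vc ι := fun i => D (x i) with hy
    have e1 := der_bil D h.bil hB x x
    have hDhb := der_hb (i0 := i0) D hD ha
    have hDdot : D (dot (hb p i0) x) = dot a x + dot (hb p i0) y := by
      rw [der_dot, hDhb]
    have hD0 : D (p i0) = 0 := by rw [hD, ha]
    have e2 : (fun i => D (B x x i)) = (p i0 * (2 * x i0 * y i0)) • hb p i0 + (p i0 * x i0 * x i0) • a +
        (2 * p i0 * ((dot a x + dot (hb p i0) y) * x i0 + dot (hb p i0) x * y i0)) •
          (Pi.single i0 (1 : ℂ) : Vc ι) := by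
      funext i
      have hi1 : D (hb p i0 i) = a i := congrFun hDhb i
      have hi2 : D ((Pi.single i0 (1 : ℂ) : Vc ι) i) = 0 := der_mem D (rat_single K i0 i)
      have hyi : D (x i0) = y i0 := rfl
      rw [hBx]
      simp only [Pi.add_apply, Pi.smul_apply, smul_eq_mul, map_add, Derivation.leibniz, hi1, hi2, hD0, hDdot, hyi]
      ring
    rw [e2, ← hy] at e1
    have e3 : dot _ x = dot _ x := congrArg (fun v => dot v x) e1
    have adj1 : dot (B x y) x = dot (B x x) y := h.adj x y x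
    have adj2 : dot (B y x) x = dot (B x x) y := by rw [h.bil.comm, adj1]
    simp only [add_dot, smul_dot, single_dot, adj1, adj2] at e3
    rw [hBx] at e3
    simp only [add_dot, smul_dot, single_dot] at e3
    have e4 : p i0 * (x i0 * x i0 * dot a x) = 0 := by linear_combination (1 / 3 : ℂ) * e3
    rcases mul_eq_zero.mp e4 with h4 | h4
    · exact absurd h4 hp0
    · rcases mul_eq_zero.mp h4 with h5 | h5
      · left
        rcases mul_eq_zero.mp h5 with h6 | h6 <;> exact h6
      · right; exact h5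
  have hx0 : x i0 = 0 := by
    by_contra hne
    have hz : ∀ i, i ≠ i0 → x i = 0 := by
      intro i hi
      rcases key (Pi.single i 1) (Pi.single_eq_of_ne (Ne.symm hi) 1) with h1 | h1
      · exact absurd h1 hne
      · rwa [single_dot, one_mul] at h1
    have hxe : x = x i0 • (Pi.single i0 (1 : ℂ) : Vc ι) := by
      funext i
      by_cases hi : i = i0
      · subst hi
        rw [Pi.smul_apply, Pi.single_eq_same, smul_eq_mul, mul_one]
      · rw [Pi.smul_apply, Pi.single_eq_of_ne hi, smul_zero, hz i hi]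
    have hBxx : B x x = 0 := by
      rw [hxe, h.bil.smul, h.bil.smul', h.null', smul_zero, smul_zero]
    obtain ⟨i, hi⟩ := hi
    have h1 := congrFun hBx i
    rw [hBxx, dot_hb_eq_zero hz] at h1
    simp only [Pi.zero_apply, Pi.add_apply, Pi.smul_apply, smul_eq_mul, Pi.single_eq_of_ne hi, mul_zero,
      add_zero] at h1
    rw [hb, Function.update_of_ne hi] at h1
    have hpi : p i ≠ 0 := gen_ne_zero hder i
    exact absurd h1.symm (mul_ne_zero (mul_ne_zero (mul_ne_zero hp0 hne) hne) hpi)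
  have hBxx : B x x = 0 := by
    rw [hBx, hx0]
    simp
  obtain ⟨c, hc⟩ := h.null x hBxx
  have hc0 : c = 0 := by
    have := congrFun hc i0
    rw [Pi.single_eq_same, hx0] at this
    exact this.symm
  rw [hc, hc0, Pi.single_zero]

end EIG
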