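import Pool.Agent.helper62.EIG.HGen

set_option autoImplicit false
set_option linter.unusedSectionVars false

/-!
# EIG-HGen2: generic coefficients, step H, nondegeneracy

`p` is a generic vector: for every `a` there is a derivation `D` over `K` with `D p = a`; `B`, `S` and all solutions of
`B x x = S x` are rational over `K`. Put `κ = p i0`, `b = hb p i0` (`= p` with the coordinate `i0` replaced by `0`), `e = Pi.single i0 1`,
`x0 = x i0`, `b(x) = dot b x`. For `D p = a` write `κ' = D κ = a i0`, `a' = D b` (so `a' i = a i` for `i ≠ i0`, `a' i0 = 0`); so `κ'` and the coordinates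
of `a'` off `i0` are arbitrary. `D (b(x)) = dot a' x + b(Dx)`. All `p i ≠ 0`.
`HB x y = B x y - κ x0 y0 b - κ (b(x) y0 + b(y) x0) e`, `HL x = - S x + 2 κ x0 e`. So
`G(x) := HB x x + HL x = B x x - S x - κ x0² b + 2 κ (1 - b(x)) x0 e`, and
`M y := 2 HB x y + HL y = 2 B x y - S y - 2 κ x0 y0 b - 2 κ b(y) x0 e + 2 κ (1 - b(x)) y0 e`, symmetric: `dot (M y) z = dot (M z) y`.

PROOFS (`exists_of_inj`, `sol_ne_one_H` are in HGen).
* `nd_H`: let `G(x) = 0`, `M y = 0`. `D (G(x)) = 0` is
  `M (Dx) - κ' x0² b - κ x0² a' - 2 κ (dot a' x) x0 e + 2 κ' (1 - b(x)) x0 e = 0`. `dot · y`, `dot (M (Dx)) y = 0`: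
  `- κ' x0² b(y) - κ x0² dot a' y - 2 κ (dot a' x) x0 y0 + 2 κ' (1 - b(x)) x0 y0 = 0` for all `κ'`, `a'`.
  Case `x0 ≠ 0`: `κ' = 1, a' = 0`: (i) `- x0 b(y) + 2 (1 - b(x)) y0 = 0`. `κ' = 0`, `a' = Pi.single i 1`, `i ≠ i0`: (ii) `x0 y i + 2 x i y0 = 0`.
  Multiply (ii) by `b i` and sum over all `i` (`b i0 = 0`): `x0 b(y) + 2 b(x) y0 = 0`. Add (i): `2 y0 = 0`, so `y0 = 0`, and by (ii) `y i = 0`: `y = 0`.
  Case `x0 = 0`: `G(x) = 0` is `B x x = S x`, so `x` is rational over `K`, and `M y = 0` is `2 B x y - S y + 2 κ (1 - b(x)) y0 e = 0`. If `y0 = 0` then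
  `2 B x y = S y`, `y = 0` (`nd`). Let `y0 ≠ 0`; scale `y` (replace it by `y0⁻¹ • y`) so that `y0 = 1`. Let `A v = 2 B x v - S v`; `A` is linear and injective (`nd`), so there is `g`
  with `A g = e` (`exists_of_inj`), and `A y = - 2 κ (1 - b(x)) e`, so `y = - 2 κ (1 - b(x)) g`, `1 = - 2 κ (1 - b(x)) (g i0)`. Apply `D` with `κ' = 1`,
  `a' = 0`: `D x = 0`, `A (D g) = D e = 0`, so `D g = 0`, `D (b(x)) = 0`; `0 = - 2 (1 - b(x)) (g i0)`: contradiction.
* `zer_ne_one_H`: let `G(x) = 0`, `b(x) = 1`. `M` is linear and injective (`nd_H`), so there is `y` with `M y = b`. For all `κ'`, `a'`: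
  `M (Dx) = κ' x0² b + κ x0² a' + 2 κ (dot a' x) x0 e` (as `1 - b(x) = 0`), and `0 = D 1 = dot a' x + b(Dx)`,
  `b(Dx) = dot (M y) (Dx) = dot (M (Dx)) y = κ' x0² b(y) + κ x0² dot a' y + 2 κ (dot a' x) x0 y0`. So
  `κ' x0² b(y) + κ x0² dot a' y + 2 κ (dot a' x) x0 y0 + dot a' x = 0` for all `κ'`, `a'`.
  `κ' = 0`, `a' = Pi.single i 1` (`i ≠ i0`): (ii) `κ x0² y i + (2 κ x0 y0 + 1) x i = 0`. If `x0 = 0` then `x i = 0` for all `i ≠ i0`, so `b(x) = 0`: contradiction.
  So `x0 ≠ 0`, and `κ' = 1, a' = 0` gives `b(y) = 0`. Multiply (ii) by `b i` and sum: `(2 κ x0 y0 + 1) b(x) = 0`, so `2 κ x0 y0 = - 1`, and by (ii)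
  `y i = 0` for `i ≠ i0`: `y = y0 • e`, `y0 ≠ 0`. `M y = b` is (`b(e) = 0`) `y0 (2 B x e - S e) - 2 κ x0 y0 b = b`, i.e. `2 B x e = S e` (*).
  (`e = Pi.single i0 1` is rational.) For all `D`: `D` of (*): `2 B (Dx) e = 0`.
  Now choose `κ'`, `a'` with `M (Dx) = M x`: then `Dx = x` (`M` injective), `2 B x e = 0`, `S e = 0`, `e = 0` (`inj`): contradiction. `M x = 2 B x x - S x - 2 κ x0² b - 2 κ x0 e` (`b(x) = 1`), and
  `G(x) = 0` is `B x x = S x + κ x0² b`, so `M x = S x - 2 κ x0 e`. Needed: `S x - 2 κ x0 e = κ' x0² b + κ x0² a' + 2 κ (dot a' x) x0 e`. Put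
  `a' i = ((S x) i - κ' x0² b i) / (κ x0²)` for `i ≠ i0`; then `dot a' x = (s - κ' x0²) / (κ x0²)` with `s = ∑ i ≠ i0, (S x) i * x i`, and the coordinate `i0`
  requires `(S x) i0 - 2 κ x0 = 2 (s - κ' x0²) / x0`, which determines `κ'`.
-/

namespace EIG

open Finset

variable {ι : Type} [Fintype ι] [DecidableEq ι]

variable {B : Vc ι → Vc ι → Vc ι} {S : Vc ι → Vc ι} {i0 : ι} {I : ℕ} {K : Subfield ℂ} {p : Vc ι}

/-- the derivative `y ↦ 2 HB x y + HL y` -/
noncomputable def H2M (B : Vc ι → Vc ι → Vc ι) (S : Vc ι → Vc ι) (p : Vc ι) (i0 : ι) (x y : Vc ι) : Vc ι :=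
  (2 : ℂ) • HB B p i0 x y + HL S p i0 y

theorem H2_dot (x y z : Vc ι) : dot (H2M B S p i0 x y) z = 2 * dot (B x y) z -
    2 * (p i0 * x i0 * y i0) * dot (hb p i0) z -
    2 * (p i0 * (dot (hb p i0) x * y i0 + dot (hb p i0) y * x i0)) * z i0 - dot (S y) z +
    2 * p i0 * y i0 * z i0 := by
  simp only [H2M, HB, HL, add_dot, smul_dot, sub_dot, neg_dot, single_dot]
  ring

theorem H2_symm (h : St B S i0 I) (x y z : Vc ι) :
    dot (H2M B S p i0 x y) z = dot (H2M B S p i0 x z) y := by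
  rw [H2_dot, H2_dot, h.adj x y z, h.symm y z]
  ring

theorem H2_lin (h : St B S i0 I) (x : Vc ι) : Lin (H2M B S p i0 x) where
  add y z := by
    simp only [H2M, (bil_HB h.bil p i0).add', (lin_HL h.lin p i0).add, smul_add]
    abel
  smul c y := by
    simp only [H2M, (bil_HB h.bil p i0).smul', (lin_HL h.lin p i0).smul, smul_add]
    rw [smul_comm]

theorem H2_der_single (D : Derivation K ℂ ℂ) (i : ι) : D ((Pi.single i0 (1 : ℂ) : Vc ι) i) = 0 :=
  der_mem D (rat_single K i0 i)

theorem H2_der_two (D : Derivation K ℂ ℂ) : D (2 : ℂ) = 0 := by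
  have := D.map_natCast 2
  simpa using this

/-- the differentiated equation -/
theorem H2_main (h : St B S i0 I) (hB : RatB K B) (hS : RatL K S) (D : Derivation K ℂ ℂ) {x : Vc ι}
    (hx : HB B p i0 x x + HL S p i0 x = 0) :
    H2M B S p i0 x (fun i => D (x i)) = (D (p i0) * x i0 ^ 2) • hb p i0 +
      (p i0 * x i0 ^ 2) • (fun i => D (hb p i0 i)) +
      (2 * p i0 * dot (fun i => D (hb p i0 i)) x * x i0 -
        2 * D (p i0) * (1 - dot (hb p i0) x) * x i0) • (Pi.single i0 (1 : ℂ) : Vc ι) := by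
  funext i
  have h1 := congrFun hx i
  have h2 : D ((HB B p i0 x x + HL S p i0 x) i) = 0 := by
    rw [h1]
    exact map_zero D
  simp only [HB, HL, Pi.add_apply, Pi.sub_apply, Pi.smul_apply, Pi.neg_apply, smul_eq_mul, map_add,
    map_sub, map_neg, Derivation.leibniz, der_dot, H2_der_single, H2_der_two] at h2
  have h3 : D (B x x i) = 2 * B x (fun i => D (x i)) i := by
    have := congrFun (der_bil D h.bil hB x x) i
    simp only [Pi.add_apply] at this
    rw [this, h.bil.comm (fun i => D (x i)) x]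
    ring
  have h4 : D (S x i) = S (fun i => D (x i)) i := congrFun (der_lin D h.lin hS x) i
  rw [h3, h4] at h2
  simp only [H2M, HB, HL, Pi.add_apply, Pi.sub_apply, Pi.smul_apply, Pi.neg_apply, smul_eq_mul]
  linear_combination h2

theorem H2_der_hb (D : Derivation K ℂ ℂ) {a : Vc ι} (hD : ∀ j, D (p j) = a j) :
    (fun i => D (hb p i0 i)) = hb a i0 := by
  funext i
  by_cases hi : i = i0
  · subst hi
    simp [hb]
  · simp [hb, Function.update_of_ne hi, hD]

theorem H2_hb_single : hb (Pi.single i0 (1 : ℂ) : Vc ι) i0 = 0 := by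
  funext i
  by_cases hi : i = i0
  · subst hi
    simp [hb]
  · simp [hb, Function.update_of_ne hi, Pi.single_eq_of_ne hi]

theorem H2_hb_single' {i : ι} (hi : i ≠ i0) :
    hb (Pi.single i (1 : ℂ) : Vc ι) i0 = Pi.single i 1 := by
  funext j
  by_cases hj : j = i0
  · subst hj
    simp [hb, Pi.single_eq_of_ne (Ne.symm hi)]
  · simp [hb, Function.update_of_ne hj]

theorem H2_ne (hder : ∀ a : Vc ι, ∃ D : Derivation K ℂ ℂ, ∀ j, D (p j) = a j) : p i0 ≠ 0 := by
  intro h0
  obtain ⟨D, hD⟩ := hder (Pi.single i0 1)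
  have := hD i0
  rw [h0, map_zero, Pi.single_eq_same] at this
  exact zero_ne_one this

theorem H2_dot_hb_zero {z : Vc ι} (hz : ∀ i, i ≠ i0 → z i = 0) : dot (hb p i0) z = 0 := by
  unfold dot
  refine Finset.sum_eq_zero fun i _ => ?_
  by_cases hi : i = i0
  · subst hi
    simp [hb]
  · rw [hz i hi, mul_zero]

/-- `x0 = 0` reduces the equation to the old one -/
theorem H2_old {x : Vc ι} (hx : HB B p i0 x x + HL S p i0 x = 0) (h0 : x i0 = 0) : B x x = S x := by
  simp only [HB, HL, h0, mul_zero, zero_smul, sub_zero, add_zero] at hx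
  exact add_neg_eq_zero.mp hx

theorem nd_H (h : St B S i0 I) (hB : RatB K B) (hS : RatL K S) (hsol : ∀ x, B x x = S x → Rat K x)
    (hder : ∀ a : Vc ι, ∃ D : Derivation K ℂ ℂ, ∀ j, D (p j) = a j) {x y : Vc ι}
    (hx : HB B p i0 x x + HL S p i0 x = 0) (hy : (2 : ℂ) • HB B p i0 x y + HL S p i0 y = 0) : y = 0 := by
  have hy' : H2M B S p i0 x y = 0 := hy
  have hκ : p i0 ≠ 0 := H2_ne hder
  have key : ∀ a : Vc ι, a i0 * x i0 ^ 2 * dot (hb p i0) y + p i0 * x i0 ^ 2 * dot (hb a i0) y +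
      (2 * p i0 * dot (hb a i0) x * x i0 - 2 * a i0 * (1 - dot (hb p i0) x) * x i0) * y i0 = 0 := by
    intro a
    obtain ⟨D, hD⟩ := hder a
    have h1 := H2_main h hB hS D hx
    rw [H2_der_hb D hD, hD i0] at h1
    have h2 := congrArg (fun z => dot z y) h1
    simp only [add_dot, smul_dot, single_dot, one_mul] at h2
    rw [H2_symm h, hy', zero_dot] at h2
    exact h2.symm
  by_cases h0 : x i0 = 0
  · have hxx : B x x = S x := H2_old hx h0
    have hrat := hsol x hxx
    by_contra hne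
    have hA : Lin (fun v => (2 : ℂ) • B x v - S v) := by
      refine ⟨fun u v => ?_, fun c u => ?_⟩
      · change (2 : ℂ) • B x (u + v) - S (u + v) = ((2 : ℂ) • B x u - S u) + ((2 : ℂ) • B x v - S v)
        rw [h.bil.add', h.lin.add, smul_add]
        abel
      · change (2 : ℂ) • B x (c • u) - S (c • u) = c • ((2 : ℂ) • B x u - S u)
        rw [h.bil.smul', h.lin.smul, smul_sub, smul_comm]
    have hAi : ∀ v, (2 : ℂ) • B x v - S v = 0 → v = 0 := fun v hv => h.nd x hxx v (sub_eq_zero.mp hv)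
    obtain ⟨g, hg⟩ := exists_of_inj hA hAi (Pi.single i0 (1 : ℂ) : Vc ι)
    have hg' : (2 : ℂ) • B x g - S g = (Pi.single i0 (1 : ℂ) : Vc ι) := hg
    have hAy : (2 : ℂ) • B x y - S y = -(2 * p i0 * (1 - dot (hb p i0) x) * y i0) •
        (Pi.single i0 (1 : ℂ) : Vc ι) := by
      have : (2 : ℂ) • B x y - S y + (2 * p i0 * (1 - dot (hb p i0) x) * y i0) •
          (Pi.single i0 (1 : ℂ) : Vc ι) = H2M B S p i0 x y := by
        funext i
        simp only [H2M, HB, HL, Pi.add_apply, Pi.sub_apply, Pi.smul_apply, Pi.neg_apply, smul_eq_mul, h0]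
        ring
      rw [hy'] at this
      rw [neg_smul]
      exact eq_neg_of_add_eq_zero_left this
    have hyg : y = -(2 * p i0 * (1 - dot (hb p i0) x) * y i0) • g := by
      have h1 : (2 : ℂ) • B x (y - -(2 * p i0 * (1 - dot (hb p i0) x) * y i0) • g) -
          S (y - -(2 * p i0 * (1 - dot (hb p i0) x) * y i0) • g) = 0 := by
        have e1 := hA.sub y (-(2 * p i0 * (1 - dot (hb p i0) x) * y i0) • g)
        have e2 := hA.smul (-(2 * p i0 * (1 - dot (hb p i0) x) * y i0)) g
        rw [e1, e2, hAy, hg', sub_self]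
      exact sub_eq_zero.mp (hAi _ h1)
    have hy0 : y i0 ≠ 0 := by
      intro h1
      apply hne
      rw [hyg, h1, mul_zero, neg_zero, zero_smul]
    have h1 : 1 = -(2 * p i0 * (1 - dot (hb p i0) x)) * g i0 := by
      have := congrFun hyg i0
      simp only [Pi.smul_apply, smul_eq_mul] at this
      have h2 : y i0 * (1 - -(2 * p i0 * (1 - dot (hb p i0) x)) * g i0) = 0 := by
        linear_combination this
      exact sub_eq_zero.mp ((mul_eq_zero.mp h2).resolve_left hy0)
    obtain ⟨D, hD⟩ := hder (Pi.single i0 1)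
    have hDx : (fun i => D (x i)) = 0 := by
      funext i
      exact der_mem D (hrat i)
    have hDκ : D (p i0) = 1 := by
      rw [hD, Pi.single_eq_same]
    have hDb : (fun i => D (hb p i0 i)) = 0 := by rw [H2_der_hb D hD, H2_hb_single]
    have hDbx : D (dot (hb p i0) x) = 0 := by
      rw [der_dot, hDb, hDx, zero_dot, dot_zero, add_zero]
    have hDg : (fun i => D (g i)) = 0 := by
      apply hAi
      funext i
      have e1 := congrFun hg' i
      have e2 : D (((2 : ℂ) • B x g - S g) i) = 0 := by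
        rw [e1]
        exact H2_der_single D i
      simp only [Pi.sub_apply, Pi.smul_apply, smul_eq_mul, map_sub, Derivation.leibniz,
        H2_der_two] at e2
      have e3 : D (B x g i) = B x (fun i => D (g i)) i := by
        have := congrFun (der_bil D h.bil hB x g) i
        rw [hDx, h.bil.zero'] at this
        simpa using this
      have e4 : D (S g i) = S (fun i => D (g i)) i := congrFun (der_lin D h.lin hS g) i
      rw [e3, e4] at e2
      simp only [Pi.sub_apply, Pi.smul_apply, smul_eq_mul, Pi.zero_apply]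
      linear_combination e2
    have h3 : D (1 : ℂ) = D (-(2 * p i0 * (1 - dot (hb p i0) x)) * g i0) := by rw [← h1]
    rw [Derivation.map_one_eq_zero] at h3
    have e5 : D (g i0) = 0 := congrFun hDg i0
    simp only [Derivation.leibniz, smul_eq_mul, map_neg, map_sub, H2_der_two, hDκ, hDbx, e5,
      Derivation.map_one_eq_zero] at h3
    have h4 : (1 - dot (hb p i0) x) * g i0 = 0 := by linear_combination (-1 / 2 : ℂ) * h3.symm
    have h5 : (1 : ℂ) = 0 := by linear_combination h1 - 2 * p i0 * h4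
    exact one_ne_zero h5
  · have hi : x i0 * dot (hb p i0) y = 2 * (1 - dot (hb p i0) x) * y i0 := by
      have := key (Pi.single i0 1)
      rw [H2_hb_single, zero_dot, zero_dot, Pi.single_eq_same] at this
      have h1 : x i0 * (x i0 * dot (hb p i0) y - 2 * (1 - dot (hb p i0) x) * y i0) = 0 := by
        linear_combination this
      exact sub_eq_zero.mp ((mul_eq_zero.mp h1).resolve_left h0)
    have hii : ∀ i, i ≠ i0 → x i0 * y i + 2 * x i * y i0 = 0 := by
      intro i hi
      have := key (Pi.single i 1)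
      rw [H2_hb_single' hi, single_dot, single_dot, Pi.single_eq_of_ne (Ne.symm hi)] at this
      have h1 : p i0 * x i0 * (x i0 * y i + 2 * x i * y i0) = 0 := by
        linear_combination this
      exact (mul_eq_zero.mp h1).resolve_left (mul_ne_zero hκ h0)
    have hs : dot (hb p i0) (x i0 • y + (2 * y i0) • x) = 0 := by
      apply H2_dot_hb_zero
      intro i hi
      simp only [Pi.add_apply, Pi.smul_apply, smul_eq_mul]
      linear_combination hii i hi
    rw [dot_add, dot_smul, dot_smul] at hs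
    have hy0 : y i0 = 0 := by linear_combination (1 / 2 : ℂ) * hs - (1 / 2 : ℂ) * hi
    funext i
    by_cases hi : i = i0
    · rw [hi, hy0]
      rfl
    · have := hii i hi
      rw [hy0, mul_zero, add_zero] at this
      exact (mul_eq_zero.mp this).resolve_left h0

theorem zer_ne_one_H (h : St B S i0 I) (hB : RatB K B) (hS : RatL K S)
    (hsol : ∀ x, B x x = S x → Rat K x)
    (hder : ∀ a : Vc ι, ∃ D : Derivation K ℂ ℂ, ∀ j, D (p j) = a j) {x : Vc ι}
    (hx : HB B p i0 x x + HL S p i0 x = 0) : dot (hb p i0) x ≠ 1 := by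
  intro hb1
  have hκ : p i0 ≠ 0 := H2_ne hder
  have hinj : ∀ v, H2M B S p i0 x v = 0 → v = 0 := fun v hv => nd_H h hB hS hsol hder hx hv
  have hlin : Lin (H2M B S p i0 x) := H2_lin h x
  obtain ⟨y, hy⟩ := exists_of_inj hlin hinj (hb p i0)
  have main : ∀ (D : Derivation K ℂ ℂ) (a : Vc ι), (∀ j, D (p j) = a j) →
      H2M B S p i0 x (fun i => D (x i)) = (a i0 * x i0 ^ 2) • hb p i0 + (p i0 * x i0 ^ 2) • hb a i0 +
        (2 * p i0 * dot (hb a i0) x * x i0) • (Pi.single i0 (1 : ℂ) : Vc ι) := by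
    intro D a hD
    have h1 := H2_main h hB hS D hx
    rw [H2_der_hb D hD, hD i0, hb1, sub_self, mul_zero, zero_mul, sub_zero] at h1
    exact h1
  have key : ∀ a : Vc ι, a i0 * x i0 ^ 2 * dot (hb p i0) y + p i0 * x i0 ^ 2 * dot (hb a i0) y +
      (2 * p i0 * x i0 * y i0 + 1) * dot (hb a i0) x = 0 := by
    intro a
    obtain ⟨D, hD⟩ := hder a
    have h1 := main D a hD
    have h2 := congrArg (fun z => dot z y) h1
    simp only [add_dot, smul_dot, single_dot, one_mul] at h2
    rw [H2_symm h, hy] at h2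
    have h3 : D (dot (hb p i0) x) = 0 := by
      rw [hb1]
      exact Derivation.map_one_eq_zero D
    rw [der_dot, H2_der_hb D hD] at h3
    linear_combination h3 - h2
  have hii : ∀ i, i ≠ i0 → p i0 * x i0 ^ 2 * y i + (2 * p i0 * x i0 * y i0 + 1) * x i = 0 := by
    intro i hi
    have := key (Pi.single i 1)
    rw [H2_hb_single' hi, single_dot, single_dot, Pi.single_eq_of_ne (Ne.symm hi)] at this
    linear_combination this
  have h0 : x i0 ≠ 0 := by
    intro h0
    have : dot (hb p i0) x = 0 := by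
      apply H2_dot_hb_zero
      intro i hi
      have := hii i hi
      rw [h0] at this
      linear_combination this
    rw [hb1] at this
    exact one_ne_zero this
  have hby : dot (hb p i0) y = 0 := by
    have := key (Pi.single i0 1)
    rw [H2_hb_single, zero_dot, zero_dot, Pi.single_eq_same] at this
    have h1 : x i0 ^ 2 * dot (hb p i0) y = 0 := by linear_combination this
    exact (mul_eq_zero.mp h1).resolve_left (pow_ne_zero 2 h0)
  have hs : dot (hb p i0) ((p i0 * x i0 ^ 2) • y + (2 * p i0 * x i0 * y i0 + 1) • x) = 0 := by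
    apply H2_dot_hb_zero
    intro i hi
    simp only [Pi.add_apply, Pi.smul_apply, smul_eq_mul]
    exact hii i hi
  rw [dot_add, dot_smul, dot_smul, hby, hb1, mul_zero, zero_add, mul_one] at hs
  have hyi : ∀ i, i ≠ i0 → y i = 0 := by
    intro i hi
    have := hii i hi
    rw [hs, zero_mul, add_zero] at this
    exact (mul_eq_zero.mp this).resolve_left (mul_ne_zero hκ (pow_ne_zero 2 h0))
  have hye : y = y i0 • (Pi.single i0 (1 : ℂ) : Vc ι) := by
    funext i
    by_cases hi : i = i0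
    · subst hi
      simp
    · rw [hyi i hi, Pi.smul_apply, Pi.single_eq_of_ne hi, smul_zero]
  have hy0 : y i0 ≠ 0 := by
    intro h1
    rw [h1, mul_zero, zero_add] at hs
    exact one_ne_zero hs
  have hbe : dot (hb p i0) (Pi.single i0 (1 : ℂ) : Vc ι) = 0 := by
    rw [dot_single]
    simp [hb]
  have hstar : (2 : ℂ) • B x (Pi.single i0 (1 : ℂ) : Vc ι) = S (Pi.single i0 (1 : ℂ) : Vc ι) := by
    have h1 : H2M B S p i0 x (y i0 • (Pi.single i0 (1 : ℂ) : Vc ι)) = hb p i0 := by
      rw [← hye]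
      exact hy
    rw [hlin.smul] at h1
    funext i
    have h2 := congrFun h1 i
    simp only [H2M, HB, HL, Pi.add_apply, Pi.sub_apply, Pi.smul_apply, Pi.neg_apply, smul_eq_mul,
      hb1, hbe, Pi.single_eq_same] at h2
    have h3 : y i0 * (2 * B x (Pi.single i0 (1 : ℂ) : Vc ι) i - S (Pi.single i0 (1 : ℂ) : Vc ι) i) = 0 := by
      linear_combination h2 + hb p i0 i * hs
    rw [Pi.smul_apply, smul_eq_mul]
    exact sub_eq_zero.mp ((mul_eq_zero.mp h3).resolve_left hy0)
  have hder2 : ∀ D : Derivation K ℂ ℂ, B (fun i => D (x i)) (Pi.single i0 (1 : ℂ) : Vc ι) = 0 := by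
    intro D
    have hDe : (fun i => D ((Pi.single i0 (1 : ℂ) : Vc ι) i)) = 0 := by
      funext i
      exact H2_der_single D i
    funext i
    have h1 := congrFun hstar i
    have h2 : D (((2 : ℂ) • B x (Pi.single i0 (1 : ℂ) : Vc ι)) i) =
        D (S (Pi.single i0 (1 : ℂ) : Vc ι) i) := by rw [h1]
    have e1 := congrFun (der_bil D h.bil hB x (Pi.single i0 (1 : ℂ) : Vc ι)) i
    have e2 := congrFun (der_lin D h.lin hS (Pi.single i0 (1 : ℂ) : Vc ι)) i
    rw [hDe, h.bil.zero] at e1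
    rw [hDe, h.lin.zero] at e2
    simp only [Pi.smul_apply, smul_eq_mul, Derivation.leibniz, H2_der_two] at h2
    simp only [Pi.add_apply, Pi.zero_apply, add_zero] at e1 e2
    rw [e1, e2] at h2
    rw [Pi.zero_apply]
    linear_combination (1 / 2 : ℂ) * h2
  -- the final choice
  set s : ℂ := dot (hb (S x) i0) x with hsdef
  set κ' : ℂ := (s - x i0 * (S x i0 - 2 * p i0 * x i0) / 2) / x i0 ^ 2 with hκ'
  set w : Vc ι := (p i0 * x i0 ^ 2)⁻¹ • (hb (S x) i0 - (κ' * x i0 ^ 2) • hb p i0) with hw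
  have hw0 : w i0 = 0 := by
    simp [hw, hb]
  obtain ⟨D, hD⟩ := hder (Function.update w i0 κ')
  have ha : hb (Function.update w i0 κ') i0 = w := by
    unfold hb
    rw [Function.update_idem, ← hw0, Function.update_eq_self]
  have hm := main D _ hD
  rw [ha, Function.update_self] at hm
  have hc : p i0 * x i0 ^ 2 ≠ 0 := mul_ne_zero hκ (pow_ne_zero 2 h0)
  have hcw : (p i0 * x i0 ^ 2) • w = hb (S x) i0 - (κ' * x i0 ^ 2) • hb p i0 := by
    rw [hw, smul_smul, mul_inv_cancel₀ hc, one_smul]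
  have hwx : (p i0 * x i0 ^ 2) * dot w x = s - κ' * x i0 ^ 2 := by
    rw [← smul_dot, hcw, sub_dot, smul_dot, hb1, mul_one]
  have hκ'2 : κ' * x i0 ^ 2 = s - x i0 * (S x i0 - 2 * p i0 * x i0) / 2 := by
    rw [hκ', div_mul_cancel₀ _ (pow_ne_zero 2 h0)]
  have h2 : 2 * p i0 * dot w x * x i0 = S x i0 - 2 * p i0 * x i0 := by
    have : x i0 * (2 * p i0 * dot w x * x i0 - (S x i0 - 2 * p i0 * x i0)) = 0 := by
      linear_combination 2 * hwx - 2 * hκ'2
    exact sub_eq_zero.mp ((mul_eq_zero.mp this).resolve_left h0)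
  rw [hcw, h2] at hm
  have hMx : H2M B S p i0 x x = S x - (2 * p i0 * x i0) • (Pi.single i0 (1 : ℂ) : Vc ι) := by
    funext i
    have h3 := congrFun hx i
    simp only [H2M, HL, Pi.add_apply, Pi.sub_apply, Pi.smul_apply, Pi.neg_apply, smul_eq_mul,
      Pi.zero_apply] at h3 ⊢
    linear_combination 2 * h3
  have hSx : S x = hb (S x) i0 + S x i0 • (Pi.single i0 (1 : ℂ) : Vc ι) := by
    funext i
    by_cases hi : i = i0
    · subst hi
      simp [hb]
    · simp [hb, Function.update_of_ne hi, Pi.single_eq_of_ne hi]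
  have hMM : H2M B S p i0 x (fun i => D (x i)) = H2M B S p i0 x x := by
    rw [hm, hMx]
    conv_rhs => rw [hSx]
    funext i
    simp only [Pi.add_apply, Pi.sub_apply, Pi.smul_apply, smul_eq_mul]
    ring
  have hDx : (fun i => D (x i)) = x := by
    have h3 : H2M B S p i0 x ((fun i => D (x i)) - x) = 0 := by
      rw [hlin.sub, hMM, sub_self]
    exact sub_eq_zero.mp (hinj _ h3)
  have h5 := hder2 D
  rw [hDx] at h5
  rw [h5, smul_zero] at hstar
  have h6 := h.inj _ hstar.symm
  have h7 := congrFun h6 i0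
  rw [Pi.single_eq_same] at h7
  exact one_ne_zero h7

theorem good_H (h : St B S i0 I) (hi : ∃ i, i ≠ i0) (hB : RatB K B) (hS : RatL K S)
    (hsol : ∀ x, B x x = S x → Rat K x)
    (hder : ∀ a : Vc ι, ∃ D : Derivation K ℂ ℂ, ∀ j, D (p j) = a j) :
    Good (HB B p i0) (HL S p i0) 0 :=
  ⟨fun _ hx => inf_H h hi hB hder hx,
    fun _ hx _ hy => nd_H h hB hS hsol hder (by rwa [add_zero] at hx) hy⟩

end EIG
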