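import Pool.Agent.helper62.EIG.Der

set_option autoImplicit false
set_option linter.unusedSectionVars false

/-!
# EIG-LGen: generic linear forms, step L

`p` is a generic vector: for every `a` there is a derivation `D` over `K` with `D p = a` (coordinatewise); `B`, `S`
and all solutions of `B x x = S x` are rational over `K`. Write `p(x) = dot p x`, `D x` for the vector of the `D (x i)`. By
`der_bil`, `der_lin`, `der_dot`: `D (B x x) = 2 B x (D x)` (use `Bil.comm`), `D (S x) = S (D x)`, `D (p(x)) = dot a x + p(D x)`.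

PROOFS.
* `p_ne`: if `p i = 0`, then `D (p i) = 0` for all `D`; take `a i = 1`.
* `sol_ne_one`: `x` is rational over `K`, so `D x = 0` (`der_mem`). If `p(x) = 1` then `0 = D 1 = dot a x` for all `a`, so `x = 0`
  (`eq_zero_of_dot`) and `p(x) = 0`: contradiction.
* `inf_L`: let `B x x + (1/2 p(x)²) p = 0`. For all `a`: `2 B x (Dx) + p(x) (dot a x + p(Dx)) p + 1/2 p(x)² a = 0`. Take `dot · x`:
  `dot (B x (Dx)) x = dot (B x x) (Dx)` (`adj`), so
  `2 dot (B x x) (Dx) + p(x)² (dot a x + p(Dx)) + 1/2 p(x)² dot a x = 0`, and `2 dot (B x x) (Dx) = - p(x)² p(Dx)` by the equation. So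
  `3/2 p(x)² dot a x = 0` for all `a`: `x = 0` or `p(x) = 0`. In the second case `B x x = 0`, so `x = Pi.single i0 c` (`null`),
  `p(x) = p i0 * c = 0`, `c = 0`, `x = 0`.
* `nd_L`: let `E(x) := B x x + 1/2 (1 - p(x))² p - S x = 0` (this is `BE x x + LE x + cE = 0`) and
  `M y := 2 B x y - S y - (1 - p(x)) p(y) p = 0` (this is `2 BE x y + LE y`). `M` is symmetric: `dot (M y) z = dot (M z) y` (`adj`, `comm`,
  `symm`). `D` of `E(x) = 0`: `M (Dx) - (1 - p(x)) (dot a x) p + 1/2 (1 - p(x))² a = 0`. Take `dot · y`; `dot (M (Dx)) y = dot (M y) (Dx) = 0`: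
  `(1 - p(x))² dot a y = 2 (1 - p(x)) (dot a x) p(y)` for all `a`. `p(x) ≠ 1` by `zer_ne_one`, so `(1 - p(x)) y = 2 p(y) x`
  (`eq_zero_of_dot`). Apply `p(·)`: `p(y) (1 - 3 p(x)) = 0`. If `p(y) = 0` then `(1 - p(x)) y = 0`, `y = 0`. Otherwise `p(x) = 1/3` and
  `y = 3 p(y) x` with `p(y) ≠ 0`, so `M x = 0`: `2 B x x - S x - 2/9 p = 0`, and `E(x) = 0` is `B x x = S x - 2/9 p`; hence `S x = 2/3 p`.
  Apply `D`: `S (Dx) = 2/3 a`, and `D` of `p(x) = 1/3`: `dot a x + p(Dx) = 0`; `p(Dx) = 3/2 dot (S x) (Dx) = 3/2 dot (S (Dx)) x = dot a x`. So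
  `dot a x = 0` for all `a`, `x = 0`, `p(x) = 0`: contradiction with `1/3`.
* `zer_ne_one`: if `E(x) = 0` and `p(x) = 1` then `B x x = S x`: contradiction with `sol_ne_one`.
-/

namespace EIG

open Finset

variable {ι : Type} [Fintype ι]

/-- quadratic part of the equation of the second branch -/
noncomputable def BE (B : Vc ι → Vc ι → Vc ι) (p : Vc ι) (x y : Vc ι) : Vc ι :=
  B x y + (1 / 2 * (dot p x * dot p y)) • p

/-- linear part -/
def LE' (S : Vc ι → Vc ι) (p : Vc ι) (x : Vc ι) : Vc ι := -S x - dot p x • p

/-- constant part -/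
noncomputable def cE (p : Vc ι) : Vc ι := (1 / 2 : ℂ) • p

theorem bil_BE {B : Vc ι → Vc ι → Vc ι} (h : Bil B) (p : Vc ι) : Bil (BE B p) where
  add := by
    intro x y z
    funext i
    simp only [BE, h.add, dot_add, Pi.add_apply, Pi.smul_apply, smul_eq_mul]
    ring
  smul := by
    intro c x y
    funext i
    simp only [BE, h.smul, dot_smul, Pi.add_apply, Pi.smul_apply, smul_eq_mul]
    ring
  comm := by
    intro x y
    funext i
    simp only [BE, h.comm y x, Pi.add_apply, Pi.smul_apply, smul_eq_mul]
    ring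

theorem lin_LE {S : Vc ι → Vc ι} (h : Lin S) (p : Vc ι) : Lin (LE' S p) where
  add := by
    intro x y
    funext i
    simp only [LE', h.add, dot_add, Pi.add_apply, Pi.sub_apply, Pi.neg_apply, Pi.smul_apply,
      smul_eq_mul]
    ring
  smul := by
    intro c x
    funext i
    simp only [LE', h.smul, dot_smul, Pi.sub_apply, Pi.neg_apply, Pi.smul_apply,
      smul_eq_mul]
    ring

theorem lgen_half2 {K : Subfield ℂ} (D : Derivation K ℂ ℂ) : D (1 / 2 : ℂ) = 0 := by
  refine der_mem D (K.div_mem K.one_mem ?_)
  exact_mod_cast natCast_mem K 2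

variable [DecidableEq ι] {B : Vc ι → Vc ι → Vc ι} {S : Vc ι → Vc ι} {i0 : ι} {I : ℕ} {K : Subfield ℂ}
  {p : Vc ι}

theorem p_ne (hder : ∀ a : Vc ι, ∃ D : Derivation K ℂ ℂ, ∀ j, D (p j) = a j) (i : ι) : p i ≠ 0 := by
  intro h
  obtain ⟨D, hD⟩ := hder (fun _ => 1)
  have h1 := hD i
  rw [h, map_zero] at h1
  exact zero_ne_one h1

theorem sol_ne_one (hsol : ∀ x, B x x = S x → Rat K x)
    (hder : ∀ a : Vc ι, ∃ D : Derivation K ℂ ℂ, ∀ j, D (p j) = a j) {x : Vc ι} (hx : B x x = S x) :
    dot p x ≠ 1 := by
  intro h1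
  have hx0 : x = 0 := by
    refine eq_zero_of_dot fun a => ?_
    obtain ⟨D, hD⟩ := hder a
    have h2 : (fun i => D (x i)) = (0 : Vc ι) := funext fun i => der_mem D (hsol x hx i)
    have h3 : (fun i => D (p i)) = a := funext hD
    have h4 := der_dot D p x
    rw [h1, h2, h3, dot_zero, add_zero, Derivation.map_one_eq_zero] at h4
    exact h4.symm
  rw [hx0, dot_zero] at h1
  exact zero_ne_one h1

theorem zer_ne_one (hsol : ∀ x, B x x = S x → Rat K x)
    (hder : ∀ a : Vc ι, ∃ D : Derivation K ℂ ℂ, ∀ j, D (p j) = a j) {x : Vc ι}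
    (hx : BE B p x x + LE' S p x + cE p = 0) : dot p x ≠ 1 := by
  intro h1
  refine sol_ne_one hsol hder (x := x) ?_ h1
  funext i
  have h2 := congrFun hx i
  simp only [BE, LE', cE, h1, Pi.add_apply, Pi.sub_apply, Pi.neg_apply, Pi.smul_apply,
    smul_eq_mul, Pi.zero_apply] at h2
  linear_combination h2

theorem inf_L (h : St B S i0 I) (hB : RatB K B)
    (hder : ∀ a : Vc ι, ∃ D : Derivation K ℂ ℂ, ∀ j, D (p j) = a j) {x : Vc ι} (hx : BE B p x x = 0) :
    x = 0 := by
  by_cases hP : dot p x = 0
  · have h1 : B x x = 0 := by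
      funext i
      have h2 := congrFun hx i
      simp only [BE, hP, Pi.add_apply, Pi.smul_apply, smul_eq_mul, Pi.zero_apply] at h2
      rw [Pi.zero_apply]
      linear_combination h2
    obtain ⟨c, hc⟩ := h.null x h1
    rw [hc, dot_single] at hP
    have hc0 : c = 0 := (mul_eq_zero.1 hP).resolve_left (p_ne hder i0)
    rw [hc, hc0, Pi.single_zero]
  · refine eq_zero_of_dot fun a => ?_
    obtain ⟨D, hD⟩ := hder a
    have h3 : (fun i => D (p i)) = a := funext hD
    set y : Vc ι := fun i => D (x i) with hy
    have h4 : D (dot p x) = dot a x + dot p y := by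
      rw [der_dot D p x, h3]
    have h5 : (fun i => D (B x x i)) = B y x + B x y := der_bil D h.bil hB x x
    -- the derivative of the equation, coordinatewise
    have h6 : ∀ i, 2 * B x y i + dot p x * (dot a x + dot p y) * p i
        + 1 / 2 * (dot p x * dot p x) * a i = 0 := by
      intro i
      have h7 := congrArg D (congrFun hx i)
      simp only [BE, Pi.add_apply, Pi.smul_apply, smul_eq_mul, Pi.zero_apply, map_add, map_zero,
        Derivation.leibniz, lgen_half2 D] at h7
      rw [h4, hD i] at h7
      have h8 : D (B x x i) = B x y i + B x y i := by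
        have h8' := congrFun h5 i
        rw [Pi.add_apply, h.bil.comm y x] at h8'
        exact h8'
      rw [h8] at h7
      linear_combination h7
    have h9 : 2 * dot (B x y) x + dot p x * (dot a x + dot p y) * dot p x
        + 1 / 2 * (dot p x * dot p x) * dot a x = 0 := by
      have h10 : ((2 : ℂ) • B x y + (dot p x * (dot a x + dot p y)) • p
          + (1 / 2 * (dot p x * dot p x)) • a : Vc ι) = 0 := by
        funext i
        have := h6 i
        simp only [Pi.add_apply, Pi.smul_apply, smul_eq_mul, Pi.zero_apply]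
        linear_combination this
      have h11 := congrArg (fun v => dot v x) h10
      simp only [add_dot, smul_dot, zero_dot] at h11
      linear_combination h11
    have h12 : dot (B x x) y + 1 / 2 * (dot p x * dot p x) * dot p y = 0 := by
      have h13 := congrArg (fun v => dot v y) hx
      simp only [BE, add_dot, smul_dot, zero_dot] at h13
      exact h13
    rw [h.adj x y x] at h9
    have h14 : dot p x * dot p x * dot a x = 0 := by
      linear_combination (2 / 3 : ℂ) * h9 - (4 / 3 : ℂ) * h12
    exact (mul_eq_zero.1 h14).resolve_left (mul_ne_zero hP hP)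

theorem nd_L (h : St B S i0 I) (hB : RatB K B) (hS : RatL K S) (hsol : ∀ x, B x x = S x → Rat K x)
    (hder : ∀ a : Vc ι, ∃ D : Derivation K ℂ ℂ, ∀ j, D (p j) = a j) {x y : Vc ι}
    (hx : BE B p x x + LE' S p x + cE p = 0) (hy : (2 : ℂ) • BE B p x y + LE' S p y = 0) : y = 0 := by
  have hP : dot p x ≠ 1 := zer_ne_one hsol hder hx
  have hP' : 1 - dot p x ≠ 0 := sub_ne_zero.2 (Ne.symm hP)
  have hyi : ∀ v, 2 * dot (B x y) v + dot p x * dot p y * dot p v - dot (S y) v
      - dot p y * dot p v = 0 := by
    intro v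
    have h1 := congrArg (fun w => dot w v) hy
    simp only [BE, LE', add_dot, smul_dot, zero_dot, sub_dot, neg_dot] at h1
    linear_combination h1
  have key : ∀ a : Vc ι, ∃ z : Vc ι,
      (∀ v, 2 * dot (B x z) v + dot p x * (dot a x + dot p z) * dot p v
        + 1 / 2 * (dot p x * dot p x) * dot a v - dot (S z) v - (dot a x + dot p z) * dot p v
        - dot p x * dot a v + 1 / 2 * dot a v = 0) ∧
      (dot p x = 1 / 3 → dot a x + dot p z = 0) ∧
      (S x = (2 / 3 : ℂ) • p → S z = (2 / 3 : ℂ) • a) := by
    intro a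
    obtain ⟨D, hD⟩ := hder a
    have h3 : (fun i => D (p i)) = a := funext hD
    set z : Vc ι := fun i => D (x i) with hz
    have h4 : D (dot p x) = dot a x + dot p z := by
      rw [der_dot D p x, h3]
    have h5 : (fun i => D (B x x i)) = B z x + B x z := der_bil D h.bil hB x x
    have h6 : (fun i => D (S x i)) = S z := der_lin D h.lin hS x
    have h23 : D (2 / 3 : ℂ) = 0 := by
      refine der_mem D (K.div_mem ?_ ?_)
      · exact_mod_cast natCast_mem K 2
      · exact_mod_cast natCast_mem K 3
    have h13 : D (1 / 3 : ℂ) = 0 := by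
      refine der_mem D (K.div_mem K.one_mem ?_)
      exact_mod_cast natCast_mem K 3
    have h12 : D (1 / 2 : ℂ) = 0 := by
      refine der_mem D (K.div_mem K.one_mem ?_)
      exact_mod_cast natCast_mem K 2
    refine ⟨z, ?_, ?_, ?_⟩
    · intro v
      have h10 : ((2 : ℂ) • B x z + (dot p x * (dot a x + dot p z)) • p
          + (1 / 2 * (dot p x * dot p x)) • a - S z - (dot a x + dot p z) • p
          - dot p x • a + (1 / 2 : ℂ) • a : Vc ι) = 0 := by
        funext i
        have h7 := congrArg D (congrFun hx i)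
        simp only [BE, LE', cE, Pi.add_apply, Pi.sub_apply, Pi.neg_apply, Pi.smul_apply,
          smul_eq_mul, Pi.zero_apply, map_add, map_sub, map_neg, map_zero,
          Derivation.leibniz, h12] at h7
        rw [h4, hD i] at h7
        have h8 : D (B x x i) = B x z i + B x z i := by
          have h8' := congrFun h5 i
          rw [Pi.add_apply, h.bil.comm z x] at h8'
          exact h8'
        have h9 : D (S x i) = S z i := congrFun h6 i
        rw [h8, h9] at h7
        simp only [Pi.add_apply, Pi.sub_apply, Pi.smul_apply, smul_eq_mul, Pi.zero_apply]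
        linear_combination h7
      have h11 := congrArg (fun w => dot w v) h10
      simp only [add_dot, sub_dot, smul_dot, zero_dot] at h11
      linear_combination h11
    · intro hp
      rw [← h4, hp, h13]
    · intro hs
      rw [← h6, hs]
      funext i
      simp only [Pi.smul_apply, smul_eq_mul, Derivation.leibniz, h23, hD i, mul_zero, add_zero]
  have h20 : (1 - dot p x) • y = (2 * dot p y) • x := by
    rw [← sub_eq_zero]
    refine eq_zero_of_dot fun a => ?_
    obtain ⟨z, hz, -, -⟩ := key a
    have h21 := hz y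
    have h22 := hyi z
    rw [h.adj x z y, h.symm z y] at h21
    rw [dot_sub, dot_smul, dot_smul]
    have h24 : (1 - dot p x) * ((1 - dot p x) * dot a y - 2 * dot p y * dot a x) = 0 := by
      linear_combination (2 : ℂ) * h21 - (2 : ℂ) * h22
    exact (mul_eq_zero.1 h24).resolve_left hP'
  have h25 : dot p y * (1 - 3 * dot p x) = 0 := by
    have h26 := congrArg (dot p) h20
    rw [dot_smul, dot_smul] at h26
    linear_combination h26
  rcases mul_eq_zero.1 h25 with hR | hR
  · rw [hR, mul_zero, zero_smul] at h20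
    exact (smul_eq_zero.1 h20).resolve_left hP'
  · have hP3 : dot p x = 1 / 3 := by linear_combination (-1 / 3 : ℂ) * hR
    by_cases hR0 : dot p y = 0
    · rw [hR0, mul_zero, zero_smul] at h20
      exact (smul_eq_zero.1 h20).resolve_left hP'
    · exfalso
      -- `y = 3 (p y) x`
      have hyx : y = (3 * dot p y) • x := by
        funext i
        have h27 := congrFun h20 i
        simp only [Pi.smul_apply, smul_eq_mul, hP3] at h27 ⊢
        linear_combination (3 / 2 : ℂ) * h27
      have hSx : S x = (2 / 3 : ℂ) • p := by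
        have hMx : ∀ i, 2 * B x x i - S x i - 2 / 9 * p i = 0 := by
          intro i
          have h28 := congrFun hy i
          simp only [BE, LE', Pi.add_apply, Pi.sub_apply, Pi.neg_apply, Pi.smul_apply,
            smul_eq_mul, Pi.zero_apply, hP3] at h28
          have h29 : B x y i = 3 * dot p y * B x x i := by
            have := congrFun (h.bil.smul' (3 * dot p y) x x) i
            rw [← hyx] at this
            exact this
          have h30 : S y i = 3 * dot p y * S x i := by
            have := congrFun (h.lin.smul (3 * dot p y) x) i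
            rw [← hyx] at this
            exact this
          rw [h29, h30] at h28
          have h31 : dot p y * (2 * B x x i - S x i - 2 / 9 * p i) = 0 := by
            linear_combination (1 / 3 : ℂ) * h28
          exact (mul_eq_zero.1 h31).resolve_left hR0
        funext i
        have h32 := congrFun hx i
        simp only [BE, LE', cE, Pi.add_apply, Pi.sub_apply, Pi.neg_apply, Pi.smul_apply,
          smul_eq_mul, Pi.zero_apply, hP3] at h32
        have h33 := hMx i
        simp only [Pi.smul_apply, smul_eq_mul]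
        linear_combination h33 - (2 : ℂ) * h32
      have hx0 : x = 0 := by
        refine eq_zero_of_dot fun a => ?_
        obtain ⟨z, -, hz1, hz2⟩ := key a
        have h34 := hz1 hP3
        have h35 := hz2 hSx
        have h36 : dot (S z) x = dot (S x) z := h.symm z x
        rw [h35, hSx, smul_dot, smul_dot] at h36
        linear_combination (1 / 2 : ℂ) * h34 + (3 / 4 : ℂ) * h36
      rw [hx0, dot_zero] at hP3
      norm_num at hP3

theorem good_L (h : St B S i0 I) (hB : RatB K B) (hS : RatL K S) (hsol : ∀ x, B x x = S x → Rat K x)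
    (hder : ∀ a : Vc ι, ∃ D : Derivation K ℂ ℂ, ∀ j, D (p j) = a j) :
    Good (BE B p) (LE' S p) (cE p) :=
  ⟨fun _ hx => inf_L h hB hder hx, fun _ hx _ hy => nd_L h hB hS hsol hder hx hy⟩

end EIG
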