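import Pool.Agent.helper62.EIG.Defs

set_option autoImplicit false
set_option linter.unusedSectionVars false

/-!
# EIG-Loc: the number of zeros is locally constant (topological part)

PROOF of `ncard_eventually_eq`. `Z t := {x | F (t, x) = 0}`, `V = ι → ℂ` (finite dimensional).
1. For `z ∈ Z t0` the map `Φ (t, x) = (t, F (t, x))` has at `(t0, z)` the strict derivative
   `(τ, y) ↦ (τ, DF (τ, y))`, which is injective by (b), hence a continuous linear equivalence of the finite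
   dimensional space `ℂ × V`. `HasStrictFDerivAt.toOpenPartialHomeomorph` gives an open
   neighbourhood of `(t0, z)` on which `Φ` is injective, with a continuous local inverse. So there is `r > 0`
   such that for all small `r' ≤ r`: for `t` near `t0` there is exactly one `x` in `ball z r'` with
   `F (t, x) = 0`.
2. Hence `Z t0` is discrete; it is closed and bounded, so it is finite.
3. Choose `r` such that the balls `ball z r` (`z ∈ Z t0`) are disjoint and 1. holds in each of them. The compact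
   set `Q = closedBall 0 R \ ⋃ ball z r` contains no zero of `F (t0, ·)`, so for `t` near `t0` it contains no
   zero of `F (t, ·)`.
4. For `t` near `t0`: `Z t ⊆ ⋃ ball z r` with exactly one point in each ball.
-/

namespace EIG

open Finset Topology Filter

/-- step 1: exactly one zero near a nondegenerate zero -/
theorem loc_unique {ι : Type} [Fintype ι] (F : ℂ × Vc ι → Vc ι) (hF : ContDiff ℂ 1 F) (t0 : ℂ)
    (z : Vc ι) (hz : F (t0, z) = 0)
    (hb : ∀ y : Vc ι, fderiv ℂ F (t0, z) (0, y) = 0 → y = 0) :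
    ∃ r0 > 0, ∀ r, 0 < r → r ≤ r0 → ∀ᶠ t in 𝓝 t0, ∃! x, x ∈ Metric.ball z r ∧ F (t, x) = 0 := by
  have hstr : HasStrictFDerivAt F (fderiv ℂ F (t0, z)) (t0, z) :=
    hF.contDiffAt.hasStrictFDerivAt one_ne_zero
  set Φ : ℂ × Vc ι → ℂ × Vc ι := fun p => (p.1, F p) with hΦ
  set A : ℂ × Vc ι →L[ℂ] ℂ × Vc ι :=
    (ContinuousLinearMap.fst ℂ ℂ (Vc ι)).prod (fderiv ℂ F (t0, z)) with hA
  have hΦs : HasStrictFDerivAt Φ A (t0, z) :=
    (ContinuousLinearMap.fst ℂ ℂ (Vc ι)).hasStrictFDerivAt.prodMk hstr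
  have hinj : Function.Injective (A : ℂ × Vc ι →ₗ[ℂ] ℂ × Vc ι) := by
    rw [← LinearMap.ker_eq_bot, LinearMap.ker_eq_bot']
    rintro ⟨τ, y⟩ h
    have h1 : τ = 0 := congrArg Prod.fst h
    have h2 : fderiv ℂ F (t0, z) (τ, y) = 0 := congrArg Prod.snd h
    subst h1
    rw [hb y h2]
    rfl
  set B : (ℂ × Vc ι) ≃L[ℂ] (ℂ × Vc ι) :=
    (LinearEquiv.ofInjectiveEndo (A : ℂ × Vc ι →ₗ[ℂ] ℂ × Vc ι) hinj).toContinuousLinearEquiv with hB
  have hBA : (B : ℂ × Vc ι →L[ℂ] ℂ × Vc ι) = A := by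
    ext v <;> rfl
  have hΦB : HasStrictFDerivAt Φ (B : ℂ × Vc ι →L[ℂ] ℂ × Vc ι) (t0, z) := by
    rw [hBA]
    exact hΦs
  set e := hΦB.toOpenPartialHomeomorph Φ with he
  have hecoe : (e : ℂ × Vc ι → ℂ × Vc ι) = Φ := hΦB.toOpenPartialHomeomorph_coe
  have hmem : (t0, z) ∈ e.source := hΦB.mem_toOpenPartialHomeomorph_source
  have hnhds : e.source ∈ 𝓝 (t0, z) := e.open_source.mem_nhds hmem
  obtain ⟨ρ, hρ, hball⟩ := Metric.mem_nhds_iff.1 hnhds
  refine ⟨ρ, hρ, fun r hr hrρ => ?_⟩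
  have hΦ0 : Φ (t0, z) = (t0, 0) := by rw [hΦ]; simp only [hz]
  have het : (t0, (0 : Vc ι)) ∈ e.target := by
    have := e.map_source hmem
    rwa [hecoe, hΦ0] at this
  have hsymm : e.symm (t0, 0) = (t0, z) := by
    have := e.left_inv hmem
    rwa [hecoe, hΦ0] at this
  have hcont : ContinuousAt e.symm (t0, (0 : Vc ι)) := e.continuousAt_symm het
  have hc1 : Tendsto (fun t : ℂ => (t, (0 : Vc ι))) (𝓝 t0) (𝓝 (t0, 0)) :=
    (Continuous.prodMk continuous_id continuous_const).tendsto t0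
  have hev1 : ∀ᶠ t in 𝓝 t0, (t, (0 : Vc ι)) ∈ e.target :=
    hc1 (e.open_target.mem_nhds het)
  have hev2 : ∀ᶠ t in 𝓝 t0, e.symm (t, (0 : Vc ι)) ∈ Metric.ball (t0, z) r := by
    have h1 : Tendsto (fun t : ℂ => e.symm (t, (0 : Vc ι))) (𝓝 t0) (𝓝 (t0, z)) := by
      have := hcont.tendsto.comp hc1
      rwa [hsymm] at this
    exact h1 (Metric.ball_mem_nhds _ hr)
  have hev3 : ∀ᶠ t in 𝓝 t0, t ∈ Metric.ball t0 ρ := Metric.ball_mem_nhds _ hρ
  filter_upwards [hev1, hev2, hev3] with t h1 h2 h3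
  have h4 : Φ (e.symm (t, 0)) = (t, 0) := by
    have := e.right_inv h1
    rwa [hecoe] at this
  have h5 : (e.symm (t, 0)).1 = t := congrArg Prod.fst h4
  have h6 : F (e.symm (t, 0)) = 0 := congrArg Prod.snd h4
  refine ⟨(e.symm (t, 0)).2, ⟨?_, ?_⟩, ?_⟩
  · have h7 : dist (e.symm (t, 0)) (t0, z) < r := h2
    rw [Prod.dist_eq] at h7
    exact lt_of_le_of_lt (le_max_right _ _) h7
  · have h8 : (t, (e.symm (t, 0)).2) = e.symm (t, 0) := Prod.ext h5.symm rfl
    rw [h8]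
    exact h6
  · rintro x ⟨hx, hx0⟩
    have hxs : (t, x) ∈ e.source := by
      apply hball
      rw [Metric.mem_ball, Prod.dist_eq]
      exact max_lt h3 (lt_of_lt_of_le hx hrρ)
    have h8 : e (t, x) = (t, 0) := by
      rw [hecoe, hΦ]
      simp only [hx0]
    have h9 : e.symm (t, 0) = (t, x) := by
      rw [← h8, e.left_inv hxs]
    rw [h9]

/-- step 2: there are finitely many zeros -/
theorem loc_finite {ι : Type} [Fintype ι] (F : ℂ × Vc ι → Vc ι) (hF : ContDiff ℂ 1 F) (t0 : ℂ)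
    (R : ℝ) (hR : ∀ x, F (t0, x) = 0 → ‖x‖ ≤ R)
    (hb : ∀ x, F (t0, x) = 0 → ∀ y : Vc ι, fderiv ℂ F (t0, x) (0, y) = 0 → y = 0) :
    {x | F (t0, x) = 0}.Finite := by
  classical
  have hcl : IsClosed {x : Vc ι | F (t0, x) = 0} :=
    isClosed_eq (hF.continuous.comp (Continuous.prodMk continuous_const continuous_id))
      continuous_const
  have hcomp : IsCompact {x : Vc ι | F (t0, x) = 0} := by
    refine (isCompact_closedBall (0 : Vc ι) R).of_isClosed_subset hcl ?_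
    intro x hx
    rw [Metric.mem_closedBall, dist_zero_right]
    exact hR x hx
  have hex : ∀ z : Vc ι, ∃ r > 0, F (t0, z) = 0 →
      ∀ x, x ∈ Metric.ball z r → F (t0, x) = 0 → x = z := by
    intro z
    by_cases hz : F (t0, z) = 0
    · obtain ⟨r0, hr0, h⟩ := loc_unique F hF t0 z hz (hb z hz)
      refine ⟨r0, hr0, fun _ x hx hx0 => ?_⟩
      obtain ⟨w, -, hw⟩ := (h r0 hr0 le_rfl).self_of_nhds
      rw [hw x ⟨hx, hx0⟩, hw z ⟨Metric.mem_ball_self hr0, hz⟩]
    · exact ⟨1, one_pos, fun h => absurd h hz⟩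
  choose r hr hru using hex
  obtain ⟨S, hS1, hS2⟩ := hcomp.elim_nhds_subcover (fun z => Metric.ball z (r z))
    (fun z _ => Metric.ball_mem_nhds z (hr z))
  refine (S.finite_toSet).subset ?_
  intro x hx
  obtain ⟨z, hz1, hz2⟩ := Set.mem_iUnion₂.1 (hS2 hx)
  rw [hru z (hS1 z hz1) x hz2 hx]
  exact hz1

theorem ncard_eventually_eq {ι : Type} [Fintype ι] (F : ℂ × Vc ι → Vc ι) (hF : ContDiff ℂ 1 F) (t0 : ℂ)
    (ha : ∃ R : ℝ, ∀ᶠ t in 𝓝 t0, ∀ x, F (t, x) = 0 → ‖x‖ ≤ R)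
    (hb : ∀ x, F (t0, x) = 0 → ∀ y : Vc ι, fderiv ℂ F (t0, x) (0, y) = 0 → y = 0) :
    ∀ᶠ t in 𝓝 t0, {x | F (t, x) = 0}.Finite ∧
      {x | F (t, x) = 0}.ncard = {x | F (t0, x) = 0}.ncard := by
  classical
  obtain ⟨R, hR⟩ := ha
  have hfin := loc_finite F hF t0 R hR.self_of_nhds hb
  set S : Finset (Vc ι) := hfin.toFinset with hS
  have hmemS : ∀ z, z ∈ S ↔ F (t0, z) = 0 := fun z => by rw [hS, Set.Finite.mem_toFinset]; rfl
  -- radii
  have hex : ∀ z : Vc ι, ∃ r0 > 0, F (t0, z) = 0 → ∀ r, 0 < r → r ≤ r0 →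
      ∀ᶠ t in 𝓝 t0, ∃! x, x ∈ Metric.ball z r ∧ F (t, x) = 0 := by
    intro z
    by_cases hz : F (t0, z) = 0
    · obtain ⟨r0, hr0, h⟩ := loc_unique F hF t0 z hz (hb z hz)
      exact ⟨r0, hr0, fun _ => h⟩
    · exact ⟨1, one_pos, fun h => absurd h hz⟩
  choose r0 hr0 hloc using hex
  have hev : ∀ᶠ r in 𝓝[>] (0 : ℝ), 0 < r ∧ (∀ z ∈ S, r ≤ r0 z) ∧
      ∀ p ∈ S ×ˢ S, p.1 ≠ p.2 → r + r ≤ dist p.1 p.2 := by
    refine (eventually_mem_nhdsWithin (a := (0 : ℝ)) (s := Set.Ioi 0)).and (Eventually.and ?_ ?_)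
    · rw [eventually_all_finset]
      intro z _
      filter_upwards [Ioo_mem_nhdsGT (hr0 z)] with r hr
      exact hr.2.le
    · rw [eventually_all_finset]
      intro p _
      by_cases hp : p.1 = p.2
      · exact Eventually.of_forall fun r h => absurd hp h
      · have hd : 0 < dist p.1 p.2 / 2 := by
          have := dist_pos.2 hp
          linarith
        filter_upwards [Ioo_mem_nhdsGT hd] with r hr _
        have := hr.2
        linarith
  obtain ⟨r, hr, hr1, hr2⟩ := hev.exists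
  -- compact set without zeros
  have hQ : IsCompact (Metric.closedBall (0 : Vc ι) R \ ⋃ z ∈ S, Metric.ball z r) :=
    (isCompact_closedBall (0 : Vc ι) R).diff (isOpen_biUnion fun z _ => Metric.isOpen_ball)
  have hevQ : ∀ᶠ t in 𝓝 t0, ∀ x ∈ Metric.closedBall (0 : Vc ι) R \ ⋃ z ∈ S, Metric.ball z r,
      F (t, x) ≠ 0 := by
    apply hQ.eventually_forall_of_forall_eventually
    intro x hx
    have hx0 : F (t0, x) ≠ 0 := by
      intro h0
      apply hx.2
      exact Set.mem_iUnion₂.2 ⟨x, (hmemS x).2 h0, Metric.mem_ball_self hr⟩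
    exact hF.continuous.continuousAt.eventually_ne hx0
  have hevS : ∀ᶠ t in 𝓝 t0, ∀ z ∈ S, ∃! x, x ∈ Metric.ball z r ∧ F (t, x) = 0 := by
    rw [eventually_all_finset]
    intro z hz
    exact hloc z ((hmemS z).1 hz) r hr (hr1 z hz)
  filter_upwards [hR, hevQ, hevS] with t h1 h2 h3
  choose! g hg hgu using h3
  have hset : {x | F (t, x) = 0} = ↑(S.image g) := by
    ext x
    rw [Finset.coe_image, Set.mem_image]
    constructor
    · intro hx
      have hxR := h1 x hx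
      by_cases hxU : x ∈ ⋃ z ∈ S, Metric.ball z r
      · obtain ⟨z, hz1, hz2⟩ := Set.mem_iUnion₂.1 hxU
        exact ⟨z, hz1, (hgu z hz1 x ⟨hz2, hx⟩).symm⟩
      · exfalso
        refine h2 x ⟨?_, hxU⟩ hx
        rw [Metric.mem_closedBall, dist_zero_right]
        exact hxR
    · rintro ⟨z, hz, rfl⟩
      exact (hg z hz).2
  have hinj : Set.InjOn g S := by
    intro z hz w hw hzw
    by_contra hne
    have h4 := (hg z hz).1
    have h5 := (hg w hw).1
    rw [← hzw] at h5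
    have h6 := hr2 (z, w) (Finset.mem_product.2 ⟨hz, hw⟩) hne
    have h7 := dist_triangle_left z w (g z)
    rw [Metric.mem_ball] at h4 h5
    simp only at h6
    linarith
  refine ⟨?_, ?_⟩
  · rw [hset]
    exact Finset.finite_toSet _
  · have h0 : {x | F (t0, x) = 0} = ↑S := by
      ext z
      exact (hmemS z).symm
    rw [hset, h0, Set.ncard_coe_finset, Set.ncard_coe_finset, Finset.card_image_of_injOn hinj]

end EIG
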